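import Mathlib

set_option autoImplicit false
open scoped ComplexOrder
open Matrix Equiv Finset

namespace Pool.Agent.H94.MD

variable {n : ℕ}

/-- `n!` times the mixed discriminant of the matrices `A 0, ..., A (n-1)`. -/
def md (A : Fin n → Matrix (Fin n) (Fin n) ℂ) : ℂ :=
  ∑ α : Perm (Fin n), ∑ ρ : Perm (Fin n),
    ((Perm.sign α : ℤ) : ℂ) * ((Perm.sign ρ : ℤ) : ℂ) * ∏ k, A k (α k) (ρ k)

lemma md_eq_col (A : Fin n → Matrix (Fin n) (Fin n) ℂ) :
    md A = ∑ ρ : Perm (Fin n), ((Perm.sign ρ : ℤ) : ℂ) * (Matrix.of fun i k => A k i (ρ k)).det := by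
  unfold md
  rw [Finset.sum_comm]
  refine Finset.sum_congr rfl fun ρ _ => ?_
  rw [Matrix.det_apply', Finset.mul_sum]
  refine Finset.sum_congr rfl fun α _ => ?_
  simp only [Matrix.of_apply]
  ring

lemma md_eq_row (A : Fin n → Matrix (Fin n) (Fin n) ℂ) :
    md A = ∑ α : Perm (Fin n), ((Perm.sign α : ℤ) : ℂ) * (Matrix.of fun k j => A k (α k) j).det := by
  unfold md
  refine Finset.sum_congr rfl fun α _ => ?_
  rw [← Matrix.det_transpose, Matrix.det_apply', Finset.mul_sum]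
  refine Finset.sum_congr rfl fun ρ _ => ?_
  simp only [Matrix.transpose_apply, Matrix.of_apply]
  ring

lemma md_mul_left (G : Matrix (Fin n) (Fin n) ℂ) (A : Fin n → Matrix (Fin n) (Fin n) ℂ) :
    md (fun k => G * A k) = G.det * md A := by
  rw [md_eq_col, md_eq_col, Finset.mul_sum]
  refine Finset.sum_congr rfl fun ρ _ => ?_
  have : (Matrix.of fun i k => (G * A k) i (ρ k)) = G * (Matrix.of fun i k => A k i (ρ k)) := by
    ext i k
    simp [Matrix.mul_apply]
  rw [this, Matrix.det_mul]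
  ring

lemma md_mul_right (H : Matrix (Fin n) (Fin n) ℂ) (A : Fin n → Matrix (Fin n) (Fin n) ℂ) :
    md (fun k => A k * H) = H.det * md A := by
  rw [md_eq_row, md_eq_row, Finset.mul_sum]
  refine Finset.sum_congr rfl fun ρ _ => ?_
  have : (Matrix.of fun k j => (A k * H) (ρ k) j) = (Matrix.of fun k j => A k (ρ k) j) * H := by
    ext i k
    simp [Matrix.mul_apply]
  rw [this, Matrix.det_mul]
  ring

lemma md_conj (G : Matrix (Fin n) (Fin n) ℂ) (A : Fin n → Matrix (Fin n) (Fin n) ℂ) :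
    md (fun k => G * A k * Gᴴ) = (G.det * star G.det) * md A := by
  rw [md_mul_right, md_mul_left, Matrix.det_conjTranspose]
  ring

/-- the mixed discriminant as a multilinear map -/
noncomputable def mdM (n : ℕ) :
    MultilinearMap ℂ (fun _ : Fin n => Matrix (Fin n) (Fin n) ℂ) ℂ :=
  ∑ α : Perm (Fin n), ∑ ρ : Perm (Fin n),
    (((Perm.sign α : ℤ) : ℂ) * ((Perm.sign ρ : ℤ) : ℂ)) •
      (MultilinearMap.mkPiAlgebra ℂ (Fin n) ℂ).compLinearMap
        (fun k => Matrix.entryLinearMap ℂ ℂ (α k) (ρ k))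

lemma mdM_apply (A : Fin n → Matrix (Fin n) (Fin n) ℂ) : mdM n A = md A := by
  unfold mdM md
  simp

lemma md_perm (τ : Perm (Fin n)) (A : Fin n → Matrix (Fin n) (Fin n) ℂ) :
    md (fun k => A (τ k)) = md A := by
  unfold md
  rw [← Equiv.sum_comp (Equiv.mulRight τ) (fun α : Perm (Fin n) => ∑ ρ : Perm (Fin n),
    ((Perm.sign α : ℤ) : ℂ) * ((Perm.sign ρ : ℤ) : ℂ) * ∏ k, A (τ k) (α k) (ρ k))]
  refine Finset.sum_congr rfl fun α _ => ?_
  rw [← Equiv.sum_comp (Equiv.mulRight τ) (fun ρ : Perm (Fin n) =>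
    ((Perm.sign ((Equiv.mulRight τ) α) : ℤ) : ℂ) * ((Perm.sign ρ : ℤ) : ℂ) *
      ∏ k, A (τ k) (((Equiv.mulRight τ) α) k) (ρ k))]
  refine Finset.sum_congr rfl fun ρ _ => ?_
  simp only [Equiv.coe_mulRight, Perm.sign_mul, Perm.coe_mul, Function.comp_apply]
  rw [← Equiv.prod_comp τ (fun k => A k (α k) (ρ k))]
  have : ((Perm.sign τ : ℤ) : ℂ) * ((Perm.sign τ : ℤ) : ℂ) = 1 := by
    rw [← Int.cast_mul, ← Units.val_mul, Int.units_mul_self]; simp
  push_cast
  linear_combination (((Perm.sign α : ℤ) : ℂ) * ((Perm.sign ρ : ℤ) : ℂ) *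
    ∏ x, A (τ x) (α (τ x)) (ρ (τ x))) * this

lemma md_star (A : Fin n → Matrix (Fin n) (Fin n) ℂ) (hA : ∀ k, (A k).IsHermitian) :
    star (md A) = md A := by
  unfold md
  rw [star_sum]
  conv_rhs => rw [Finset.sum_comm]
  refine Finset.sum_congr rfl fun α _ => ?_
  rw [star_sum]
  refine Finset.sum_congr rfl fun ρ _ => ?_
  rw [star_mul', star_mul']
  simp only [star_intCast, star_prod]
  have : ∀ k, star (A k (α k) (ρ k)) = A k (ρ k) (α k) := fun k => (hA k).apply _ _
  simp only [this]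
  ring

/-- Gram formula: the mixed discriminant of `M_k M_kᴴ` is a sum of squares. -/
lemma md_gram (M : Fin n → Matrix (Fin n) (Fin n) ℂ) :
    md (fun k => M k * (M k)ᴴ) =
      ∑ f : Fin n → Fin n, (Matrix.of fun i k => M k i (f k)).det *
        star (Matrix.of fun i k => M k i (f k)).det := by
  unfold md
  have h1 : ∀ α ρ : Perm (Fin n), (∏ k, (M k * (M k)ᴴ) (α k) (ρ k)) =
      ∑ f : Fin n → Fin n, ∏ k, (M k (α k) (f k) * star (M k (ρ k) (f k))) := by
    intro α ρ
    simp only [Matrix.mul_apply, Matrix.conjTranspose_apply]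
    rw [Finset.prod_univ_sum]
    simp
  simp only [h1, Finset.mul_sum]
  rw [Finset.sum_congr rfl fun α _ => Finset.sum_comm, Finset.sum_comm]
  refine Finset.sum_congr rfl fun f _ => ?_
  rw [Matrix.det_apply', star_sum, Finset.sum_mul_sum]
  refine Finset.sum_congr rfl fun α _ => Finset.sum_congr rfl fun ρ _ => ?_
  simp only [Matrix.of_apply, star_mul', star_intCast, star_prod]
  rw [Finset.prod_mul_distrib]
  ring

lemma exists_sqrt_of_posSemidef {A : Matrix (Fin n) (Fin n) ℂ} (hA : A.PosSemidef) :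
    ∃ M : Matrix (Fin n) (Fin n) ℂ, A = M * Mᴴ := by
  have h := hA.1.spectral_theorem
  rw [Unitary.conjStarAlgAut_apply] at h
  refine ⟨(hA.1.eigenvectorUnitary : Matrix (Fin n) (Fin n) ℂ) *
    diagonal (fun i => ((Real.sqrt (hA.1.eigenvalues i) : ℝ) : ℂ)), ?_⟩
  rw [conjTranspose_mul, diagonal_conjTranspose]
  have h2 : (diagonal (fun i => ((Real.sqrt (hA.1.eigenvalues i) : ℝ) : ℂ))) *
      diagonal (star fun i => ((Real.sqrt (hA.1.eigenvalues i) : ℝ) : ℂ)) =
      diagonal (RCLike.ofReal ∘ hA.1.eigenvalues) := by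
    rw [diagonal_mul_diagonal]
    congr 1
    funext i
    have := hA.eigenvalues_nonneg i
    simp only [Pi.star_apply, Complex.star_def, Complex.conj_ofReal, Function.comp_apply]
    rw [← Complex.ofReal_mul, Real.mul_self_sqrt this]
    rfl
  conv_lhs => rw [h, ← h2]
  simp only [Matrix.mul_assoc]
  rfl

lemma md_nonneg (A : Fin n → Matrix (Fin n) (Fin n) ℂ) (hA : ∀ k, (A k).PosSemidef) :
    0 ≤ md A := by
  choose M hM using fun k => exists_sqrt_of_posSemidef (hA k)
  have : A = fun k => M k * (M k)ᴴ := funext hM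
  rw [this, md_gram]
  refine Finset.sum_nonneg fun f _ => ?_
  exact mul_star_self_nonneg _

lemma md_one : md (fun _ : Fin n => (1 : Matrix (Fin n) (Fin n) ℂ)) = (n.factorial : ℂ) := by
  rw [md_eq_col]
  have : ∀ ρ : Perm (Fin n), ((Perm.sign ρ : ℤ) : ℂ) *
      (Matrix.of fun i k => (1 : Matrix (Fin n) (Fin n) ℂ) i (ρ k)).det = 1 := by
    intro ρ
    have h : (Matrix.of fun i k => (1 : Matrix (Fin n) (Fin n) ℂ) i (ρ k)) =
        (1 : Matrix (Fin n) (Fin n) ℂ).submatrix id ρ := rfl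
    rw [h, Matrix.det_permute', Matrix.det_one, mul_one, ← Int.cast_mul, ← Units.val_mul,
      Int.units_mul_self]
    simp
  rw [Finset.sum_congr rfl fun ρ _ => this ρ]
  simp [Fintype.card_perm]

lemma exists_eps_of_posDef {A : Matrix (Fin n) (Fin n) ℂ} (hA : A.PosDef) :
    ∃ ε : ℝ, 0 < ε ∧ (A - (ε : ℂ) • (1 : Matrix (Fin n) (Fin n) ℂ)).PosSemidef := by
  classical
  rcases isEmpty_or_nonempty (Fin n) with he | he
  · refine ⟨1, one_pos, ?_⟩
    have : (A - ((1 : ℝ) : ℂ) • (1 : Matrix (Fin n) (Fin n) ℂ)) = 0 := by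
      ext i; exact (he.false i).elim
    rw [this]; exact PosSemidef.zero
  · have hpos := hA.eigenvalues_pos
    obtain ⟨i0, hi0⟩ := Finite.exists_min hA.1.eigenvalues
    refine ⟨hA.1.eigenvalues i0, hpos i0, ?_⟩
    have h := hA.1.spectral_theorem
    rw [Unitary.conjStarAlgAut_apply] at h
    set U := hA.1.eigenvectorUnitary with hU
    have hUU : (U : Matrix (Fin n) (Fin n) ℂ) * star (U : Matrix (Fin n) (Fin n) ℂ) = 1 :=
      Unitary.coe_mul_star_self U
    have : (A - ((hA.1.eigenvalues i0 : ℝ) : ℂ) • (1 : Matrix (Fin n) (Fin n) ℂ)) =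
        (U : Matrix (Fin n) (Fin n) ℂ) * diagonal (fun i => (((hA.1.eigenvalues i -
          hA.1.eigenvalues i0 : ℝ)) : ℂ)) * (U : Matrix (Fin n) (Fin n) ℂ)ᴴ := by
      have h3 : diagonal (fun i => (((hA.1.eigenvalues i - hA.1.eigenvalues i0 : ℝ)) : ℂ)) =
          diagonal (RCLike.ofReal ∘ hA.1.eigenvalues) -
            ((hA.1.eigenvalues i0 : ℝ) : ℂ) • (1 : Matrix (Fin n) (Fin n) ℂ) := by
        ext i j
        by_cases hij : i = j
        · subst hij; simp
        · simp [hij]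
      rw [h3, Matrix.mul_sub, Matrix.sub_mul, Matrix.mul_smul, Matrix.mul_one, Matrix.smul_mul]
      rw [← Matrix.star_eq_conjTranspose, hUU, ← h]
    rw [this]
    apply PosSemidef.mul_mul_conjTranspose_same
    apply PosSemidef.diagonal
    intro i
    have := hi0 i
    simp only [Pi.zero_apply]
    exact_mod_cast sub_nonneg.mpr this

lemma md_pos (A : Fin n → Matrix (Fin n) (Fin n) ℂ) (hA : ∀ k, (A k).PosDef) :
    0 < md A := by
  choose ε hε hR using fun k => exists_eps_of_posDef (hA k)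
  have h1 : A = (fun k => ((ε k : ℝ) : ℂ) • (1 : Matrix (Fin n) (Fin n) ℂ)) +
      (fun k => A k - ((ε k : ℝ) : ℂ) • (1 : Matrix (Fin n) (Fin n) ℂ)) := by
    funext k; simp
  rw [← mdM_apply, h1, MultilinearMap.map_add_univ]
  rw [← Finset.add_sum_erase _ _ (Finset.mem_univ Finset.univ)]
  refine add_pos_of_pos_of_nonneg ?_ (Finset.sum_nonneg fun s _ => ?_)
  · rw [Finset.piecewise_univ]
    have := (mdM n).map_smul_univ (fun k => ((ε k : ℝ) : ℂ))
      (fun _ => (1 : Matrix (Fin n) (Fin n) ℂ))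
    rw [this, mdM_apply, md_one, smul_eq_mul]
    refine mul_pos ?_ (by exact_mod_cast n.factorial_pos)
    rw [← Complex.ofReal_prod]
    exact_mod_cast Finset.prod_pos fun k _ => hε k
  · rw [mdM_apply]
    refine md_nonneg _ fun k => ?_
    by_cases hk : k ∈ s
    · rw [Finset.piecewise_eq_of_mem _ _ _ hk]
      have : (0 : ℂ) ≤ ((ε k : ℝ) : ℂ) := by exact_mod_cast (hε k).le
      exact PosSemidef.smul PosSemidef.one this
    · rw [Finset.piecewise_eq_of_notMem _ _ _ hk]
      exact hR k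

end Pool.Agent.H94.MD
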