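import Mathlib

set_option autoImplicit false
open scoped ComplexOrder
open Matrix Equiv Finset

namespace Pool.Agent.H94.MD

section General

variable {ι κ : Type} [Fintype ι] [DecidableEq ι] [Fintype κ] [DecidableEq κ]

/-- the sign of a permutation as a complex number -/
def sg (α : Perm ι) : ℂ := ((Perm.sign α : ℤ) : ℂ)

lemma sg_mul (α β : Perm ι) : sg (α * β) = sg α * sg β := by
  simp [sg, Perm.sign_mul]

lemma sg_inv (α : Perm ι) : sg α⁻¹ = sg α := by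
  simp [sg]

lemma sg_sq (α : Perm ι) : sg α * sg α = 1 := by
  unfold sg
  rw [← Int.cast_mul, ← Units.val_mul, Int.units_mul_self]; simp

lemma sg_one : sg (1 : Perm ι) = 1 := by simp [sg]

/-- the coefficient of the mixed discriminant, any index type -/
def mdg (A : ι → Matrix ι ι ℂ) : ℂ :=
  ∑ α : Perm ι, ∑ ρ : Perm ι, sg α * sg ρ * ∏ k, A k (α k) (ρ k)

lemma mdg_eq_col (A : ι → Matrix ι ι ℂ) :
    mdg A = ∑ ρ : Perm ι, sg ρ * (Matrix.of fun i k => A k i (ρ k)).det := by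
  unfold mdg
  rw [Finset.sum_comm]
  refine Finset.sum_congr rfl fun ρ _ => ?_
  rw [Matrix.det_apply', Finset.mul_sum]
  refine Finset.sum_congr rfl fun α _ => ?_
  simp only [Matrix.of_apply, sg]
  ring

lemma mdg_eq_row (A : ι → Matrix ι ι ℂ) :
    mdg A = ∑ α : Perm ι, sg α * (Matrix.of fun k j => A k (α k) j).det := by
  unfold mdg
  refine Finset.sum_congr rfl fun α _ => ?_
  rw [← Matrix.det_transpose, Matrix.det_apply', Finset.mul_sum]
  refine Finset.sum_congr rfl fun ρ _ => ?_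
  simp only [Matrix.transpose_apply, Matrix.of_apply, sg]
  ring

lemma mdg_mul_left (G : Matrix ι ι ℂ) (A : ι → Matrix ι ι ℂ) :
    mdg (fun k => G * A k) = G.det * mdg A := by
  rw [mdg_eq_col, mdg_eq_col, Finset.mul_sum]
  refine Finset.sum_congr rfl fun ρ _ => ?_
  have : (Matrix.of fun i k => (G * A k) i (ρ k)) = G * (Matrix.of fun i k => A k i (ρ k)) := by
    ext i k
    simp [Matrix.mul_apply]
  rw [this, Matrix.det_mul]
  ring

lemma mdg_mul_right (H : Matrix ι ι ℂ) (A : ι → Matrix ι ι ℂ) :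
    mdg (fun k => A k * H) = H.det * mdg A := by
  rw [mdg_eq_row, mdg_eq_row, Finset.mul_sum]
  refine Finset.sum_congr rfl fun ρ _ => ?_
  have : (Matrix.of fun k j => (A k * H) (ρ k) j) = (Matrix.of fun k j => A k (ρ k) j) * H := by
    ext i k
    simp [Matrix.mul_apply]
  rw [this, Matrix.det_mul]
  ring

/-- `n!` times Finski's number of a family `B`. -/
def Phi (B : ι → ι → Matrix ι ι ℂ) : ℂ :=
  ∑ α : Perm ι, ∑ ρ : Perm ι, sg α * sg ρ *
    (Matrix.of fun k j => B k j (α k) (ρ k)).det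

lemma det_eq_sg (M : Matrix ι ι ℂ) : M.det = ∑ σ : Perm ι, sg σ * ∏ k, M k (σ k) := by
  rw [← Matrix.det_transpose, Matrix.det_apply']
  rfl

lemma Phi_eq (B : ι → ι → Matrix ι ι ℂ) :
    Phi B = ∑ σ : Perm ι, sg σ * mdg (fun k => B k (σ k)) := by
  unfold Phi mdg
  simp only [det_eq_sg, Finset.mul_sum, Matrix.of_apply]
  have h1 : ∀ α : Perm ι, ∑ ρ : Perm ι, ∑ σ : Perm ι,
      sg α * sg ρ * (sg σ * ∏ k, B k (σ k) (α k) (ρ k)) =
      ∑ σ : Perm ι, ∑ ρ : Perm ι, sg α * sg ρ * (sg σ * ∏ k, B k (σ k) (α k) (ρ k)) :=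
    fun α => Finset.sum_comm
  rw [Finset.sum_congr rfl fun α _ => h1 α, Finset.sum_comm]
  refine Finset.sum_congr rfl fun σ _ => Finset.sum_congr rfl fun α _ =>
    Finset.sum_congr rfl fun ρ _ => ?_
  ring

lemma Phi_conj (G : Matrix ι ι ℂ) (B : ι → ι → Matrix ι ι ℂ) :
    Phi (fun i j => G * B i j * Gᴴ) = (G.det * star G.det) * Phi B := by
  rw [Phi_eq, Phi_eq, Finset.mul_sum]
  refine Finset.sum_congr rfl fun σ _ => ?_
  rw [mdg_mul_right, mdg_mul_left, Matrix.det_conjTranspose]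
  ring

lemma Phi_reindex (e : ι ≃ κ) (B : κ → κ → Matrix κ κ ℂ) :
    Phi (fun i j : ι => (B (e i) (e j)).submatrix e e) = Phi B := by
  unfold Phi
  rw [← Equiv.sum_comp (Equiv.permCongr e) (fun α : Perm κ => ∑ ρ : Perm κ,
    sg α * sg ρ * (Matrix.of fun k j => B k j (α k) (ρ k)).det)]
  refine Finset.sum_congr rfl fun α _ => ?_
  rw [← Equiv.sum_comp (Equiv.permCongr e) (fun ρ : Perm κ =>
    sg (e.permCongr α) * sg ρ *
    (Matrix.of fun k j => B k j ((e.permCongr α) k) (ρ k)).det)]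
  refine Finset.sum_congr rfl fun ρ _ => ?_
  have hs : ∀ τ : Perm ι, sg (e.permCongr τ) = sg τ := by
    intro τ; simp [sg, Perm.sign_permCongr]
  rw [hs, hs]
  congr 1
  rw [← Matrix.det_submatrix_equiv_self e]
  congr 1
  ext k j
  simp [Equiv.permCongr_apply]

/-- positivity of a family of matrices (Griffiths positivity) -/
def PosF (B : ι → ι → Matrix κ κ ℂ) : Prop :=
  ∀ ξ : ι → ℂ, ξ ≠ 0 → (∑ i, ∑ j, (ξ i * star (ξ j)) • B i j).PosDef

end General

section Block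

variable {U V T : Type} [Fintype U] [DecidableEq U] [Fintype V] [DecidableEq V]
  [Fintype T] [DecidableEq T]

lemma sg_sumCongr (σ : Perm U) (τ : Perm V) : sg (Perm.sumCongr σ τ) = sg σ * sg τ := by
  simp [sg, Perm.sign_sumCongr]

/-- block sum of a family on `U` and a family on `V` -/
def bsum (B : U → U → Matrix (U ⊕ V) (U ⊕ V) ℂ) (C : V → V → Matrix (U ⊕ V) (U ⊕ V) ℂ) :
    (U ⊕ V) → (U ⊕ V) → Matrix (U ⊕ V) (U ⊕ V) ℂ :=
  fun i j => Sum.elim (fun u => Sum.elim (fun u' => B u u') (fun _ => 0) j)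
    (fun v => Sum.elim (fun _ => 0) (fun v' => C v v') j) i

/-- the determinant of the `U` block -/
noncomputable def dU (B : U → U → Matrix (U ⊕ V) (U ⊕ V) ℂ) (α ρ : Perm (U ⊕ V)) : ℂ :=
  (Matrix.of fun k j : U => B k j (α (Sum.inl k)) (ρ (Sum.inl k))).det

lemma Phi_bsum (B : U → U → Matrix (U ⊕ V) (U ⊕ V) ℂ) (C : V → V → Matrix (U ⊕ V) (U ⊕ V) ℂ) :
    Phi (bsum B C) = ∑ α : Perm (U ⊕ V), ∑ ρ : Perm (U ⊕ V), sg α * sg ρ *
      (dU B α ρ * (Matrix.of fun k j : V => C k j (α (Sum.inr k)) (ρ (Sum.inr k))).det) := by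
  unfold Phi
  refine Finset.sum_congr rfl fun α _ => Finset.sum_congr rfl fun ρ _ => ?_
  congr 1
  have : (Matrix.of fun k j : U ⊕ V => bsum B C k j (α k) (ρ k)) = Matrix.fromBlocks
      (Matrix.of fun k j : U => B k j (α (Sum.inl k)) (ρ (Sum.inl k))) 0 0
      (Matrix.of fun k j : V => C k j (α (Sum.inr k)) (ρ (Sum.inr k))) := by
    ext x y
    rcases x with u | v <;> rcases y with u' | v' <;> simp [bsum]
  rw [this, Matrix.det_fromBlocks_zero₂₁]
  rfl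

/-- the permanent type sum -/
noncomputable def PV (m : T → V → (U ⊕ V) → ℂ) (α ρ : Perm (U ⊕ V)) : ℂ :=
  ∑ σ : Perm V, ∏ k, ∑ t, m t k (α (Sum.inr k)) * star (m t (σ k) (ρ (Sum.inr (σ k))))

/-- common value of `Phi` for a completely positive or completely copositive second block -/
noncomputable def Sm (B : U → U → Matrix (U ⊕ V) (U ⊕ V) ℂ) (m : T → V → (U ⊕ V) → ℂ) : ℂ :=
  ∑ α : Perm (U ⊕ V), ∑ ρ : Perm (U ⊕ V), sg α * sg ρ * (dU B α ρ * PV m α ρ)

lemma dU_mul_right (B : U → U → Matrix (U ⊕ V) (U ⊕ V) ℂ) (α ρ : Perm (U ⊕ V)) (σ : Perm V) :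
    dU B α (ρ * Perm.sumCongr 1 σ) = dU B α ρ := by
  simp [dU]

lemma dU_mul_left (B : U → U → Matrix (U ⊕ V) (U ⊕ V) ℂ) (α ρ : Perm (U ⊕ V)) (σ : Perm V) :
    dU B (α * Perm.sumCongr 1 σ) ρ = dU B α ρ := by
  simp [dU]

lemma Phi_cp (B : U → U → Matrix (U ⊕ V) (U ⊕ V) ℂ) (C : V → V → Matrix (U ⊕ V) (U ⊕ V) ℂ)
    (m : T → V → (U ⊕ V) → ℂ) (hC : ∀ k j a b, C k j a b = ∑ t, m t k a * star (m t j b)) :
    Phi (bsum B C) = Sm B m := by
  rw [Phi_bsum, Sm]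
  refine Finset.sum_congr rfl fun α _ => ?_
  simp only [det_eq_sg, PV, Finset.mul_sum, Matrix.of_apply]
  rw [Finset.sum_comm]
  conv_rhs => rw [Finset.sum_comm]
  refine Finset.sum_congr rfl fun σ _ => ?_
  rw [← Equiv.sum_comp (Equiv.mulRight (Perm.sumCongr (1 : Perm U) σ))]
  refine Finset.sum_congr rfl fun ρ _ => ?_
  simp only [Equiv.coe_mulRight, dU_mul_right, sg_mul, sg_sumCongr, sg_one, Perm.mul_apply,
    Perm.sumCongr_apply, Sum.map_inr, hC]
  linear_combination (sg α * sg ρ * dU B α ρ * ∏ k, ∑ t, m t k (α (Sum.inr k)) *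
    star (m t (σ k) (ρ (Sum.inr (σ k))))) * sg_sq σ

lemma Phi_cocp (B : U → U → Matrix (U ⊕ V) (U ⊕ V) ℂ) (C : V → V → Matrix (U ⊕ V) (U ⊕ V) ℂ)
    (m : T → V → (U ⊕ V) → ℂ) (hC : ∀ k j a b, C k j a b = ∑ t, m t j a * star (m t k b)) :
    Phi (bsum B C) = Sm B m := by
  rw [Phi_bsum, Sm, Finset.sum_comm]
  conv_rhs => rw [Finset.sum_comm]
  refine Finset.sum_congr rfl fun ρ _ => ?_
  simp only [det_eq_sg, PV, Finset.mul_sum, Matrix.of_apply]
  rw [Finset.sum_comm]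
  conv_rhs => rw [Finset.sum_comm]
  rw [← Equiv.sum_comp (Equiv.inv (Perm V))]
  refine Finset.sum_congr rfl fun σ _ => ?_
  rw [← Equiv.sum_comp (Equiv.mulRight (Perm.sumCongr (1 : Perm U) (σ⁻¹)))]
  refine Finset.sum_congr rfl fun α _ => ?_
  simp only [Equiv.coe_mulRight, dU_mul_left, sg_mul, sg_sumCongr, sg_one, Perm.mul_apply,
    Perm.sumCongr_apply, Sum.map_inr, hC, Equiv.inv_apply, sg_inv]
  have h : ∏ k, ∑ t, m t (σ⁻¹ k) (α (Sum.inr (σ⁻¹ k))) * star (m t k (ρ (Sum.inr k))) =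
      ∏ k, ∑ t, m t k (α (Sum.inr k)) * star (m t (σ k) (ρ (Sum.inr (σ k)))) := by
    rw [← Equiv.prod_comp σ]
    simp
  rw [h]
  linear_combination (sg α * sg ρ * dU B α ρ * ∏ k, ∑ t, m t k (α (Sum.inr k)) *
    star (m t (σ k) (ρ (Sum.inr (σ k))))) * sg_sq σ

/-- rank one family -/
def rk1 (x : V → (U ⊕ V) → ℂ) : V → V → Matrix (U ⊕ V) (U ⊕ V) ℂ :=
  fun k j => if k = j then Matrix.of fun a b => x k a * star (x k b) else 0

lemma Phi_rk1 (B : U → U → Matrix (U ⊕ V) (U ⊕ V) ℂ) (x : V → (U ⊕ V) → ℂ) :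
    Phi (bsum B (rk1 x)) = ∑ α : Perm (U ⊕ V), ∑ ρ : Perm (U ⊕ V), sg α * sg ρ *
      (dU B α ρ * ((∏ k, x k (α (Sum.inr k))) * ∏ k, star (x k (ρ (Sum.inr k))))) := by
  rw [Phi_bsum]
  refine Finset.sum_congr rfl fun α _ => Finset.sum_congr rfl fun ρ _ => ?_
  congr 2
  have : (Matrix.of fun k j : V => rk1 x k j (α (Sum.inr k)) (ρ (Sum.inr k))) =
      Matrix.diagonal (fun k => x k (α (Sum.inr k)) * star (x k (ρ (Sum.inr k)))) := by
    ext k j
    by_cases h : k = j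
    · subst h; simp [rk1]
    · simp [rk1, h]
  rw [this, Matrix.det_diagonal, Finset.prod_mul_distrib]

end Block

end Pool.Agent.H94.MD
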