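import Mathlib
import Pool.Agent.H94.MD.Phi

set_option autoImplicit false
open scoped ComplexOrder
open Matrix Equiv Finset

namespace Pool.Agent.H94.MD

variable {ι : Type} [Fintype ι] [DecidableEq ι]

/-- exchange of the two tensor factors -/
def exch (B : ι → ι → Matrix ι ι ℂ) : ι → ι → Matrix ι ι ℂ :=
  fun a b => Matrix.of fun i j => B i j a b

/-- the involution of triples of permutations -/
def trip : Perm (Perm ι × Perm ι × Perm ι) :=
  Function.Involutive.toPerm (fun p => (p.2.2 * p.2.1⁻¹, p.2.1⁻¹, p.1 * p.2.1⁻¹)) (by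
    rintro ⟨σ, α, ρ⟩
    simp)

lemma Phi_triple (B : ι → ι → Matrix ι ι ℂ) :
    Phi B = ∑ p : Perm ι × Perm ι × Perm ι, sg p.1 * sg p.2.1 * sg p.2.2 *
      ∏ k, B k (p.1 k) (p.2.1 k) (p.2.2 k) := by
  rw [Phi_eq, Fintype.sum_prod_type]
  refine Finset.sum_congr rfl fun σ _ => ?_
  rw [mdg, Fintype.sum_prod_type, Finset.mul_sum]
  refine Finset.sum_congr rfl fun α _ => ?_
  rw [Finset.mul_sum]
  refine Finset.sum_congr rfl fun ρ _ => ?_
  ring

lemma Phi_exch (B : ι → ι → Matrix ι ι ℂ) : Phi (exch B) = Phi B := by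
  rw [Phi_triple, Phi_triple, ← Equiv.sum_comp trip]
  refine Finset.sum_congr rfl fun p _ => ?_
  obtain ⟨σ, α, ρ⟩ := p
  simp only [trip, Function.Involutive.coe_toPerm, exch, Matrix.of_apply, sg_mul, sg_inv]
  have h : ∏ k, B (α⁻¹ k) ((σ * α⁻¹) k) k ((ρ * α⁻¹) k) = ∏ k, B k (σ k) (α k) (ρ k) := by
    rw [← Equiv.prod_comp α]
    simp
  rw [h]
  linear_combination (sg σ * sg α * sg ρ * ∏ k, B k (σ k) (α k) (ρ k)) * sg_sq α

/-- action of matrices on the index side -/
def acg (g : Matrix ι ι ℂ) (B : ι → ι → Matrix ι ι ℂ) : ι → ι → Matrix ι ι ℂ :=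
  fun i j => ∑ k, ∑ l, (g i k * star (g j l)) • B k l

lemma exch_acg (g : Matrix ι ι ℂ) (B : ι → ι → Matrix ι ι ℂ) :
    exch (acg g B) = fun a b => g * exch B a b * gᴴ := by
  funext a b
  ext i j
  simp only [exch, acg, Matrix.of_apply, Matrix.sum_apply, Matrix.smul_apply, smul_eq_mul,
    Matrix.mul_apply, Matrix.conjTranspose_apply, Finset.sum_mul]
  rw [Finset.sum_comm]
  refine Finset.sum_congr rfl fun l _ => Finset.sum_congr rfl fun k _ => ?_
  ring

lemma Phi_acg (g : Matrix ι ι ℂ) (B : ι → ι → Matrix ι ι ℂ) :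
    Phi (acg g B) = (g.det * star g.det) * Phi B := by
  rw [← Phi_exch, exch_acg, Phi_conj, Phi_exch]

lemma acg_acg (g h : Matrix ι ι ℂ) (B : ι → ι → Matrix ι ι ℂ) :
    acg g (acg h B) = acg (g * h) B := by
  have h1 : exch (acg g (acg h B)) = exch (acg (g * h) B) := by
    rw [exch_acg, exch_acg, exch_acg]
    funext a b
    rw [Matrix.conjTranspose_mul]
    simp only [Matrix.mul_assoc]
  funext i j
  ext a b
  exact congrFun (congrFun (congrFun (congrFun h1 a) b) i) j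

lemma acg_posF {g : Matrix ι ι ℂ} (hg : g.det ≠ 0) {B : ι → ι → Matrix ι ι ℂ} (hB : PosF B) :
    PosF (acg g B) := by
  intro ξ hξ
  have hinj : ξ ᵥ* g ≠ 0 := by
    intro h0
    apply hξ
    have hu : IsUnit g := (Matrix.isUnit_iff_isUnit_det _).mpr (isUnit_iff_ne_zero.mpr hg)
    have := Matrix.vecMul_injective_iff_isUnit.mpr hu
    exact this (by simpa using h0)
  have h := hB (ξ ᵥ* g) hinj
  convert h using 1
  ext a b
  simp only [acg, Matrix.sum_apply, Matrix.smul_apply, smul_eq_mul, Finset.mul_sum,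
    Matrix.vecMul, dotProduct, star_sum, star_mul', Finset.sum_mul]
  -- both sides are quadruple sums
  have e1 : ∀ F : ι → ι → ι → ι → ℂ, ∑ i, ∑ j, ∑ k, ∑ l, F i j k l =
      ∑ k, ∑ l, ∑ j, ∑ i, F i j k l := by
    intro F
    have a1 : ∀ i, ∑ j, ∑ k, ∑ l, F i j k l = ∑ k, ∑ l, ∑ j, F i j k l := by
      intro i
      rw [Finset.sum_comm]
      exact Finset.sum_congr rfl fun k _ => Finset.sum_comm
    rw [Finset.sum_congr rfl fun i _ => a1 i, Finset.sum_comm]
    refine Finset.sum_congr rfl fun k _ => ?_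
    rw [Finset.sum_comm]
    exact Finset.sum_congr rfl fun l _ => Finset.sum_comm
  rw [e1]
  refine Finset.sum_congr rfl fun k _ => Finset.sum_congr rfl fun l _ =>
    Finset.sum_congr rfl fun j _ => Finset.sum_congr rfl fun i _ => ?_
  ring

lemma conj_posF {G : Matrix ι ι ℂ} (hG : G.det ≠ 0) {B : ι → ι → Matrix ι ι ℂ} (hB : PosF B) :
    PosF (fun i j => G * B i j * Gᴴ) := by
  intro ξ hξ
  have h1 := (hB ξ hξ).mul_mul_conjTranspose_same (B := G)
    (Matrix.vecMul_injective_iff_isUnit.mpr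
      ((Matrix.isUnit_iff_isUnit_det _).mpr (isUnit_iff_ne_zero.mpr hG)))
  convert h1 using 1
  simp only [Matrix.mul_sum, Matrix.sum_mul, Matrix.mul_smul, Matrix.smul_mul]

end Pool.Agent.H94.MD
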