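import Mathlib
import Pool.Agent.H94.MD.Basic
import Pool.Agent.H94.MD.Exch

set_option autoImplicit false
open scoped ComplexOrder
open Matrix Equiv Finset

namespace Pool.Agent.H94.MD

variable {n : ℕ}

/-- the sum of the diagonal members of the moved family -/
noncomputable def SS (B : Fin n → Fin n → Matrix (Fin n) (Fin n) ℂ) (g : Matrix (Fin n) (Fin n) ℂ) :
    Matrix (Fin n) (Fin n) ℂ := ∑ i, acg g B i i

lemma SS_posDef {B : Fin n → Fin n → Matrix (Fin n) (Fin n) ℂ} (hB : PosF B)
    {g : Matrix (Fin n) (Fin n) ℂ} (hg : g ≠ 0) : (SS B g).PosDef := by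
  classical
  have hrow : ∃ i, g i ≠ 0 := by
    by_contra hcon
    push Not at hcon
    apply hg
    ext i j
    exact congrFun (hcon i) j
  obtain ⟨i₀, hi₀⟩ := hrow
  have h1 : ∀ i, g i ≠ 0 → (acg g B i i).PosDef := fun i hi => hB (g i) hi
  have h2 : ∀ i, (acg g B i i).PosSemidef := by
    intro i
    by_cases hi : g i = 0
    · have : acg g B i i = 0 := by
        simp [acg, hi]
      rw [this]
      exact PosSemidef.zero
    · exact (h1 i hi).posSemidef
  rw [SS, ← Finset.add_sum_erase _ _ (Finset.mem_univ i₀)]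
  exact (h1 i₀ hi₀).add_posSemidef (posSemidef_sum _ fun i _ => h2 i)

lemma SS_smul (B : Fin n → Fin n → Matrix (Fin n) (Fin n) ℂ) (c : ℝ)
    (g : Matrix (Fin n) (Fin n) ℂ) : SS B ((c : ℂ) • g) = ((c ^ 2 : ℝ) : ℂ) • SS B g := by
  unfold SS acg
  rw [Finset.smul_sum]
  refine Finset.sum_congr rfl fun i _ => ?_
  rw [Finset.smul_sum]
  refine Finset.sum_congr rfl fun k _ => ?_
  rw [Finset.smul_sum]
  refine Finset.sum_congr rfl fun l _ => ?_
  rw [smul_smul]
  congr 1
  simp only [Matrix.smul_apply, smul_eq_mul, star_mul', Complex.star_def, Complex.conj_ofReal]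
  push_cast
  ring

lemma SS_cont (B : Fin n → Fin n → Matrix (Fin n) (Fin n) ℂ) :
    Continuous fun g : Matrix (Fin n) (Fin n) ℂ => (SS B g).det := by
  refine Continuous.matrix_det ?_
  unfold SS acg
  refine continuous_finsetSum _ fun i _ => continuous_finsetSum _ fun k _ =>
    continuous_finsetSum _ fun l _ => ?_
  have h : Continuous fun g : Matrix (Fin n) (Fin n) ℂ => (g i k * star (g i l)) := by fun_prop
  exact h.smul (continuous_const (y := B k l))

lemma re_of_pos {z : ℂ} (h : 0 < z) : 0 < z.re ∧ z = (z.re : ℂ) := by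
  have h1 := Complex.lt_def.mp h
  refine ⟨h1.1, ?_⟩
  apply Complex.ext
  · simp
  · simpa using h1.2.symm

/-- existence of a maximiser -/
lemma exists_maxi (hn : 0 < n) {B : Fin n → Fin n → Matrix (Fin n) (Fin n) ℂ} (hB : PosF B) :
    ∃ g₀ : Matrix (Fin n) (Fin n) ℂ, g₀.det ≠ 0 ∧ ∀ g : Matrix (Fin n) (Fin n) ℂ,
      Complex.normSq g.det * (SS B g₀).det.re ≤ Complex.normSq g₀.det * (SS B g).det.re := by
  classical
  haveI : Nonempty (Fin n) := ⟨⟨0, hn⟩⟩
  let K : Set (Fin n → Fin n → ℂ) := Metric.sphere 0 1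
  have hK : IsCompact K := isCompact_sphere 0 1
  have hne : ∀ g : Fin n → Fin n → ℂ, g ∈ K → (g : Matrix (Fin n) (Fin n) ℂ) ≠ 0 := by
    intro g hg h0
    have h1 : ‖g‖ = 1 := by simpa [K] using hg
    have h2 : g = (0 : Fin n → Fin n → ℂ) := h0
    rw [h2, norm_zero] at h1
    exact zero_ne_one h1
  let ψ : (Fin n → Fin n → ℂ) → ℝ := fun g =>
    Complex.normSq (Matrix.det (g : Matrix (Fin n) (Fin n) ℂ)) / (SS B g).det.re
  have hcont : ContinuousOn ψ K := by
    refine ContinuousOn.div ?_ ?_ ?_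
    · refine Continuous.continuousOn ?_
      refine Complex.continuous_normSq.comp ?_
      exact Continuous.matrix_det continuous_id
    · exact (Complex.continuous_re.comp (SS_cont B)).continuousOn
    · intro g hg
      exact (re_of_pos (SS_posDef hB (hne g hg)).det_pos).1.ne'
  have hKne : K.Nonempty := by
    let g1 : Fin n → Fin n → ℂ := fun i j => if i = j then 1 else 0
    refine ⟨g1, ?_⟩
    have h1 : ‖g1‖ = 1 := by
      apply le_antisymm
      · rw [pi_norm_le_iff_of_nonneg zero_le_one]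
        intro i
        rw [pi_norm_le_iff_of_nonneg zero_le_one]
        intro j
        simp only [g1]
        split_ifs <;> simp
      · have h2 : ‖g1 ⟨0, hn⟩ ⟨0, hn⟩‖ ≤ ‖g1‖ :=
          (norm_le_pi_norm (g1 ⟨0, hn⟩) _).trans (norm_le_pi_norm g1 _)
        simpa [g1] using h2
    simpa [K] using h1
  obtain ⟨g₀, hg₀, hmax⟩ := hK.exists_isMaxOn hKne hcont
  have hp : ∀ g : Matrix (Fin n) (Fin n) ℂ, g ≠ 0 → 0 < (SS B g).det.re := fun g hg =>
    (re_of_pos (SS_posDef hB hg).det_pos).1
  have key : ∀ g : Matrix (Fin n) (Fin n) ℂ,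
      Complex.normSq g.det * (SS B g₀).det.re ≤
        Complex.normSq (Matrix.det (g₀ : Matrix (Fin n) (Fin n) ℂ)) * (SS B g).det.re := by
    intro g
    by_cases hg : g = 0
    · subst hg
      have h1 : SS B (0 : Matrix (Fin n) (Fin n) ℂ) = 0 := by simp [SS, acg]
      rw [h1, Matrix.det_zero, map_zero, zero_mul, Complex.zero_re, mul_zero]
    · let G : Fin n → Fin n → ℂ := g
      have hG : G ≠ 0 := hg
      have hc : 0 < ‖G‖ := norm_pos_iff.mpr hG
      let c : ℝ := ‖G‖⁻¹
      have hcp : 0 < c := inv_pos.mpr hc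
      let g1 : Matrix (Fin n) (Fin n) ℂ := (c : ℂ) • g
      have hg1 : (g1 : Fin n → Fin n → ℂ) ∈ K := by
        have h1 : ‖((c : ℂ) • G : Fin n → Fin n → ℂ)‖ = 1 := by
          rw [norm_smul, Complex.norm_real, Real.norm_of_nonneg hcp.le]
          exact inv_mul_cancel₀ hc.ne'
        exact mem_sphere_zero_iff_norm.mpr h1
      have h2 := hmax hg1
      have h2' : Complex.normSq g1.det / (SS B g1).det.re ≤
          Complex.normSq (Matrix.det (g₀ : Matrix (Fin n) (Fin n) ℂ)) / (SS B g₀).det.re := h2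
      rw [div_le_div_iff₀ (hp _ (hne _ hg1)) (hp _ (hne _ hg₀))] at h2'
      have e1 : Complex.normSq g1.det = (c ^ 2) ^ n * Complex.normSq g.det := by
        simp only [g1]
        rw [Matrix.det_smul, Fintype.card_fin, map_mul, map_pow, Complex.normSq_ofReal, ← pow_two]
      have e2 : (SS B g1).det.re = (c ^ 2) ^ n * (SS B g).det.re := by
        simp only [g1]
        rw [SS_smul, Matrix.det_smul, Fintype.card_fin, ← Complex.ofReal_pow, Complex.re_ofReal_mul]
      rw [e1, e2] at h2'
      have hcn : 0 < (c ^ 2) ^ n := by positivity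
      have h3 : (c ^ 2) ^ n * (Complex.normSq g.det * (SS B g₀).det.re) ≤ (c ^ 2) ^ n *
        (Complex.normSq (Matrix.det (g₀ : Matrix (Fin n) (Fin n) ℂ)) * (SS B g).det.re) := by
        linarith
      exact le_of_mul_le_mul_left h3 hcn
  refine ⟨g₀, ?_, key⟩
  intro h0
  have h1 := key 1
  rw [h0, map_zero, zero_mul, Matrix.det_one, map_one, one_mul] at h1
  exact absurd (hp _ (hne _ hg₀)) (not_lt.mpr h1)

lemma hasDerivAt_det (Z : Matrix (Fin n) (Fin n) ℂ) (c : ℝ) :
    HasDerivAt (fun s : ℝ => (Matrix.det (1 + ((2 * s + s ^ 2 * c : ℝ) : ℂ) • Z)).re)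
      (2 * Z.trace.re) 0 := by
  let P : Polynomial ℂ := Matrix.det (1 + (Polynomial.X : Polynomial ℂ) • Z.map Polynomial.C)
  have hP : ∀ r : ℂ, P.eval r = Matrix.det (1 + r • Z) := by
    intro r
    simp only [P]
    rw [← Polynomial.coe_evalRingHom, RingHom.map_det]
    congr 1
    ext i j
    simp only [RingHom.mapMatrix_apply, Matrix.map_apply, Matrix.add_apply, Matrix.smul_apply,
      smul_eq_mul, Polynomial.coe_evalRingHom, Polynomial.eval_add, Polynomial.eval_mul,
      Polynomial.eval_X, Polynomial.eval_C]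
    congr 1
    by_cases h : i = j
    · subst h; simp
    · simp [h]
  have h1 : HasDerivAt (fun r : ℂ => Matrix.det (1 + r • Z)) Z.trace 0 := by
    have h2 := P.hasDerivAt 0
    have h3 : (Polynomial.derivative P).eval 0 = Z.trace := Matrix.derivative_det_one_add_X_smul Z
    rw [h3] at h2
    exact h2.congr_of_eventuallyEq (Filter.Eventually.of_forall fun r => (hP r).symm)
  have h4 : HasDerivAt (fun r : ℝ => (Matrix.det (1 + (r : ℂ) • Z)).re) Z.trace.re 0 := by
    have : HasDerivAt (fun r : ℂ => Matrix.det (1 + r • Z)) Z.trace ((0 : ℝ) : ℂ) := by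
      simpa using h1
    exact this.real_of_complex
  have h5 : HasDerivAt (fun s : ℝ => 2 * s + s ^ 2 * c) 2 0 := by
    have a1 : HasDerivAt (fun s : ℝ => 2 * s) 2 0 := by
      simpa using (hasDerivAt_id (0 : ℝ)).const_mul 2
    have a2 : HasDerivAt (fun s : ℝ => s ^ 2 * c) 0 0 := by
      have := ((hasDerivAt_pow 2 (0 : ℝ))).mul_const c
      simpa using this
    simpa using a1.fun_add a2
  have h6 : HasDerivAt (fun r : ℝ => (Matrix.det (1 + (r : ℂ) • Z)).re) Z.trace.re
      ((fun s : ℝ => 2 * s + s ^ 2 * c) 0) := by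
    simpa using h4
  have h7 := h6.comp 0 h5
  rw [mul_comm] at h7
  exact h7

lemma polarize (b : Matrix (Fin n) (Fin n) ℂ)
    (h : ∀ v : Fin n → ℂ, ∑ k, ∑ l, (v k * star (v l)) * b k l = ∑ k, v k * star (v k)) :
    b = 1 := by
  have hd : ∀ v : Fin n → ℂ, ∑ k, ∑ l, (v k * star (v l)) * (b k l - (1 : Matrix _ _ ℂ) k l) = 0 := by
    intro v
    have h1 : ∑ k, ∑ l, (v k * star (v l)) * (b k l - (1 : Matrix (Fin n) (Fin n) ℂ) k l) =
        (∑ k, ∑ l, (v k * star (v l)) * b k l) -
        ∑ k, ∑ l, (v k * star (v l)) * (1 : Matrix (Fin n) (Fin n) ℂ) k l := by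
      simp only [mul_sub, Finset.sum_sub_distrib]
    rw [h1, h v, sub_eq_zero]
    refine Finset.sum_congr rfl fun k _ => ?_
    rw [Finset.sum_eq_single k]
    · simp
    · intro l _ hl
      rw [Matrix.one_apply_ne (Ne.symm hl), mul_zero]
    · simp
  set d : Matrix (Fin n) (Fin n) ℂ := fun k l => b k l - (1 : Matrix (Fin n) (Fin n) ℂ) k l with hdd
  have hsum : ∀ (v : Fin n → ℂ) (k l : Fin n) (c : ℂ), k ≠ l → v = Pi.single k 1 + Pi.single l c →
      d k k + star c * d k l + c * d l k + c * star c * d l l = 0 := by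
    intro v k l c hkl hv
    have h1 := hd v
    have h2 : ∑ i, ∑ j, (v i * star (v j)) * d i j = ∑ i, v i * ∑ j, star (v j) * d i j := by
      refine Finset.sum_congr rfl fun i _ => ?_
      rw [Finset.mul_sum]
      exact Finset.sum_congr rfl fun j _ => by ring
    have h3 : ∀ i, ∑ j, star (v j) * d i j = d i k + star c * d i l := by
      intro i
      rw [hv]
      simp only [Pi.add_apply, star_add, add_mul, Finset.sum_add_distrib]
      congr 1
      · rw [Finset.sum_eq_single k]
        · simp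
        · intro j _ hj; simp [hj]
        · simp
      · rw [Finset.sum_eq_single l]
        · simp
        · intro j _ hj; simp [hj]
        · simp
    have h4 : ∑ i, v i * (d i k + star c * d i l) =
        (d k k + star c * d k l) + c * (d l k + star c * d l l) := by
      rw [hv]
      simp only [Pi.add_apply, add_mul, Finset.sum_add_distrib]
      congr 1
      · rw [Finset.sum_eq_single k]
        · simp
        · intro j _ hj; simp [hj]
        · simp
      · rw [Finset.sum_eq_single l]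
        · simp
        · intro j _ hj; simp [hj]
        · simp
    have h5 : ∑ i, ∑ j, (v i * star (v j)) * d i j = 0 := h1
    rw [h2, Finset.sum_congr rfl fun i _ => by rw [h3 i], h4] at h5
    linear_combination h5
  have hdiag : ∀ k, d k k = 0 := by
    intro k
    have h1 := hd (Pi.single k 1)
    rw [Finset.sum_eq_single k, Finset.sum_eq_single k] at h1
    · have h2 : (Pi.single k 1 : Fin n → ℂ) k * star ((Pi.single k 1 : Fin n → ℂ) k) * d k k = 0 :=
        h1
      rw [Pi.single_eq_same, star_one, one_mul, one_mul] at h2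
      exact h2
    · intro j _ hj; simp [hj]
    · simp
    · intro i _ hi
      refine Finset.sum_eq_zero fun j _ => ?_
      simp [hi]
    · simp
  have hoff : ∀ k l, k ≠ l → d k l = 0 := by
    intro k l hkl
    have h1 := hsum _ k l 1 hkl rfl
    have h2 := hsum _ k l Complex.I hkl rfl
    rw [hdiag, hdiag] at h1 h2
    rw [star_one] at h1
    rw [Complex.star_def, Complex.conj_I] at h2
    linear_combination (1 / 2) * h1 + (1 / 2) * Complex.I * h2 + (1 / 2) * (d k l - d l k) *
      Complex.I_mul_I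
  ext k l
  have h0 : d k l = 0 := by
    by_cases hkl : k = l
    · subst hkl; exact hdiag k
    · exact hoff k l hkl
  exact sub_eq_zero.mp h0

lemma SS_conj (h : Matrix (Fin n) (Fin n) ℂ) (B : Fin n → Fin n → Matrix (Fin n) (Fin n) ℂ)
    (g : Matrix (Fin n) (Fin n) ℂ) :
    SS (fun i j => h * B i j * hᴴ) g = h * SS B g * hᴴ := by
  simp only [SS, acg, Matrix.mul_sum, Matrix.sum_mul, Matrix.mul_smul, Matrix.smul_mul]

lemma SS_eq (B : Fin n → Fin n → Matrix (Fin n) (Fin n) ℂ) (g : Matrix (Fin n) (Fin n) ℂ) :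
    SS B g = ∑ k, ∑ l, (∑ i, g i k * star (g i l)) • B k l := by
  unfold SS acg
  rw [Finset.sum_comm]
  refine Finset.sum_congr rfl fun k _ => ?_
  rw [Finset.sum_comm]
  refine Finset.sum_congr rfl fun l _ => ?_
  rw [Finset.sum_smul]

lemma SS_shift (B : Fin n → Fin n → Matrix (Fin n) (Fin n) ℂ) (hS : SS B 1 = 1)
    (v : Fin n → ℂ) (s : ℝ) :
    SS B (1 + (s : ℂ) • Matrix.vecMulVec (star v) v) =
      1 + ((2 * s + s ^ 2 * (∑ i, Complex.normSq (v i)) : ℝ) : ℂ) •
        ∑ k, ∑ l, (v k * star (v l)) • B k l := by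
  have h1 : ∀ k l, ∑ i, (1 + (s : ℂ) • Matrix.vecMulVec (star v) v : Matrix (Fin n) (Fin n) ℂ) i k *
      star ((1 + (s : ℂ) • Matrix.vecMulVec (star v) v : Matrix (Fin n) (Fin n) ℂ) i l) =
      (∑ i, (1 : Matrix (Fin n) (Fin n) ℂ) i k * star ((1 : Matrix (Fin n) (Fin n) ℂ) i l)) +
      ((2 * s + s ^ 2 * (∑ i, Complex.normSq (v i)) : ℝ) : ℂ) * (v k * star (v l)) := by
    intro k l
    have e1 : ∀ i, (1 + (s : ℂ) • Matrix.vecMulVec (star v) v : Matrix (Fin n) (Fin n) ℂ) i k *
        star ((1 + (s : ℂ) • Matrix.vecMulVec (star v) v : Matrix (Fin n) (Fin n) ℂ) i l) =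
        (1 : Matrix (Fin n) (Fin n) ℂ) i k * star ((1 : Matrix (Fin n) (Fin n) ℂ) i l) +
        (1 : Matrix (Fin n) (Fin n) ℂ) i k * (s * (v i * star (v l))) +
        star ((1 : Matrix (Fin n) (Fin n) ℂ) i l) * (s * (star (v i) * v k)) +
        (s : ℂ) ^ 2 * (v k * star (v l)) * (Complex.normSq (v i) : ℂ) := by
      intro i
      have e2 : (Complex.normSq (v i) : ℂ) = v i * star (v i) := by
        rw [Complex.star_def, Complex.mul_conj]
      rw [e2]
      simp only [Matrix.add_apply, Matrix.smul_apply, Matrix.vecMulVec_apply, Pi.star_apply,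
        smul_eq_mul, star_add, star_mul', star_star]
      have e3 : star (s : ℂ) = (s : ℂ) := by simp
      rw [e3]
      ring
    rw [Finset.sum_congr rfl fun i _ => e1 i]
    simp only [Finset.sum_add_distrib]
    have e4 : ∑ i, (1 : Matrix (Fin n) (Fin n) ℂ) i k * (s * (v i * star (v l))) =
        s * (v k * star (v l)) := by
      rw [Finset.sum_eq_single k]
      · simp
      · intro i _ hi
        rw [Matrix.one_apply_ne hi, zero_mul]
      · simp
    have e5 : ∑ i, star ((1 : Matrix (Fin n) (Fin n) ℂ) i l) * (s * (star (v i) * v k)) =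
        s * (star (v l) * v k) := by
      rw [Finset.sum_eq_single l]
      · simp
      · intro i _ hi
        rw [Matrix.one_apply_ne hi, star_zero, zero_mul]
      · simp
    rw [e4, e5, ← Finset.mul_sum]
    push_cast
    ring
  rw [SS_eq]
  simp only [h1, add_smul, Finset.sum_add_distrib]
  rw [← SS_eq, hS]
  congr 1
  simp only [Finset.smul_sum, smul_smul]

lemma det_shift (v : Fin n → ℂ) (s : ℝ) :
    (1 + (s : ℂ) • Matrix.vecMulVec (star v) v).det =
      ((1 + s * (∑ i, Complex.normSq (v i)) : ℝ) : ℂ) := by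
  have h1 : (1 + (s : ℂ) • Matrix.vecMulVec (star v) v) =
      1 + Matrix.replicateCol (Fin 1) ((s : ℂ) • star v) * Matrix.replicateRow (Fin 1) v := by
    congr 1
    ext i j
    simp [Matrix.vecMulVec_apply, Matrix.mul_apply]
    ring
  rw [h1]
  refine (Matrix.det_one_add_replicateCol_mul_replicateRow (ι := Fin 1) ((s : ℂ) • star v) v).trans
    ?_
  push_cast
  congr 1
  simp only [dotProduct, Pi.smul_apply, Pi.star_apply, smul_eq_mul, Finset.mul_sum]
  refine Finset.sum_congr rfl fun i _ => ?_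
  have e2 : (Complex.normSq (v i) : ℂ) = v i * star (v i) := by
    rw [Complex.star_def, Complex.mul_conj]
  rw [e2]
  ring

lemma trace_of_min (B : Fin n → Fin n → Matrix (Fin n) (Fin n) ℂ) (hB : PosF B)
    (hS : SS B 1 = 1)
    (hmin : ∀ g : Matrix (Fin n) (Fin n) ℂ, Complex.normSq g.det ≤ (SS B g).det.re) (i j : Fin n) :
    (B i j).trace = if i = j then 1 else 0 := by
  have key : ∀ v : Fin n → ℂ, (∑ k, ∑ l, (v k * star (v l)) • B k l).trace =
      ∑ k, v k * star (v k) := by
    intro v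
    set Z := ∑ k, ∑ l, (v k * star (v l)) • B k l with hZ
    set c : ℝ := ∑ i, Complex.normSq (v i) with hc
    have hZh : Z.IsHermitian := by
      by_cases hv : v = 0
      · have : Z = 0 := by
          rw [hZ, hv]; simp
        rw [this]
        exact Matrix.isHermitian_zero
      · exact (hB v hv).isHermitian
    have him : Z.trace = (Z.trace.re : ℂ) := by
      have h1 : star Z.trace = Z.trace := by
        rw [← Matrix.trace_conjTranspose, hZh.eq]
      exact (Complex.conj_eq_iff_re.mp h1).symm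
    let f : ℝ → ℝ := fun s => (Matrix.det (1 + ((2 * s + s ^ 2 * c : ℝ) : ℂ) • Z)).re -
      (1 + s * c) ^ 2
    have hf : ∀ s, 0 ≤ f s := by
      intro s
      have h1 := hmin (1 + (s : ℂ) • Matrix.vecMulVec (star v) v)
      rw [SS_shift B hS, det_shift, Complex.normSq_ofReal] at h1
      simp only [f]
      have h2 : (1 + s * c) ^ 2 = (1 + s * c) * (1 + s * c) := by ring
      rw [h2]
      linarith
    have hf0 : f 0 = 0 := by simp [f]
    have hd : HasDerivAt f (2 * Z.trace.re - 2 * c) 0 := by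
      have h1 := hasDerivAt_det Z c
      have h2 : HasDerivAt (fun s : ℝ => (1 + s * c) ^ 2) (2 * c) 0 := by
        have h3 : HasDerivAt (fun s : ℝ => 1 + s * c) c 0 := by
          simpa using ((hasDerivAt_id (0 : ℝ)).mul_const c).const_add 1
        have h4 := h3.fun_pow 2
        simpa using h4
      exact h1.fun_sub h2
    have hloc : IsLocalMin f 0 := by
      refine Filter.Eventually.of_forall fun s => ?_
      rw [hf0]
      exact hf s
    have h0 := hloc.hasDerivAt_eq_zero hd
    have h1 : Z.trace.re = c := by linarith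
    rw [him, h1, hc]
    push_cast
    refine Finset.sum_congr rfl fun i _ => ?_
    rw [Complex.star_def, Complex.mul_conj]
  have hp := polarize (Matrix.of fun k l => (B k l).trace) (by
    intro v
    rw [← key v]
    simp only [Matrix.trace_sum, Matrix.trace_smul, smul_eq_mul, Matrix.of_apply])
  have h1 := congrFun (congrFun hp i) j
  rw [Matrix.of_apply, Matrix.one_apply] at h1
  exact h1

/-- **Operator scaling.** -/
theorem exists_scaling (hn : 0 < n) {B : Fin n → Fin n → Matrix (Fin n) (Fin n) ℂ} (hB : PosF B) :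
    ∃ g h : Matrix (Fin n) (Fin n) ℂ, g.det ≠ 0 ∧ h.det ≠ 0 ∧
      (∑ i, h * acg g B i i * hᴴ) = (n : ℂ) • (1 : Matrix (Fin n) (Fin n) ℂ) ∧
      ∀ i j, (h * acg g B i j * hᴴ).trace = if i = j then (n : ℂ) else 0 := by
  obtain ⟨g₀, hg₀, hmax⟩ := exists_maxi hn hB
  haveI : Nonempty (Fin n) := ⟨⟨0, hn⟩⟩
  have h10 : (1 : Matrix (Fin n) (Fin n) ℂ) ≠ 0 := one_ne_zero
  have hB1 : PosF (acg g₀ B) := acg_posF hg₀ hB
  have hSS : ∀ g, SS (acg g₀ B) g = SS B (g * g₀) := by
    intro g
    unfold SS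
    rw [acg_acg]
  have hS := SS_posDef hB1 h10
  obtain ⟨C, hC⟩ := exists_sqrt_of_posSemidef hS.posSemidef
  have hSd : (SS (acg g₀ B) 1).det ≠ 0 := hS.det_pos.ne'
  have hCd : C.det ≠ 0 := by
    intro h0
    apply hSd
    rw [hC, Matrix.det_mul, h0, zero_mul]
  have hCu : IsUnit C.det := isUnit_iff_ne_zero.mpr hCd
  have hCCh : C⁻¹ * SS (acg g₀ B) 1 * (C⁻¹)ᴴ = 1 := by
    rw [hC, ← Matrix.mul_assoc, Matrix.nonsing_inv_mul _ hCu, Matrix.one_mul,
      ← Matrix.conjTranspose_mul, Matrix.nonsing_inv_mul _ hCu, Matrix.conjTranspose_one]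
  have hhd : (C⁻¹).det ≠ 0 := by
    rw [Matrix.det_nonsing_inv]
    simpa using hCd
  set B2 : Fin n → Fin n → Matrix (Fin n) (Fin n) ℂ := fun i j => C⁻¹ * acg g₀ B i j * (C⁻¹)ᴴ
    with hB2
  have hB2p : PosF B2 := conj_posF hhd hB1
  have hdet : ∀ X : Matrix (Fin n) (Fin n) ℂ, (C⁻¹ * X * (C⁻¹)ᴴ).det.re =
      Complex.normSq (C⁻¹).det * X.det.re := by
    intro X
    rw [Matrix.det_mul, Matrix.det_mul, Matrix.det_conjTranspose]
    have : (C⁻¹).det * X.det * star (C⁻¹).det = (Complex.normSq (C⁻¹).det : ℂ) * X.det := by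
      rw [← Complex.mul_conj, Complex.star_def]
      ring
    rw [this, Complex.re_ofReal_mul]
  have hS2 : SS B2 1 = 1 := by
    rw [hB2, SS_conj, hCCh]
  have hone : Complex.normSq (C⁻¹).det * (SS (acg g₀ B) 1).det.re = 1 := by
    rw [← hdet, hCCh, Matrix.det_one, Complex.one_re]
  have hmin : ∀ g : Matrix (Fin n) (Fin n) ℂ, Complex.normSq g.det ≤ (SS B2 g).det.re := by
    intro g
    rw [hB2, SS_conj, hdet]
    have h1 := hmax (g * g₀)
    rw [← hSS g, Matrix.det_mul, map_mul] at h1
    have h2 : SS B g₀ = SS (acg g₀ B) 1 := by rw [hSS, Matrix.one_mul]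
    rw [h2] at h1
    have hp : 0 < Complex.normSq g₀.det := Complex.normSq_pos.mpr hg₀
    have h3 : Complex.normSq g.det * (SS (acg g₀ B) 1).det.re ≤ (SS (acg g₀ B) g).det.re := by
      have h4 : Complex.normSq g₀.det * (Complex.normSq g.det * (SS (acg g₀ B) 1).det.re) ≤
          Complex.normSq g₀.det * (SS (acg g₀ B) g).det.re := by linarith
      exact le_of_mul_le_mul_left h4 hp
    have h5 := mul_le_mul_of_nonneg_left h3 (Complex.normSq_nonneg (C⁻¹).det)
    have h6 : Complex.normSq (C⁻¹).det * (Complex.normSq g.det * (SS (acg g₀ B) 1).det.re) =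
        Complex.normSq g.det * (Complex.normSq (C⁻¹).det * (SS (acg g₀ B) 1).det.re) := by ring
    rw [h6, hone, mul_one] at h5
    exact h5
  have htr := trace_of_min B2 hB2p hS2 hmin
  have hn0 : (0 : ℝ) ≤ (n : ℝ) := Nat.cast_nonneg _
  have hsq : ((Real.sqrt n : ℝ) : ℂ) * ((Real.sqrt n : ℝ) : ℂ) = (n : ℂ) := by
    rw [← Complex.ofReal_mul, Real.mul_self_sqrt hn0]
    simp
  have hmul : ∀ X : Matrix (Fin n) (Fin n) ℂ,
      (((Real.sqrt n : ℝ) : ℂ) • C⁻¹) * X * (((Real.sqrt n : ℝ) : ℂ) • C⁻¹)ᴴ =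
      (n : ℂ) • (C⁻¹ * X * (C⁻¹)ᴴ) := by
    intro X
    rw [Matrix.conjTranspose_smul, Matrix.smul_mul, Matrix.smul_mul, Matrix.mul_smul, smul_smul]
    congr 1
    rw [Complex.star_def, Complex.conj_ofReal, hsq]
  refine ⟨g₀, ((Real.sqrt n : ℝ) : ℂ) • C⁻¹, hg₀, ?_, ?_, ?_⟩
  · rw [Matrix.det_smul]
    refine mul_ne_zero (pow_ne_zero _ ?_) hhd
    have : (0 : ℝ) < Real.sqrt n := Real.sqrt_pos.mpr (by exact_mod_cast hn)
    exact_mod_cast this.ne'
  · simp only [hmul]
    rw [← Finset.smul_sum]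
    congr 1
    have h1 : (∑ i, C⁻¹ * acg g₀ B i i * (C⁻¹)ᴴ) = ∑ i, acg 1 B2 i i := by
      refine Finset.sum_congr rfl fun i _ => ?_
      have : acg 1 B2 i i = B2 i i := by
        unfold acg
        rw [Finset.sum_eq_single i, Finset.sum_eq_single i]
        · simp
        · intro l _ hl
          rw [Matrix.one_apply_ne (Ne.symm hl)]
          simp
        · simp
        · intro k _ hk
          refine Finset.sum_eq_zero fun l _ => ?_
          rw [Matrix.one_apply_ne (Ne.symm hk)]
          simp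
        · simp
      rw [this]
    rw [h1]
    exact hS2
  · intro i j
    rw [hmul, Matrix.trace_smul]
    have h1 := htr i j
    simp only [hB2] at h1
    rw [h1]
    split_ifs <;> simp

end Pool.Agent.H94.MD
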