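import Mathlib
import Pool.Agent.H94.MD.Basic

set_option autoImplicit false
open scoped ComplexOrder
open Matrix Equiv Finset

namespace Pool.Agent.H94.MD

/-- removing a diagonal matrix from the first slot -/
lemma md_cons_diagonal {n : ℕ} (d : Fin (n + 1) → ℂ)
    (A : Fin n → Matrix (Fin (n + 1)) (Fin (n + 1)) ℂ) :
    md (Fin.cons (diagonal d) A : Fin (n + 1) → Matrix (Fin (n + 1)) (Fin (n + 1)) ℂ) =
      ∑ l, d l * md (fun k => (A k).submatrix l.succAbove l.succAbove) := by
  rw [md_eq_col]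
  have h1 : ∀ ρ : Perm (Fin (n + 1)), (Matrix.of fun i k =>
      (Fin.cons (diagonal d) A : Fin (n + 1) → Matrix (Fin (n + 1)) (Fin (n + 1)) ℂ) k i (ρ k)).det =
      ∑ i : Fin (n + 1), (-1) ^ (i : ℕ) * diagonal d i (ρ 0) *
        ∑ α : Perm (Fin n), ((Perm.sign α : ℤ) : ℂ) *
          ∏ k, A k (i.succAbove (α k)) (ρ k.succ) := by
    intro ρ
    rw [Matrix.det_succ_column_zero]
    refine Finset.sum_congr rfl fun i _ => ?_
    rw [Matrix.det_apply']
    simp only [Matrix.of_apply, Fin.cons_zero, Matrix.submatrix_apply, Fin.cons_succ]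
  simp only [h1, Finset.mul_sum]
  rw [Finset.sum_comm]
  refine Finset.sum_congr rfl fun i _ => ?_
  rw [Finset.sum_comm, md_eq_row, Finset.mul_sum]
  refine Finset.sum_congr rfl fun α _ => ?_
  have h2 : (∑ ρ : Perm (Fin (n + 1)), ((Perm.sign ρ : ℤ) : ℂ) *
      ((-1) ^ (i : ℕ) * diagonal d i (ρ 0) * (((Perm.sign α : ℤ) : ℂ) *
          ∏ k, A k (i.succAbove (α k)) (ρ k.succ)))) =
      (-1) ^ (i : ℕ) * ((Perm.sign α : ℤ) : ℂ) *
        (Matrix.of fun r j => (Fin.cons (diagonal d i j)
          (fun k => A k (i.succAbove (α k)) j) : Fin (n + 1) → ℂ) r).det := by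
    rw [← Matrix.det_transpose, Matrix.det_apply', Finset.mul_sum]
    refine Finset.sum_congr rfl fun ρ _ => ?_
    simp only [Matrix.transpose_apply, Matrix.of_apply, Fin.prod_univ_succ, Fin.cons_zero,
      Fin.cons_succ]
    ring
  rw [h2, Matrix.det_succ_row_zero, Finset.sum_eq_single i]
  · simp only [Matrix.of_apply, Fin.cons_zero, diagonal_apply_eq]
    have h3 : ((Matrix.of fun r j => (Fin.cons (diagonal d i j)
          (fun k => A k (i.succAbove (α k)) j) : Fin (n + 1) → ℂ) r).submatrix Fin.succ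
          i.succAbove) = (Matrix.of fun k j =>
            (A k).submatrix i.succAbove i.succAbove (α k) j) := by
      ext k j
      simp
    rw [h3]
    have h4 : ((-1 : ℂ) ^ (i : ℕ)) * (-1) ^ (i : ℕ) = 1 := by
      rw [← mul_pow]; simp
    linear_combination (((Perm.sign α : ℤ) : ℂ) * d i * (Matrix.of fun k j =>
            (A k).submatrix i.succAbove i.succAbove (α k) j).det) * h4
  · intro j _ hj
    simp [diagonal_apply_ne d hj.symm]
  · simp

lemma md_fin_one (A : Fin 1 → Matrix (Fin 1) (Fin 1) ℂ) : md A = A 0 0 0 := by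
  rw [md_eq_col]
  simp

lemma md_diag3 (P : Matrix (Fin 4) (Fin 4) ℂ) (x y z : Fin 4 → ℂ) :
    md ![diagonal x, diagonal y, diagonal z, P] =
      ∑ l : Fin 4, ∑ l' : Fin 3, ∑ l'' : Fin 2,
        x l * y (l.succAbove l') * z (l.succAbove (l'.succAbove l'')) *
          P (l.succAbove (l'.succAbove (l''.succAbove 0)))
            (l.succAbove (l'.succAbove (l''.succAbove 0))) := by
  have h0 : (![diagonal x, diagonal y, diagonal z, P] : Fin 4 → Matrix (Fin 4) (Fin 4) ℂ) =
    Fin.cons (diagonal x) ![diagonal y, diagonal z, P] := rfl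
  rw [h0, md_cons_diagonal]
  refine Finset.sum_congr rfl fun l _ => ?_
  have h1 : (fun k => ((![diagonal y, diagonal z, P] : Fin 3 → Matrix (Fin 4) (Fin 4) ℂ)
      k).submatrix l.succAbove l.succAbove) = Fin.cons (diagonal (fun i => y (l.succAbove i)))
      ![diagonal (fun i => z (l.succAbove i)), P.submatrix l.succAbove l.succAbove] := by
    funext k
    fin_cases k
    · exact Matrix.submatrix_diagonal _ _ Fin.succAbove_right_injective
    · exact Matrix.submatrix_diagonal _ _ Fin.succAbove_right_injective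
    · rfl
  rw [h1, md_cons_diagonal, Finset.mul_sum]
  refine Finset.sum_congr rfl fun l' _ => ?_
  have h2 : (fun k => ((![diagonal (fun i => z (l.succAbove i)),
      P.submatrix l.succAbove l.succAbove] : Fin 2 → Matrix (Fin 3) (Fin 3) ℂ)
      k).submatrix l'.succAbove l'.succAbove) =
      Fin.cons (diagonal (fun i => z (l.succAbove (l'.succAbove i))))
      ![(P.submatrix l.succAbove l.succAbove).submatrix l'.succAbove l'.succAbove] := by
    funext k
    fin_cases k
    · exact Matrix.submatrix_diagonal _ _ Fin.succAbove_right_injective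
    · rfl
  rw [h2, md_cons_diagonal, Finset.mul_sum, Finset.mul_sum]
  refine Finset.sum_congr rfl fun l'' _ => ?_
  rw [md_fin_one]
  simp only [Matrix.submatrix_apply, Matrix.cons_val_zero]
  ring

lemma md_diag3_expand (P : Matrix (Fin 4) (Fin 4) ℂ) (x : Fin 4 → ℂ) :
    md ![diagonal x, diagonal x, diagonal 1, P] =
      2 * (P 0 0 * (x 1 * x 2 + x 1 * x 3 + x 2 * x 3) + P 1 1 * (x 0 * x 2 + x 0 * x 3 + x 2 * x 3)
        + P 2 2 * (x 0 * x 1 + x 0 * x 3 + x 1 * x 3)
        + P 3 3 * (x 0 * x 1 + x 0 * x 2 + x 1 * x 2)) := by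
  rw [md_diag3]
  simp only [Fin.sum_univ_succ, Fin.sum_univ_zero, Pi.one_apply]
  simp [Fin.succAbove]
  ring

end Pool.Agent.H94.MD
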