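import Mathlib
import Pool.Agent.H94.MD.Diag

set_option autoImplicit false
open scoped ComplexOrder
open Matrix Equiv Finset

namespace Pool.Agent.H94.MD

/-! ### The scalar Newton inequality -/

lemma gap_aux (a b c d : ℝ) :
    a - b ≤ Real.sqrt (((b - c) ^ 2 + (b - d) ^ 2 + (c - d) ^ 2) / 2) +
      Real.sqrt (((a - c) ^ 2 + (a - d) ^ 2 + (c - d) ^ 2) / 2) := by
  have h1 : (c + d) / 2 - b ≤ Real.sqrt (((b - c) ^ 2 + (b - d) ^ 2 + (c - d) ^ 2) / 2) := by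
    apply Real.le_sqrt_of_sq_le
    nlinarith [sq_nonneg (c - d)]
  have h2 : a - (c + d) / 2 ≤ Real.sqrt (((a - c) ^ 2 + (a - d) ^ 2 + (c - d) ^ 2) / 2) := by
    apply Real.le_sqrt_of_sq_le
    nlinarith [sq_nonneg (c - d)]
  linarith

/-- the quarter spread of the three coordinates different from `i` -/
noncomputable def Qs (x : Fin 4 → ℝ) : Fin 4 → ℝ :=
  ![((x 1 - x 2) ^ 2 + (x 1 - x 3) ^ 2 + (x 2 - x 3) ^ 2) / 2,
    ((x 0 - x 2) ^ 2 + (x 0 - x 3) ^ 2 + (x 2 - x 3) ^ 2) / 2,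
    ((x 0 - x 1) ^ 2 + (x 0 - x 3) ^ 2 + (x 1 - x 3) ^ 2) / 2,
    ((x 0 - x 1) ^ 2 + (x 0 - x 2) ^ 2 + (x 1 - x 2) ^ 2) / 2]

lemma gap_le (x : Fin 4 → ℝ) (i j : Fin 4) :
    x i - x j ≤ Real.sqrt (Qs x i) + Real.sqrt (Qs x j) := by
  have hs : ∀ y : ℝ, 0 ≤ Real.sqrt y := Real.sqrt_nonneg
  fin_cases i <;> fin_cases j <;>
    simp only [Qs, Fin.zero_eta, Fin.mk_one, Fin.reduceFinMk, Matrix.cons_val_zero,
      Matrix.cons_val_one, Matrix.cons_val, sub_self]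
  all_goals try (exact add_nonneg (hs _) (hs _))
  · convert gap_aux (x 0) (x 1) (x 2) (x 3) using 4
  · convert gap_aux (x 0) (x 2) (x 1) (x 3) using 4 <;> ring
  · convert gap_aux (x 0) (x 3) (x 1) (x 2) using 4 <;> ring
  · convert gap_aux (x 1) (x 0) (x 2) (x 3) using 4
  · convert gap_aux (x 1) (x 2) (x 0) (x 3) using 4 <;> ring
  · convert gap_aux (x 1) (x 3) (x 0) (x 2) using 4 <;> ring
  · convert gap_aux (x 2) (x 0) (x 1) (x 3) using 4 <;> ring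
  · convert gap_aux (x 2) (x 1) (x 0) (x 3) using 4 <;> ring
  · convert gap_aux (x 2) (x 3) (x 0) (x 1) using 4 <;> ring
  · convert gap_aux (x 3) (x 0) (x 1) (x 2) using 4 <;> ring
  · convert gap_aux (x 3) (x 1) (x 0) (x 2) using 4 <;> ring
  · convert gap_aux (x 3) (x 2) (x 0) (x 1) using 4 <;> ring

lemma Qs_nonneg (x : Fin 4 → ℝ) (i : Fin 4) : 0 ≤ Qs x i := by
  fin_cases i <;> simp [Qs] <;> positivity

lemma exists_center (x : Fin 4 → ℝ) : ∃ c : ℝ, ∀ i, (x i - c) ^ 2 ≤ Qs x i := by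
  obtain ⟨i0, hi0⟩ := Finite.exists_max (fun i : Fin 4 => x i - Real.sqrt (Qs x i))
  refine ⟨x i0 - Real.sqrt (Qs x i0), fun i => ?_⟩
  have h1 := hi0 i
  have h2 := gap_le x i0 i
  have h3 : |x i - (x i0 - Real.sqrt (Qs x i0))| ≤ Real.sqrt (Qs x i) := by
    rw [abs_le]
    constructor <;> linarith
  have h4 := sq_le_sq' (abs_le.mp h3).1 (abs_le.mp h3).2
  rwa [Real.sq_sqrt (Qs_nonneg x i)] at h4

lemma newton_scalar (p x : Fin 4 → ℝ) (hp : ∀ i, 0 ≤ p i) :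
    12 * (p 0 + p 1 + p 2 + p 3) *
      (p 0 * (x 1 * x 2 + x 1 * x 3 + x 2 * x 3) + p 1 * (x 0 * x 2 + x 0 * x 3 + x 2 * x 3)
        + p 2 * (x 0 * x 1 + x 0 * x 3 + x 1 * x 3)
        + p 3 * (x 0 * x 1 + x 0 * x 2 + x 1 * x 2)) ≤
      (2 * (p 0 * (x 1 + x 2 + x 3) + p 1 * (x 0 + x 2 + x 3) + p 2 * (x 0 + x 1 + x 3) +
        p 3 * (x 0 + x 1 + x 2))) ^ 2 := by
  obtain ⟨c, hc⟩ := exists_center x
  have h0 := mul_nonneg (hp 0) (sub_nonneg.mpr (hc 0))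
  have h1 := mul_nonneg (hp 1) (sub_nonneg.mpr (hc 1))
  have h2 := mul_nonneg (hp 2) (sub_nonneg.mpr (hc 2))
  have h3 := mul_nonneg (hp 3) (sub_nonneg.mpr (hc 3))
  have hS : 0 ≤ p 0 + p 1 + p 2 + p 3 := by
    have := hp 0; have := hp 1; have := hp 2; have := hp 3; positivity
  have h4 := mul_nonneg hS (add_nonneg (add_nonneg (add_nonneg h0 h1) h2) h3)
  have h5 := sq_nonneg (p 0 * (x 0 - c) + p 1 * (x 1 - c) + p 2 * (x 2 - c) + p 3 * (x 3 - c))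
  simp only [Qs, Matrix.cons_val_zero, Matrix.cons_val_one, Matrix.cons_val] at h4
  nlinarith [h4, h5]

/-! ### The real mixed discriminant of four `4 x 4` matrices -/

/-- `4!` times the real part of the mixed discriminant of four `4 x 4` matrices. -/
noncomputable def D (X Y Z W : Matrix (Fin 4) (Fin 4) ℂ) : ℝ := (md ![X, Y, Z, W]).re

lemma D_swap12 (X Y Z W : Matrix (Fin 4) (Fin 4) ℂ) : D X Y Z W = D Y X Z W := by
  unfold D
  rw [← md_perm (Equiv.swap 0 1) ![X, Y, Z, W]]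
  congr 2
  funext k; fin_cases k <;> rfl

lemma D_swap23 (X Y Z W : Matrix (Fin 4) (Fin 4) ℂ) : D X Y Z W = D X Z Y W := by
  unfold D
  rw [← md_perm (Equiv.swap 1 2) ![X, Y, Z, W]]
  congr 2
  funext k; fin_cases k <;> rfl

lemma D_swap34 (X Y Z W : Matrix (Fin 4) (Fin 4) ℂ) : D X Y Z W = D X Y W Z := by
  unfold D
  rw [← md_perm (Equiv.swap 2 3) ![X, Y, Z, W]]
  congr 2
  funext k; fin_cases k <;> rfl

lemma D_swap_pairs (X Y Z W : Matrix (Fin 4) (Fin 4) ℂ) : D X Y Z W = D Z W X Y := by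
  rw [D_swap23, D_swap12, D_swap34, D_swap23]

lemma D_add1 (X X' Y Z W : Matrix (Fin 4) (Fin 4) ℂ) :
    D (X + X') Y Z W = D X Y Z W + D X' Y Z W := by
  unfold D
  rw [← Complex.add_re]
  congr 1
  have := (mdM 4).map_update_add ![X, Y, Z, W] 0 X X'
  simp only [mdM_apply] at this
  convert this using 2
  · funext k; fin_cases k <;> rfl
  · congr 1; funext k; fin_cases k <;> rfl
  · congr 1; funext k; fin_cases k <;> rfl

lemma D_smul1 (c : ℝ) (X Y Z W : Matrix (Fin 4) (Fin 4) ℂ) :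
    D ((c : ℂ) • X) Y Z W = c * D X Y Z W := by
  unfold D
  have := (mdM 4).map_update_smul ![X, Y, Z, W] 0 (c : ℂ) X
  simp only [mdM_apply] at this
  have h1 : (![(c : ℂ) • X, Y, Z, W] : Fin 4 → Matrix (Fin 4) (Fin 4) ℂ) =
      Function.update ![X, Y, Z, W] 0 ((c : ℂ) • X) := by
    funext k; fin_cases k <;> rfl
  have h2 : Function.update (![X, Y, Z, W] : Fin 4 → Matrix (Fin 4) (Fin 4) ℂ) 0 X =
      ![X, Y, Z, W] := by
    funext k; fin_cases k <;> rfl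
  rw [h1, this, h2, smul_eq_mul, Complex.re_ofReal_mul]

lemma D_add2 (X Y Y' Z W : Matrix (Fin 4) (Fin 4) ℂ) :
    D X (Y + Y') Z W = D X Y Z W + D X Y' Z W := by
  rw [D_swap12, D_add1, D_swap12 Y, D_swap12 Y']

lemma D_smul2 (c : ℝ) (X Y Z W : Matrix (Fin 4) (Fin 4) ℂ) :
    D X ((c : ℂ) • Y) Z W = c * D X Y Z W := by
  rw [D_swap12, D_smul1, D_swap12 Y]

lemma D_add3 (X Y Z Z' W : Matrix (Fin 4) (Fin 4) ℂ) :
    D X Y (Z + Z') W = D X Y Z W + D X Y Z' W := by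
  rw [D_swap_pairs, D_add1, D_swap_pairs Z, D_swap_pairs Z']

lemma D_smul3 (c : ℝ) (X Y Z W : Matrix (Fin 4) (Fin 4) ℂ) :
    D X Y ((c : ℂ) • Z) W = c * D X Y Z W := by
  rw [D_swap_pairs, D_smul1, D_swap_pairs Z]

lemma D_add4 (X Y Z W W' : Matrix (Fin 4) (Fin 4) ℂ) :
    D X Y Z (W + W') = D X Y Z W + D X Y Z W' := by
  rw [D_swap34, D_add3, D_swap34, D_swap34 X Y W' Z]

lemma D_smul4 (c : ℝ) (X Y Z W : Matrix (Fin 4) (Fin 4) ℂ) :
    D X Y Z ((c : ℂ) • W) = c * D X Y Z W := by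
  rw [D_swap34, D_smul3, D_swap34]

lemma D_pos {X Y Z W : Matrix (Fin 4) (Fin 4) ℂ} (hX : X.PosDef) (hY : Y.PosDef)
    (hZ : Z.PosDef) (hW : W.PosDef) : 0 < D X Y Z W := by
  have := md_pos ![X, Y, Z, W] (by intro k; fin_cases k <;> assumption)
  exact (Complex.pos_iff.mp this).1

lemma D_nonneg {X Y Z W : Matrix (Fin 4) (Fin 4) ℂ} (hX : X.PosSemidef) (hY : Y.PosSemidef)
    (hZ : Z.PosSemidef) (hW : W.PosSemidef) : 0 ≤ D X Y Z W := by
  have := md_nonneg ![X, Y, Z, W] (by intro k; fin_cases k <;> assumption)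
  exact (Complex.nonneg_iff.mp this).1

lemma D_conj (G X Y Z W : Matrix (Fin 4) (Fin 4) ℂ) :
    D (G * X * Gᴴ) (G * Y * Gᴴ) (G * Z * Gᴴ) (G * W * Gᴴ) = ‖G.det‖ ^ 2 * D X Y Z W := by
  unfold D
  have h := md_conj G ![X, Y, Z, W]
  have h1 : (fun k => G * (![X, Y, Z, W] : Fin 4 → Matrix (Fin 4) (Fin 4) ℂ) k * Gᴴ) =
      ![G * X * Gᴴ, G * Y * Gᴴ, G * Z * Gᴴ, G * W * Gᴴ] := by
    funext k; fin_cases k <;> rfl
  rw [h1] at h
  rw [h]
  have h2 : G.det * star G.det = ((‖G.det‖ ^ 2 : ℝ) : ℂ) := by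
    rw [Complex.star_def, Complex.mul_conj, Complex.normSq_eq_norm_sq]
  rw [h2, Complex.re_ofReal_mul]

lemma newton_diag {P : Matrix (Fin 4) (Fin 4) ℂ} (hP : P.PosSemidef) (x : Fin 4 → ℝ) :
    D (diagonal fun i => (x i : ℂ)) (diagonal fun i => (x i : ℂ)) 1 P * D 1 1 1 P ≤
      (D (diagonal fun i => (x i : ℂ)) 1 1 P) ^ 2 := by
  have hdiag : ∀ i, P i i = (((P i i).re : ℝ) : ℂ) := by
    intro i
    have := hP.1.apply i i
    rw [Complex.star_def] at this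
    exact (Complex.conj_eq_iff_real.mp this).choose_spec ▸ by simp
  have hp : ∀ i, 0 ≤ (P i i).re := fun i => (Complex.nonneg_iff.mp (hP.diag_nonneg (i := i))).1
  have h1 : (1 : Matrix (Fin 4) (Fin 4) ℂ) = diagonal 1 := diagonal_one.symm
  have e1 : D (diagonal fun i => (x i : ℂ)) (diagonal fun i => (x i : ℂ)) 1 P =
      2 * ((P 0 0).re * (x 1 * x 2 + x 1 * x 3 + x 2 * x 3) +
        (P 1 1).re * (x 0 * x 2 + x 0 * x 3 + x 2 * x 3)
        + (P 2 2).re * (x 0 * x 1 + x 0 * x 3 + x 1 * x 3)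
        + (P 3 3).re * (x 0 * x 1 + x 0 * x 2 + x 1 * x 2)) := by
    unfold D
    rw [h1, md_diag3_expand, hdiag 0, hdiag 1, hdiag 2, hdiag 3]
    norm_cast
  have e2 : D (diagonal fun i => (x i : ℂ)) 1 1 P =
      2 * ((P 0 0).re * (x 1 + x 2 + x 3) + (P 1 1).re * (x 0 + x 2 + x 3) +
        (P 2 2).re * (x 0 + x 1 + x 3) + (P 3 3).re * (x 0 + x 1 + x 2)) := by
    unfold D
    rw [h1, md_diag3]
    simp only [Fin.sum_univ_succ, Fin.sum_univ_zero, Pi.one_apply]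
    simp [Fin.succAbove]
    ring
  have e3 : D 1 1 1 P = 6 * ((P 0 0).re + (P 1 1).re + (P 2 2).re + (P 3 3).re) := by
    unfold D
    rw [h1, md_diag3]
    simp only [Fin.sum_univ_succ, Fin.sum_univ_zero, Pi.one_apply]
    simp [Fin.succAbove]
    ring
  rw [e1, e2, e3]
  have := newton_scalar (fun i => (P i i).re) x hp
  beta_reduce at this
  linarith

lemma newton_one {P X : Matrix (Fin 4) (Fin 4) ℂ} (hP : P.PosSemidef) (hX : X.IsHermitian) :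
    D X X 1 P * D 1 1 1 P ≤ (D X 1 1 P) ^ 2 := by
  have h := hX.spectral_theorem
  rw [Unitary.conjStarAlgAut_apply] at h
  set U : Matrix (Fin 4) (Fin 4) ℂ := (hX.eigenvectorUnitary : Matrix (Fin 4) (Fin 4) ℂ) with hU
  have hUU : U * Uᴴ = 1 := Unitary.coe_mul_star_self hX.eigenvectorUnitary
  have hUU' : Uᴴ * U = 1 := Unitary.coe_star_mul_self hX.eigenvectorUnitary
  set x : Fin 4 → ℝ := hX.eigenvalues with hx
  have h1 : X = U * (diagonal fun i => (x i : ℂ)) * Uᴴ := h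
  have hdet : ‖U.det‖ ^ 2 = 1 := by
    have h3 : U.det * star U.det = 1 := by
      rw [← Matrix.det_conjTranspose, ← Matrix.det_mul, hUU, Matrix.det_one]
    rw [Complex.star_def, Complex.mul_conj, Complex.normSq_eq_norm_sq] at h3
    exact_mod_cast h3
  have hone : (1 : Matrix (Fin 4) (Fin 4) ℂ) = U * 1 * Uᴴ := by rw [Matrix.mul_one, hUU]
  have hP1 : P = U * (Uᴴ * P * U) * Uᴴ := by
    calc P = 1 * P * 1 := by simp
      _ = (U * Uᴴ) * P * (U * Uᴴ) := by rw [hUU]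
      _ = U * (Uᴴ * P * U) * Uᴴ := by simp only [Matrix.mul_assoc]
  have hP2 : (Uᴴ * P * U).PosSemidef := hP.conjTranspose_mul_mul_same U
  have key := newton_diag hP2 x
  have e1 : D X X 1 P = D (diagonal fun i => (x i : ℂ)) (diagonal fun i => (x i : ℂ)) 1
      (Uᴴ * P * U) := by
    have := D_conj U (diagonal fun i => (x i : ℂ)) (diagonal fun i => (x i : ℂ)) 1 (Uᴴ * P * U)
    rw [← h1, ← hone, ← hP1, hdet, one_mul] at this
    exact this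
  have e2 : D X 1 1 P = D (diagonal fun i => (x i : ℂ)) 1 1 (Uᴴ * P * U) := by
    have := D_conj U (diagonal fun i => (x i : ℂ)) 1 1 (Uᴴ * P * U)
    rw [← h1, ← hone, ← hP1, hdet, one_mul] at this
    exact this
  have e3 : D 1 1 1 P = D 1 1 1 (Uᴴ * P * U) := by
    have := D_conj U 1 1 1 (Uᴴ * P * U)
    rw [← hone, ← hP1, hdet, one_mul] at this
    exact this
  rw [e1, e2, e3]
  exact key

lemma exists_factor {Q : Matrix (Fin 4) (Fin 4) ℂ} (hQ : Q.PosDef) :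
    ∃ M : Matrix (Fin 4) (Fin 4) ℂ, Q = M * Mᴴ ∧ IsUnit M.det := by
  obtain ⟨M, hM⟩ := exists_sqrt_of_posSemidef hQ.posSemidef
  refine ⟨M, hM, ?_⟩
  have h1 := hQ.det_pos
  rw [hM, Matrix.det_mul] at h1
  rw [isUnit_iff_ne_zero]
  intro h0
  rw [h0, zero_mul] at h1
  exact lt_irrefl _ h1

lemma newton {P Q X : Matrix (Fin 4) (Fin 4) ℂ} (hP : P.PosSemidef) (hQ : Q.PosDef)
    (hX : X.IsHermitian) : D X X Q P * D Q Q Q P ≤ (D X Q Q P) ^ 2 := by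
  obtain ⟨M, hM, hu⟩ := exists_factor hQ
  have hMM : M * M⁻¹ = 1 := Matrix.mul_nonsing_inv M hu
  have hMMt : (M⁻¹)ᴴ * Mᴴ = 1 := by rw [← conjTranspose_mul, hMM, conjTranspose_one]
  have hcan : ∀ A : Matrix (Fin 4) (Fin 4) ℂ, A = M * (M⁻¹ * A * (M⁻¹)ᴴ) * Mᴴ := by
    intro A
    calc A = 1 * A * 1 := by simp
      _ = (M * M⁻¹) * A * ((M⁻¹)ᴴ * Mᴴ) := by rw [hMM, hMMt]
      _ = M * (M⁻¹ * A * (M⁻¹)ᴴ) * Mᴴ := by simp only [Matrix.mul_assoc]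
  have hQ1 : Q = M * 1 * Mᴴ := by rw [Matrix.mul_one]; exact hM
  have key := newton_one (P := M⁻¹ * P * (M⁻¹)ᴴ) (X := M⁻¹ * X * (M⁻¹)ᴴ)
    (hP.mul_mul_conjTranspose_same _) (Matrix.isHermitian_mul_mul_conjTranspose _ hX)
  have e1 : D X X Q P = ‖M.det‖ ^ 2 * D (M⁻¹ * X * (M⁻¹)ᴴ) (M⁻¹ * X * (M⁻¹)ᴴ) 1
      (M⁻¹ * P * (M⁻¹)ᴴ) := by
    rw [← D_conj, ← hcan, ← hcan, ← hQ1]
  have e2 : D X Q Q P = ‖M.det‖ ^ 2 * D (M⁻¹ * X * (M⁻¹)ᴴ) 1 1 (M⁻¹ * P * (M⁻¹)ᴴ) := by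
    rw [← D_conj, ← hcan, ← hcan, ← hQ1]
  have e3 : D Q Q Q P = ‖M.det‖ ^ 2 * D 1 1 1 (M⁻¹ * P * (M⁻¹)ᴴ) := by
    rw [← D_conj, ← hcan, ← hQ1]
  rw [e1, e2, e3]
  have hc : 0 ≤ (‖M.det‖ ^ 2) ^ 2 := by positivity
  nlinarith [mul_le_mul_of_nonneg_left key hc]

/-- **Alexandrov-Fenchel inequality** for mixed discriminants of `4 x 4` matrices. -/
theorem AF4 {P Q X Y : Matrix (Fin 4) (Fin 4) ℂ} (hP : P.PosDef) (hQ : Q.PosDef)
    (hX : X.IsHermitian) (hY : Y.IsHermitian) (hYY : 0 < D Y Y Q P) :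
    D X X Q P * D Y Y Q P ≤ (D X Y Q P) ^ 2 := by
  have hQQ : 0 < D Q Q Q P := D_pos hQ hQ hQ hP
  have hYQ := newton hP.posSemidef hQ hY
  have hYQ' : D Y Q Q P ≠ 0 := by
    intro h0
    rw [h0] at hYQ
    have := mul_pos hYY hQQ
    nlinarith
  set τ : ℝ := - D X Q Q P / D Y Q Q P with hτ
  have hZ : (X + (τ : ℂ) • Y).IsHermitian := by
    refine hX.add ?_
    unfold Matrix.IsHermitian
    rw [conjTranspose_smul, hY.eq, Complex.star_def, Complex.conj_ofReal]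
  have h1 := newton hP.posSemidef hQ hZ
  have h2 : D (X + (τ : ℂ) • Y) Q Q P = 0 := by
    rw [D_add1, D_smul1, hτ]
    field_simp
    ring
  rw [h2] at h1
  have h3 : D (X + (τ : ℂ) • Y) (X + (τ : ℂ) • Y) Q P =
      D X X Q P + 2 * τ * D X Y Q P + τ ^ 2 * D Y Y Q P := by
    rw [D_add1, D_smul1, D_add2, D_smul2, D_add2, D_smul2, D_swap12 Y X]
    ring
  rw [h3] at h1
  have h4 : D X X Q P + 2 * τ * D X Y Q P + τ ^ 2 * D Y Y Q P ≤ 0 := by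
    by_contra hcon
    push Not at hcon
    have := mul_pos hcon hQQ
    nlinarith
  nlinarith [sq_nonneg (D X Y Q P + τ * D Y Y Q P), mul_le_mul_of_nonneg_left h4 hYY.le]

end Pool.Agent.H94.MD
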