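import Mathlib
import Pool.Agent.H94.MD.AF

set_option autoImplicit false
open scoped ComplexOrder
open Matrix Equiv Finset

namespace Pool.Agent.H94.MD

lemma pair_scalar_aux {A B g m v d M : ℝ} (hA : 0 ≤ A) (hB : 0 ≤ B) (hM : 0 ≤ M)
    (hm : |m| ≤ M) (hd : |d| ≤ M / 2) (hBh : B ≤ 1 / 2)
    (h3 : (-A + v - g / 4) * (1 - B / 4) ≤ (d + m / 4) ^ 2)
    (h3' : (-A - v - g / 4) * (1 - B / 4) ≤ (-d + m / 4) ^ 2) :
    |v| ≤ A + g / 4 + 9 / 14 * M ^ 2 ∨ |v| ≤ A + g / 4 := by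
  rw [abs_le] at hm hd
  have k1 : (d + m / 4) ^ 2 ≤ (3 * M / 4) ^ 2 := by
    apply sq_le_sq' <;> linarith
  have k2 : (-d + m / 4) ^ 2 ≤ (3 * M / 4) ^ 2 := by
    apply sq_le_sq' <;> linarith
  rcases le_total 0 v with hv | hv
  · rw [abs_of_nonneg hv]
    rcases le_or_gt (v - A - g / 4) 0 with h | h
    · right; linarith
    · left
      nlinarith [mul_nonneg h.le (sub_nonneg.mpr hBh)]
  · rw [abs_of_nonpos hv]
    rcases le_or_gt (-v - A - g / 4) 0 with h | h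
    · right; linarith
    · left
      nlinarith [mul_nonneg h.le (sub_nonneg.mpr hBh)]

lemma pair_scalar {A B g m v d : ℝ} (hA : 0 ≤ A) (hB : 0 ≤ B)
    (h1 : (g - A) * (1 + B) ≤ m ^ 2) (h2 : (g - B) * (1 + A) ≤ v ^ 2)
    (e1 : 0 < 1 - A - B - g + 4 * d + 2 * m + 2 * v)
    (e2 : 0 < 1 - A - B - g - 4 * d + 2 * m - 2 * v)
    (e3 : 0 < 1 - A - B - g - 4 * d - 2 * m + 2 * v)
    (e4 : 0 < 1 - A - B - g + 4 * d - 2 * m - 2 * v)
    (h3 : (-A + v - g / 4) * (1 - B / 4) ≤ (d + m / 4) ^ 2)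
    (h3' : (-A - v - g / 4) * (1 - B / 4) ≤ (-d + m / 4) ^ 2)
    (h4 : (-B + m - g / 4) * (1 - A / 4) ≤ (d + v / 4) ^ 2)
    (h4' : (-B - m - g / 4) * (1 - A / 4) ≤ (-d + v / 4) ^ 2) :
    9 * g < 1 + 3 * A + 3 * B := by
  by_contra hcon
  push Not at hcon
  obtain ⟨M, hM⟩ : ∃ M : ℝ, 2 * M = 1 - A - B - g := ⟨(1 - A - B - g) / 2, by ring⟩
  have hMpos : 0 < M := by linarith
  have hm : |m| ≤ M := by rw [abs_le]; constructor <;> linarith
  have hv : |v| ≤ M := by rw [abs_le]; constructor <;> linarith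
  have hd : |d| ≤ M / 2 := by rw [abs_le]; constructor <;> linarith
  have hg : 0 < g := by linarith
  have hm2 : m ^ 2 ≤ M * |m| := by
    rw [← sq_abs m, sq]; exact mul_le_mul_of_nonneg_right hm (abs_nonneg _)
  have hv2 : v ^ 2 ≤ M * |v| := by
    rw [← sq_abs v, sq]; exact mul_le_mul_of_nonneg_right hv (abs_nonneg _)
  have g1 : g ≤ A + m ^ 2 := by
    rcases le_or_gt (g - A) 0 with h | h
    · linarith [sq_nonneg m]
    · linarith [mul_nonneg h.le hB]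
  have g2 : g ≤ B + v ^ 2 := by
    rcases le_or_gt (g - B) 0 with h | h
    · linarith [sq_nonneg v]
    · linarith [mul_nonneg h.le hA]
  have s1 : A + B + M / 2 ≤ 2 * g := by linarith
  have hMM : M * |m| ≤ M * M := mul_le_mul_of_nonneg_left hm hMpos.le
  have hMM' : M * |v| ≤ M * M := mul_le_mul_of_nonneg_left hv hMpos.le
  have s2 : 2 * g ≤ A + B + 2 * (M * M) := by linarith
  have s3 : 1 / 4 ≤ M := by
    by_contra hc
    push Not at hc
    have h5 := mul_lt_mul_of_pos_left hc hMpos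
    linarith
  have hAh : A ≤ 1 / 2 := by linarith
  have hBh : B ≤ 1 / 2 := by linarith
  have hMh : M ≤ 1 / 2 := by linarith
  have v1 : |v| ≤ A + g / 4 + 9 / 14 * M ^ 2 := by
    rcases pair_scalar_aux hA hB hMpos.le hm hd hBh h3 h3' with h | h
    · exact h
    · linarith [sq_nonneg M]
  have m1 : |m| ≤ B + g / 4 + 9 / 14 * M ^ 2 := by
    rcases pair_scalar_aux hB hA hMpos.le hv hd hAh h4 h4' with h | h
    · exact h
    · linarith [sq_nonneg M]
  have v2 := mul_le_mul_of_nonneg_left v1 hMpos.le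
  have m2 := mul_le_mul_of_nonneg_left m1 hMpos.le
  have s4 : M * (1 / 2) ≤ M * (A + B + g / 2 + 9 / 7 * M ^ 2) := by
    have e : M * (A + B + g / 2 + 9 / 7 * M ^ 2) =
      M * (A + g / 4 + 9 / 14 * M ^ 2) + M * (B + g / 4 + 9 / 14 * M ^ 2) := by ring
    rw [e]
    linarith
  have s5 : 1 / 2 ≤ A + B + g / 2 + 9 / 7 * M ^ 2 := le_of_mul_le_mul_left s4 hMpos
  nlinarith [mul_nonneg (sub_nonneg.mpr s3) (sub_nonneg.mpr hMh)]

lemma isHermitian_smul_real {X : Matrix (Fin 4) (Fin 4) ℂ} (hX : X.IsHermitian) (c : ℝ) :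
    ((c : ℂ) • X).IsHermitian := by
  unfold Matrix.IsHermitian
  rw [conjTranspose_smul, hX.eq, Complex.star_def, Complex.conj_ofReal]

lemma posDef_between {X Y : Matrix (Fin 4) (Fin 4) ℂ} (hp : (X + Y).PosDef)
    (hm : (X + ((-1 : ℝ) : ℂ) • Y).PosDef) (t : ℝ) (ht : -1 ≤ t) (ht' : t ≤ 1) :
    (X + (t : ℂ) • Y).PosDef := by
  have h : X + (t : ℂ) • Y = (((1 + t) / 2 : ℝ) : ℂ) • (X + Y) +
      (((1 - t) / 2 : ℝ) : ℂ) • (X + ((-1 : ℝ) : ℂ) • Y) := by
    ext i j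
    simp only [Matrix.add_apply, Matrix.smul_apply, smul_eq_mul]
    push_cast
    ring
  rw [h]
  rcases eq_or_lt_of_le ht with h1 | h1
  · subst h1
    have : (((1 + -1) / 2 : ℝ) : ℂ) = 0 := by norm_num
    rw [this, zero_smul, zero_add]
    have : (((1 - -1) / 2 : ℝ) : ℂ) = 1 := by norm_num
    rw [this, one_smul]
    exact hm
  · have h2 : (0 : ℂ) < (((1 + t) / 2 : ℝ) : ℂ) := by
      exact_mod_cast (by linarith : (0 : ℝ) < (1 + t) / 2)
    have h3 : (0 : ℂ) ≤ (((1 - t) / 2 : ℝ) : ℂ) := by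
      exact_mod_cast (by linarith : (0 : ℝ) ≤ (1 - t) / 2)
    exact (hp.smul h2).add_posSemidef (hm.posSemidef.smul h3)

/-- expansion of the double pencil -/
lemma D_expand (a0 a1 b0 b1 : Matrix (Fin 4) (Fin 4) ℂ) (s t : ℝ) :
    D (a0 + (s : ℂ) • a1) (a0 + (s : ℂ) • a1) (b0 + (t : ℂ) • b1) (b0 + (t : ℂ) • b1) =
      (D a0 a0 b0 b0 + 2 * t * D a0 a0 b0 b1 + t ^ 2 * D a0 a0 b1 b1) +
      2 * s * (D a0 a1 b0 b0 + 2 * t * D a0 a1 b0 b1 + t ^ 2 * D a0 a1 b1 b1) +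
      s ^ 2 * (D a1 a1 b0 b0 + 2 * t * D a1 a1 b0 b1 + t ^ 2 * D a1 a1 b1 b1) := by
  simp only [D_add1, D_add2, D_add3, D_add4, D_smul1, D_smul2, D_smul3, D_smul4]
  rw [D_swap12 a1 a0 b0 b0, D_swap12 a1 a0 b0 b1, D_swap12 a1 a0 b1 b0, D_swap12 a1 a0 b1 b1,
    D_swap34 a0 a0 b1 b0, D_swap34 a0 a1 b1 b0, D_swap34 a1 a1 b1 b0]
  ring

lemma D_expand34 (X Y b0 b1 : Matrix (Fin 4) (Fin 4) ℂ) (s t : ℝ) :
    D X Y (b0 + (s : ℂ) • b1) (b0 + (t : ℂ) • b1) =
      D X Y b0 b0 + (s + t) * D X Y b0 b1 + s * t * D X Y b1 b1 := by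
  simp only [D_add3, D_add4, D_smul3, D_smul4]
  rw [D_swap34 X Y b1 b0]
  ring

/-- **The pair inequality.** -/
theorem pair_pos {a0 a1 b0 b1 : Matrix (Fin 4) (Fin 4) ℂ}
    (ha0 : a0.IsHermitian) (ha1 : a1.IsHermitian) (hb0 : b0.IsHermitian) (hb1 : b1.IsHermitian)
    (hap : (a0 + a1).PosDef) (ham : (a0 + ((-1 : ℝ) : ℂ) • a1).PosDef)
    (hbp : (b0 + b1).PosDef) (hbm : (b0 + ((-1 : ℝ) : ℂ) • b1).PosDef)
    (f1 : D a0 a1 b0 b0 = 0) (f2 : D a0 a0 b0 b1 = 0) :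
    0 < D a0 a0 b0 b0 - 3 * D a1 a1 b0 b0 - 3 * D a0 a0 b1 b1 + 9 * D a1 a1 b1 b1 := by
  have pa : ∀ t : ℝ, -1 ≤ t → t ≤ 1 → (a0 + (t : ℂ) • a1).PosDef :=
    fun t h h' => posDef_between hap ham t h h'
  have pb : ∀ t : ℝ, -1 ≤ t → t ≤ 1 → (b0 + (t : ℂ) • b1).PosDef :=
    fun t h h' => posDef_between hbp hbm t h h'
  have pa0 : a0.PosDef := by simpa using pa 0 (by norm_num) (by norm_num)
  have pb0 : b0.PosDef := by simpa using pb 0 (by norm_num) (by norm_num)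
  have hc : 0 < D a0 a0 b0 b0 := D_pos pa0 pa0 pb0 pb0
  set c := D a0 a0 b0 b0 with hcdef
  set A := - D a1 a1 b0 b0 with hA
  set B := - D a0 a0 b1 b1 with hB
  set g := - D a1 a1 b1 b1 with hg
  set m := D a0 a1 b1 b1 with hm
  set v := D a1 a1 b0 b1 with hv
  set d := D a0 a1 b0 b1 with hd
  -- nonnegativity of A and B
  have hA0 : 0 ≤ A := by
    have := AF4 pb0 pb0 ha1 ha0 hc
    rw [D_swap12 a1 a0, f1] at this
    by_contra hcon
    push Not at hcon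
    nlinarith [mul_pos (neg_pos.mpr hcon) hc]
  have hB0 : 0 ≤ B := by
    have hc' : 0 < D b0 b0 a0 a0 := by rw [D_swap_pairs]; exact hc
    have := AF4 pa0 pa0 hb1 hb0 hc'
    rw [D_swap_pairs b1 b1, D_swap_pairs b0 b0, D_swap_pairs b1 b0, D_swap34 a0 a0 b1 b0, f2] at this
    by_contra hcon
    push Not at hcon
    nlinarith [mul_pos (neg_pos.mpr hcon) hc]
  -- positivity of the four combinations
  have E : ∀ s t : ℝ, -1 ≤ s → s ≤ 1 → -1 ≤ t → t ≤ 1 →
      0 < (c - t ^ 2 * B) + 2 * s * (2 * t * d + t ^ 2 * m) +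
        s ^ 2 * (-A + 2 * t * v - t ^ 2 * g) := by
    intro s t hs hs' ht ht'
    have := D_pos (pa s hs hs') (pa s hs hs') (pb t ht ht') (pb t ht ht')
    rw [D_expand, f1, f2] at this
    simp only [hA, hB, hg, hm, hv, hd]
    linarith
  -- Alexandrov-Fenchel in the first pair
  have G1 : ∀ s t : ℝ, -1 ≤ s → s ≤ 1 → -1 ≤ t → t ≤ 1 → 0 < c - s * t * B →
      (-A + (s + t) * v - s * t * g) * (c - s * t * B) ≤ ((s + t) * d + s * t * m) ^ 2 := by
    intro s t hs hs' ht ht' hpos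
    have h0 : 0 < D a0 a0 (b0 + (s : ℂ) • b1) (b0 + (t : ℂ) • b1) := by
      rw [D_expand34, f2]; simp only [hB] at hpos; linarith
    have := AF4 (pb t ht ht') (pb s hs hs') ha1 ha0 h0
    rw [D_expand34, D_expand34, D_expand34, D_swap12 a1 a0 b0 b0, D_swap12 a1 a0 b0 b1,
      D_swap12 a1 a0 b1 b1, f1, f2] at this
    simp only [hA, hB, hg, hm, hv, hd]
    linarith
  have G2 : ∀ s t : ℝ, -1 ≤ s → s ≤ 1 → -1 ≤ t → t ≤ 1 → 0 < c - s * t * A →
      (-B + (s + t) * m - s * t * g) * (c - s * t * A) ≤ ((s + t) * d + s * t * v) ^ 2 := by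
    intro s t hs hs' ht ht' hpos
    have q1 : D b0 b0 a0 a1 = 0 := by rw [D_swap_pairs]; exact f1
    have q2 : D b0 b1 a0 a0 = 0 := by rw [D_swap_pairs]; exact f2
    have h0 : 0 < D b0 b0 (a0 + (s : ℂ) • a1) (a0 + (t : ℂ) • a1) := by
      rw [D_expand34, q1, D_swap_pairs b0 b0 a0 a0, D_swap_pairs b0 b0 a1 a1]
      simp only [hA] at hpos; linarith
    have := AF4 (pa t ht ht') (pa s hs hs') hb1 hb0 h0
    rw [D_expand34, D_expand34, D_expand34, D_swap12 b1 b0 a0 a0, D_swap12 b1 b0 a0 a1,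
      D_swap12 b1 b0 a1 a1, q1, q2, D_swap_pairs b1 b1 a0 a0, D_swap_pairs b1 b1 a0 a1,
      D_swap_pairs b1 b1 a1 a1, D_swap_pairs b0 b0 a0 a0, D_swap_pairs b0 b0 a1 a1,
      D_swap_pairs b0 b1 a0 a1, D_swap_pairs b0 b1 a1 a1] at this
    simp only [hA, hB, hg, hm, hv, hd]
    linarith
  have i1 := G1 1 (-1) (by norm_num) (by norm_num) (by norm_num) (by norm_num) (by linarith)
  have i2 := G2 1 (-1) (by norm_num) (by norm_num) (by norm_num) (by norm_num) (by linarith)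
  have x1 := E 1 1 (by norm_num) (by norm_num) (by norm_num) (by norm_num)
  have x2 := E 1 (-1) (by norm_num) (by norm_num) (by norm_num) (by norm_num)
  have x3 := E (-1) 1 (by norm_num) (by norm_num) (by norm_num) (by norm_num)
  have x4 := E (-1) (-1) (by norm_num) (by norm_num) (by norm_num) (by norm_num)
  have y1 := E 0 1 (by norm_num) (by norm_num) (by norm_num) (by norm_num)
  have y2 : 0 < c - A := by
    have := D_pos (pa 1 (by norm_num) le_rfl) (pa 1 (by norm_num) le_rfl) pb0 pb0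
    have h2 := D_expand a0 a1 b0 b1 1 0
    simp only [Complex.ofReal_zero, zero_smul, add_zero] at h2
    rw [h2, f1] at this
    simp only [hA]
    linarith
  have y1' : 0 < c - B := by linarith
  have j1 := G1 (1 / 2) (1 / 2) (by norm_num) (by norm_num) (by norm_num) (by norm_num)
    (by linarith)
  have j2 := G1 (-1 / 2) (-1 / 2) (by norm_num) (by norm_num) (by norm_num) (by norm_num)
    (by linarith)
  have j3 := G2 (1 / 2) (1 / 2) (by norm_num) (by norm_num) (by norm_num) (by norm_num)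
    (by linarith)
  have j4 := G2 (-1 / 2) (-1 / 2) (by norm_num) (by norm_num) (by norm_num) (by norm_num)
    (by linarith)
  -- normalise
  have hci : 0 < c⁻¹ := inv_pos.mpr hc
  have hcc : c⁻¹ * c = 1 := inv_mul_cancel₀ hc.ne'
  obtain ⟨w, hw, hwc⟩ : ∃ w : ℝ, 0 < w ∧ w * c = 1 := ⟨c⁻¹, hci, hcc⟩
  have hw2 : 0 ≤ w ^ 2 := by positivity
  have hsq : w ^ 2 * c = w := by rw [sq, mul_assoc, hwc, mul_one]
  have key : 9 * (w * g) < 1 + 3 * (w * A) + 3 * (w * B) := by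
    apply pair_scalar (m := w * m) (v := w * v) (d := w * d) (mul_nonneg hw.le hA0)
      (mul_nonneg hw.le hB0)
    · have := mul_le_mul_of_nonneg_left i1 hw2
      calc (w * g - w * A) * (1 + w * B) = (w * g - w * A) * (w * c + w * B) := by rw [hwc]
        _ = w ^ 2 * ((-A + (1 + -1) * v - 1 * -1 * g) * (c - 1 * -1 * B)) := by ring
        _ ≤ w ^ 2 * ((1 + -1) * d + 1 * -1 * m) ^ 2 := this
        _ = (w * m) ^ 2 := by ring
    · have := mul_le_mul_of_nonneg_left i2 hw2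
      calc (w * g - w * B) * (1 + w * A) = (w * g - w * B) * (w * c + w * A) := by rw [hwc]
        _ = w ^ 2 * ((-B + (1 + -1) * m - 1 * -1 * g) * (c - 1 * -1 * A)) := by ring
        _ ≤ w ^ 2 * ((1 + -1) * d + 1 * -1 * v) ^ 2 := this
        _ = (w * v) ^ 2 := by ring
    · have := mul_pos hw x1
      nlinarith
    · have := mul_pos hw x2
      nlinarith
    · have := mul_pos hw x3
      nlinarith
    · have := mul_pos hw x4
      nlinarith
    · have := mul_le_mul_of_nonneg_left j1 hw2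
      calc (-(w * A) + w * v - w * g / 4) * (1 - w * B / 4)
          = (-(w * A) + w * v - w * g / 4) * (w * c - w * B / 4) := by rw [hwc]
        _ = w ^ 2 * ((-A + (1 / 2 + 1 / 2) * v - 1 / 2 * (1 / 2) * g) *
            (c - 1 / 2 * (1 / 2) * B)) := by ring
        _ ≤ w ^ 2 * ((1 / 2 + 1 / 2) * d + 1 / 2 * (1 / 2) * m) ^ 2 := this
        _ = (w * d + w * m / 4) ^ 2 := by ring
    · have := mul_le_mul_of_nonneg_left j2 hw2
      calc (-(w * A) - w * v - w * g / 4) * (1 - w * B / 4)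
          = (-(w * A) - w * v - w * g / 4) * (w * c - w * B / 4) := by rw [hwc]
        _ = w ^ 2 * ((-A + (-1 / 2 + -1 / 2) * v - -1 / 2 * (-1 / 2) * g) *
            (c - -1 / 2 * (-1 / 2) * B)) := by ring
        _ ≤ w ^ 2 * ((-1 / 2 + -1 / 2) * d + -1 / 2 * (-1 / 2) * m) ^ 2 := this
        _ = (-(w * d) + w * m / 4) ^ 2 := by ring
    · have := mul_le_mul_of_nonneg_left j3 hw2
      calc (-(w * B) + w * m - w * g / 4) * (1 - w * A / 4)
          = (-(w * B) + w * m - w * g / 4) * (w * c - w * A / 4) := by rw [hwc]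
        _ = w ^ 2 * ((-B + (1 / 2 + 1 / 2) * m - 1 / 2 * (1 / 2) * g) *
            (c - 1 / 2 * (1 / 2) * A)) := by ring
        _ ≤ w ^ 2 * ((1 / 2 + 1 / 2) * d + 1 / 2 * (1 / 2) * v) ^ 2 := this
        _ = (w * d + w * v / 4) ^ 2 := by ring
    · have := mul_le_mul_of_nonneg_left j4 hw2
      calc (-(w * B) - w * m - w * g / 4) * (1 - w * A / 4)
          = (-(w * B) - w * m - w * g / 4) * (w * c - w * A / 4) := by rw [hwc]
        _ = w ^ 2 * ((-B + (-1 / 2 + -1 / 2) * m - -1 / 2 * (-1 / 2) * g) *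
            (c - -1 / 2 * (-1 / 2) * A)) := by ring
        _ ≤ w ^ 2 * ((-1 / 2 + -1 / 2) * d + -1 / 2 * (-1 / 2) * v) ^ 2 := this
        _ = (-(w * d) + w * v / 4) ^ 2 := by ring
  have h9 : w * (9 * g) < w * (c + 3 * A + 3 * B) := by
    calc w * (9 * g) = 9 * (w * g) := by ring
      _ < 1 + 3 * (w * A) + 3 * (w * B) := key
      _ = w * (c + 3 * A + 3 * B) := by rw [← hwc]; ring
  have h10 := lt_of_mul_lt_mul_left h9 hw.le
  simp only [hA, hB, hg] at h10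
  linarith

end Pool.Agent.H94.MD
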