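import Mathlib
import Pool.Agent.H94.MD.Pair

set_option autoImplicit false
open scoped ComplexOrder
open Matrix Equiv Finset

namespace Pool.Agent.H94.MD

/-- positivity of a rank two family of `4 x 4` matrices -/
def Pos2 (B : Fin 2 → Fin 2 → Matrix (Fin 4) (Fin 4) ℂ) : Prop :=
  ∀ ξ : Fin 2 → ℂ, ξ ≠ 0 → (∑ i, ∑ j, (ξ i * star (ξ j)) • B i j).PosDef

/-- the action of `2 x 2` matrices on rank two families -/
def act (g : Fin 2 → Fin 2 → ℂ) (B : Fin 2 → Fin 2 → Matrix (Fin 4) (Fin 4) ℂ) :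
    Fin 2 → Fin 2 → Matrix (Fin 4) (Fin 4) ℂ :=
  fun i j => ∑ k, ∑ l, (g i k * star (g j l)) • B k l

/-- determinant of a `2 x 2` array -/
def dt (g : Fin 2 → Fin 2 → ℂ) : ℂ := g 0 0 * g 1 1 - g 0 1 * g 1 0

/-- product of `2 x 2` arrays -/
def ml (g h : Fin 2 → Fin 2 → ℂ) : Fin 2 → Fin 2 → ℂ := fun i j => ∑ k, g i k * h k j

lemma dt_ml (g h : Fin 2 → Fin 2 → ℂ) : dt (ml g h) = dt g * dt h := by
  simp only [dt, ml, Fin.sum_univ_two]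
  ring

lemma act_act (g h : Fin 2 → Fin 2 → ℂ) (B : Fin 2 → Fin 2 → Matrix (Fin 4) (Fin 4) ℂ) :
    act g (act h B) = act (ml g h) B := by
  funext i j
  simp only [act, ml, Fin.sum_univ_two]
  ext a b
  simp only [Matrix.add_apply, Matrix.smul_apply, smul_eq_mul, star_add, star_mul']
  ring

lemma act_pos2 {g : Fin 2 → Fin 2 → ℂ} (hg : dt g ≠ 0)
    {B : Fin 2 → Fin 2 → Matrix (Fin 4) (Fin 4) ℂ} (hB : Pos2 B) : Pos2 (act g B) := by
  intro ξ hξ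
  have h := hB (fun k => ξ 0 * g 0 k + ξ 1 * g 1 k) (by
    intro h0
    apply hξ
    have e0 := congrFun h0 0
    have e1 := congrFun h0 1
    simp only [Pi.zero_apply] at e0 e1
    have k0 : dt g * ξ 0 = 0 := by
      unfold dt
      linear_combination g 1 1 * e0 - g 1 0 * e1
    have k1 : dt g * ξ 1 = 0 := by
      unfold dt
      linear_combination g 0 0 * e1 - g 0 1 * e0
    funext i
    fin_cases i
    · exact (mul_eq_zero.mp k0).resolve_left hg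
    · exact (mul_eq_zero.mp k1).resolve_left hg)
  convert h using 1
  simp only [act, Fin.sum_univ_two]
  ext a b
  simp only [Matrix.add_apply, Matrix.smul_apply, smul_eq_mul, star_add, star_mul']
  ring

/-- the second Chern form of the pair of rank two families -/
noncomputable def Psi (B C : Fin 2 → Fin 2 → Matrix (Fin 4) (Fin 4) ℂ) : ℂ :=
  md ![B 0 0, B 1 1, C 0 0, C 1 1] - md ![B 0 1, B 1 0, C 0 0, C 1 1] -
    md ![B 0 0, B 1 1, C 0 1, C 1 0] + md ![B 0 1, B 1 0, C 0 1, C 1 0]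

lemma mdc_add1 (X X' Y Z W : Matrix (Fin 4) (Fin 4) ℂ) :
    md ![X + X', Y, Z, W] = md ![X, Y, Z, W] + md ![X', Y, Z, W] := by
  have := (mdM 4).map_update_add ![X, Y, Z, W] 0 X X'
  simp only [mdM_apply] at this
  convert this using 2
  · funext k; fin_cases k <;> rfl
  · congr 1; funext k; fin_cases k <;> rfl
  · congr 1; funext k; fin_cases k <;> rfl

lemma mdc_smul1 (c : ℂ) (X Y Z W : Matrix (Fin 4) (Fin 4) ℂ) :
    md ![c • X, Y, Z, W] = c * md ![X, Y, Z, W] := by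
  have := (mdM 4).map_update_smul ![X, Y, Z, W] 0 c X
  simp only [mdM_apply] at this
  have h1 : (![c • X, Y, Z, W] : Fin 4 → Matrix (Fin 4) (Fin 4) ℂ) =
      Function.update ![X, Y, Z, W] 0 (c • X) := by
    funext k; fin_cases k <;> rfl
  have h2 : Function.update (![X, Y, Z, W] : Fin 4 → Matrix (Fin 4) (Fin 4) ℂ) 0 X =
      ![X, Y, Z, W] := by
    funext k; fin_cases k <;> rfl
  rw [h1, this, h2, smul_eq_mul]

lemma mdc_swap12 (X Y Z W : Matrix (Fin 4) (Fin 4) ℂ) : md ![X, Y, Z, W] = md ![Y, X, Z, W] := by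
  rw [← md_perm (Equiv.swap 0 1) ![X, Y, Z, W]]
  congr 1
  funext k; fin_cases k <;> rfl

lemma mdc_swap34 (X Y Z W : Matrix (Fin 4) (Fin 4) ℂ) : md ![X, Y, Z, W] = md ![X, Y, W, Z] := by
  rw [← md_perm (Equiv.swap 2 3) ![X, Y, Z, W]]
  congr 1
  funext k; fin_cases k <;> rfl

lemma mdc_swap_pairs (X Y Z W : Matrix (Fin 4) (Fin 4) ℂ) :
    md ![X, Y, Z, W] = md ![Z, W, X, Y] := by
  rw [← md_perm (Equiv.swap 0 2 * Equiv.swap 1 3) ![X, Y, Z, W]]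
  congr 1
  funext k; fin_cases k <;> rfl

lemma mdc_add2 (X Y Y' Z W : Matrix (Fin 4) (Fin 4) ℂ) :
    md ![X, Y + Y', Z, W] = md ![X, Y, Z, W] + md ![X, Y', Z, W] := by
  rw [mdc_swap12, mdc_add1, mdc_swap12 Y, mdc_swap12 Y']

lemma mdc_smul2 (c : ℂ) (X Y Z W : Matrix (Fin 4) (Fin 4) ℂ) :
    md ![X, c • Y, Z, W] = c * md ![X, Y, Z, W] := by
  rw [mdc_swap12, mdc_smul1, mdc_swap12 Y]

lemma mdc_add3 (X Y Z Z' W : Matrix (Fin 4) (Fin 4) ℂ) :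
    md ![X, Y, Z + Z', W] = md ![X, Y, Z, W] + md ![X, Y, Z', W] := by
  rw [mdc_swap_pairs, mdc_add1, mdc_swap_pairs Z, mdc_swap_pairs Z']

lemma mdc_smul3 (c : ℂ) (X Y Z W : Matrix (Fin 4) (Fin 4) ℂ) :
    md ![X, Y, c • Z, W] = c * md ![X, Y, Z, W] := by
  rw [mdc_swap_pairs, mdc_smul1, mdc_swap_pairs Z]

lemma mdc_add4 (X Y Z W W' : Matrix (Fin 4) (Fin 4) ℂ) :
    md ![X, Y, Z, W + W'] = md ![X, Y, Z, W] + md ![X, Y, Z, W'] := by
  rw [mdc_swap34, mdc_add3, mdc_swap34, mdc_swap34 X Y W' Z]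

lemma mdc_smul4 (c : ℂ) (X Y Z W : Matrix (Fin 4) (Fin 4) ℂ) :
    md ![X, Y, Z, c • W] = c * md ![X, Y, Z, W] := by
  rw [mdc_swap34, mdc_smul3, mdc_swap34]

lemma act2_pair (g : Fin 2 → Fin 2 → ℂ) (B : Fin 2 → Fin 2 → Matrix (Fin 4) (Fin 4) ℂ)
    (Z W : Matrix (Fin 4) (Fin 4) ℂ) :
    md ![act g B 0 0, act g B 1 1, Z, W] - md ![act g B 0 1, act g B 1 0, Z, W] =
      dt g * star (dt g) * (md ![B 0 0, B 1 1, Z, W] - md ![B 0 1, B 1 0, Z, W]) := by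
  simp only [act, Fin.sum_univ_two, mdc_add1, mdc_add2, mdc_smul1, mdc_smul2]
  rw [mdc_swap12 (B 1 1) (B 0 0), mdc_swap12 (B 1 0) (B 0 1), mdc_swap12 (B 0 1) (B 0 0),
    mdc_swap12 (B 1 0) (B 0 0), mdc_swap12 (B 1 1) (B 0 1), mdc_swap12 (B 1 1) (B 1 0)]
  simp only [dt, star_sub, star_mul']
  ring

lemma Psi_swap (B C : Fin 2 → Fin 2 → Matrix (Fin 4) (Fin 4) ℂ) : Psi B C = Psi C B := by
  unfold Psi
  rw [mdc_swap_pairs (B 0 0) (B 1 1) (C 0 0), mdc_swap_pairs (B 0 1) (B 1 0) (C 0 0),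
    mdc_swap_pairs (B 0 0) (B 1 1) (C 0 1), mdc_swap_pairs (B 0 1) (B 1 0) (C 0 1)]
  ring

lemma Psi_act_left (g : Fin 2 → Fin 2 → ℂ) (B C : Fin 2 → Fin 2 → Matrix (Fin 4) (Fin 4) ℂ) :
    Psi (act g B) C = dt g * star (dt g) * Psi B C := by
  unfold Psi
  have h1 := act2_pair g B (C 0 0) (C 1 1)
  have h2 := act2_pair g B (C 0 1) (C 1 0)
  linear_combination h1 - h2

lemma Psi_act_right (g : Fin 2 → Fin 2 → ℂ) (B C : Fin 2 → Fin 2 → Matrix (Fin 4) (Fin 4) ℂ) :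
    Psi B (act g C) = dt g * star (dt g) * Psi B C := by
  rw [Psi_swap, Psi_act_left, Psi_swap]

/-- Pauli coordinates of a rank two family -/
noncomputable def pl (B : Fin 2 → Fin 2 → Matrix (Fin 4) (Fin 4) ℂ) :
    Fin 4 → Matrix (Fin 4) (Fin 4) ℂ :=
  ![(1 / 2 : ℂ) • (B 0 0 + B 1 1), (1 / 2 : ℂ) • (B 0 1 + B 1 0),
    (Complex.I / 2) • (B 1 0 + (-1 : ℂ) • B 0 1), (1 / 2 : ℂ) • (B 0 0 + (-1 : ℂ) • B 1 1)]

lemma B00_eq (B : Fin 2 → Fin 2 → Matrix (Fin 4) (Fin 4) ℂ) : B 0 0 = pl B 0 + pl B 3 := by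
  ext a b
  simp [pl]
  ring

lemma B11_eq (B : Fin 2 → Fin 2 → Matrix (Fin 4) (Fin 4) ℂ) :
    B 1 1 = pl B 0 + (-1 : ℂ) • pl B 3 := by
  ext a b
  simp [pl]
  ring

lemma B01_eq (B : Fin 2 → Fin 2 → Matrix (Fin 4) (Fin 4) ℂ) :
    B 0 1 = pl B 1 + Complex.I • pl B 2 := by
  ext a b
  simp [pl]
  linear_combination (-(B 1 0 a b - B 0 1 a b) / 2) * Complex.I_mul_I

lemma B10_eq (B : Fin 2 → Fin 2 → Matrix (Fin 4) (Fin 4) ℂ) :
    B 1 0 = pl B 1 + (-Complex.I) • pl B 2 := by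
  ext a b
  simp [pl]
  linear_combination ((B 1 0 a b - B 0 1 a b) / 2) * Complex.I_mul_I

lemma pair_pl (B : Fin 2 → Fin 2 → Matrix (Fin 4) (Fin 4) ℂ) (Z W : Matrix (Fin 4) (Fin 4) ℂ) :
    md ![B 0 0, B 1 1, Z, W] - md ![B 0 1, B 1 0, Z, W] =
      md ![pl B 0, pl B 0, Z, W] - md ![pl B 1, pl B 1, Z, W] - md ![pl B 2, pl B 2, Z, W] -
        md ![pl B 3, pl B 3, Z, W] := by
  rw [B00_eq B, B11_eq B, B01_eq B, B10_eq B]
  simp only [mdc_add1, mdc_add2, mdc_smul1, mdc_smul2]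
  rw [mdc_swap12 (pl B 3) (pl B 0), mdc_swap12 (pl B 2) (pl B 1)]
  linear_combination (md ![pl B 2, pl B 2, Z, W]) * Complex.I_mul_I

end Pool.Agent.H94.MD
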