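import Mathlib
import Pool.Agent.H94.MD.Act

set_option autoImplicit false
open scoped ComplexOrder
open Matrix Equiv Finset

namespace Pool.Agent.H94.MD

/-- the value of the family at a rank one tensor -/
def Hq (B : Fin 2 → Fin 2 → Matrix (Fin 4) (Fin 4) ℂ) (ξ : Fin 2 → ℂ) :
    Matrix (Fin 4) (Fin 4) ℂ := ∑ i, ∑ j, (ξ i * star (ξ j)) • B i j

lemma Hq_smul (B : Fin 2 → Fin 2 → Matrix (Fin 4) (Fin 4) ℂ) (ξ : Fin 2 → ℂ) (a : ℝ) :
    Hq B (fun i => (a : ℂ) * ξ i) = ((a ^ 2 : ℝ) : ℂ) • Hq B ξ := by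
  unfold Hq
  ext p q
  simp only [Fin.sum_univ_two, Matrix.add_apply, Matrix.smul_apply, smul_eq_mul, star_mul',
    Complex.star_def, Complex.conj_ofReal]
  push_cast
  ring

lemma Hq_zero (B : Fin 2 → Fin 2 → Matrix (Fin 4) (Fin 4) ℂ) : Hq B 0 = 0 := by
  unfold Hq
  ext p q
  simp

/-- the real form -/
noncomputable def fm (B : Fin 2 → Fin 2 → Matrix (Fin 4) (Fin 4) ℂ)
    (x : (Fin 2 → ℂ) × (Fin 4 → ℂ)) : ℝ := (star x.2 ⬝ᵥ (Hq B x.1 *ᵥ x.2)).re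

lemma fm_cont (B : Fin 2 → Fin 2 → Matrix (Fin 4) (Fin 4) ℂ) : Continuous (fm B) := by
  unfold fm Hq
  refine Complex.continuous_re.comp ?_
  simp only [Matrix.mulVec, dotProduct, Pi.star_apply, Fin.sum_univ_two, Matrix.add_apply,
    Matrix.smul_apply, smul_eq_mul]
  fun_prop

lemma exists_low {B : Fin 2 → Fin 2 → Matrix (Fin 4) (Fin 4) ℂ} (hB : Pos2 B) :
    ∃ ε : ℝ, 0 < ε ∧ ∀ ξ : Fin 2 → ℂ,
      (Hq B ξ + ((-(ε * ‖ξ‖ ^ 2) : ℝ) : ℂ) • (1 : Matrix (Fin 4) (Fin 4) ℂ)).PosSemidef := by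
  have hpd : ∀ ξ : Fin 2 → ℂ, ξ ≠ 0 → (Hq B ξ).PosDef := hB
  have hps : ∀ ξ : Fin 2 → ℂ, (Hq B ξ).PosSemidef := by
    intro ξ
    by_cases h : ξ = 0
    · rw [h, Hq_zero]; exact PosSemidef.zero
    · exact (hpd ξ h).posSemidef
  set K : Set ((Fin 2 → ℂ) × (Fin 4 → ℂ)) :=
    Metric.sphere (0 : Fin 2 → ℂ) 1 ×ˢ Metric.sphere (0 : Fin 4 → ℂ) 1 with hK
  have hKc : IsCompact K := (isCompact_sphere _ _).prod (isCompact_sphere _ _)
  have hKn : K.Nonempty := by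
    refine ⟨(fun _ => 1, fun _ => 1), ?_⟩
    rw [hK, Set.mem_prod]
    constructor
    · simp [pi_norm_const]
    · simp [pi_norm_const]
  obtain ⟨x0, hx0, hmin⟩ := hKc.exists_isMinOn hKn (fm_cont B).continuousOn
  have hm : 0 < fm B x0 := by
    rw [hK, Set.mem_prod] at hx0
    have h1 : x0.1 ≠ 0 := by
      intro h
      have := hx0.1
      rw [h, mem_sphere_zero_iff_norm, norm_zero] at this
      norm_num at this
    have h2 : x0.2 ≠ 0 := by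
      intro h
      have := hx0.2
      rw [h, mem_sphere_zero_iff_norm, norm_zero] at this
      norm_num at this
    exact (Complex.pos_iff.mp ((hpd x0.1 h1).dotProduct_mulVec_pos h2)).1
  set m := fm B x0 with hmdef
  refine ⟨m / 4, by positivity, fun ξ => ?_⟩
  have hherm : (Hq B ξ + ((-(m / 4 * ‖ξ‖ ^ 2) : ℝ) : ℂ) •
      (1 : Matrix (Fin 4) (Fin 4) ℂ)).IsHermitian :=
    (hps ξ).1.add (isHermitian_smul_real isHermitian_one _)
  refine PosSemidef.of_dotProduct_mulVec_nonneg hherm fun η => ?_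
  rw [Complex.nonneg_iff]
  refine ⟨?_, (hherm.im_star_dotProduct_mulVec_self η).symm⟩
  rw [Matrix.add_mulVec, dotProduct_add, Matrix.smul_mulVec, Matrix.one_mulVec, dotProduct_smul,
    Complex.add_re, smul_eq_mul, Complex.re_ofReal_mul]
  have hη : (star η ⬝ᵥ η).re ≤ 4 * ‖η‖ ^ 2 := by
    have h1 : (star η ⬝ᵥ η).re = ∑ i, ‖η i‖ ^ 2 := by
      simp only [dotProduct, Pi.star_apply, Complex.star_def, Complex.re_sum]
      refine Finset.sum_congr rfl fun i _ => ?_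
      rw [← Complex.normSq_eq_conj_mul_self, Complex.ofReal_re, Complex.normSq_eq_norm_sq]
    rw [h1, Fin.sum_univ_four]
    have h2 : ∀ i, ‖η i‖ ^ 2 ≤ ‖η‖ ^ 2 := fun i =>
      pow_le_pow_left₀ (norm_nonneg _) (norm_le_pi_norm η i) 2
    linarith [h2 0, h2 1, h2 2, h2 3]
  have hform : m * ‖ξ‖ ^ 2 * ‖η‖ ^ 2 ≤ (star η ⬝ᵥ (Hq B ξ *ᵥ η)).re := by
    by_cases hξ0 : ξ = 0
    · rw [hξ0, Hq_zero]; simp
    by_cases hη0 : η = 0
    · rw [hη0]; simp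
    have n1 : 0 < ‖ξ‖ := norm_pos_iff.mpr hξ0
    have n2 : 0 < ‖η‖ := norm_pos_iff.mpr hη0
    have hmem : ((fun i => ((‖ξ‖⁻¹ : ℝ) : ℂ) * ξ i, fun i => ((‖η‖⁻¹ : ℝ) : ℂ) * η i) :
        (Fin 2 → ℂ) × (Fin 4 → ℂ)) ∈ K := by
      rw [hK, Set.mem_prod]
      constructor
      · rw [mem_sphere_zero_iff_norm]
        have : (fun i => ((‖ξ‖⁻¹ : ℝ) : ℂ) * ξ i) = ((‖ξ‖⁻¹ : ℝ) : ℂ) • ξ := rfl
        rw [this, norm_smul, Complex.norm_real, norm_inv, norm_norm, inv_mul_cancel₀ n1.ne']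
      · rw [mem_sphere_zero_iff_norm]
        have : (fun i => ((‖η‖⁻¹ : ℝ) : ℂ) * η i) = ((‖η‖⁻¹ : ℝ) : ℂ) • η := rfl
        rw [this, norm_smul, Complex.norm_real, norm_inv, norm_norm, inv_mul_cancel₀ n2.ne']
    have h3 : m ≤ fm B _ := hmin hmem
    have h4 : fm B ((fun i => ((‖ξ‖⁻¹ : ℝ) : ℂ) * ξ i, fun i => ((‖η‖⁻¹ : ℝ) : ℂ) * η i) :
        (Fin 2 → ℂ) × (Fin 4 → ℂ)) =
        (‖ξ‖⁻¹) ^ 2 * ((‖η‖⁻¹) ^ 2 * (star η ⬝ᵥ (Hq B ξ *ᵥ η)).re) := by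
      unfold fm
      simp only
      rw [Hq_smul]
      have e : (fun i => ((‖η‖⁻¹ : ℝ) : ℂ) * η i) = ((‖η‖⁻¹ : ℝ) : ℂ) • η := rfl
      rw [e, star_smul, Matrix.smul_mulVec, Matrix.mulVec_smul, dotProduct_smul, dotProduct_smul,
        smul_dotProduct, smul_eq_mul, smul_eq_mul, smul_eq_mul, Complex.re_ofReal_mul,
        Complex.re_ofReal_mul, Complex.star_def, Complex.conj_ofReal, Complex.re_ofReal_mul]
      ring
    rw [h4] at h3
    have h5 := mul_le_mul_of_nonneg_left h3 (by positivity : (0 : ℝ) ≤ ‖ξ‖ ^ 2 * ‖η‖ ^ 2)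
    have h6 : ‖ξ‖ ^ 2 * ‖η‖ ^ 2 * ((‖ξ‖⁻¹) ^ 2 * ((‖η‖⁻¹) ^ 2 *
        (star η ⬝ᵥ (Hq B ξ *ᵥ η)).re)) = (star η ⬝ᵥ (Hq B ξ *ᵥ η)).re := by
      field_simp
    rw [h6] at h5
    linarith
  have h7 : m / 4 * ‖ξ‖ ^ 2 * (star η ⬝ᵥ η).re ≤ m / 4 * ‖ξ‖ ^ 2 * (4 * ‖η‖ ^ 2) :=
    mul_le_mul_of_nonneg_left hη (by positivity)
  nlinarith

/-- monotonicity of the mixed discriminant -/
lemma D_ge {X Y : Matrix (Fin 4) (Fin 4) ℂ} (hX : X.PosSemidef) (hY : Y.PosSemidef) {s t : ℝ}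
    (hs : 0 ≤ s) (ht : 0 ≤ t)
    (hXs : (X + ((-s : ℝ) : ℂ) • (1 : Matrix (Fin 4) (Fin 4) ℂ)).PosSemidef)
    (hYt : (Y + ((-t : ℝ) : ℂ) • (1 : Matrix (Fin 4) (Fin 4) ℂ)).PosSemidef) :
    s ^ 2 * t ^ 2 * D 1 1 1 1 ≤ D X X Y Y := by
  have one := (PosSemidef.one : (1 : Matrix (Fin 4) (Fin 4) ℂ).PosSemidef)
  have a1 : s * D 1 X Y Y ≤ D X X Y Y := by
    have := D_nonneg hXs hX hY hY
    rw [D_add1, D_smul1] at this
    linarith
  have a2 : s * D 1 1 Y Y ≤ D 1 X Y Y := by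
    have := D_nonneg one hXs hY hY
    rw [D_add2, D_smul2] at this
    linarith
  have a3 : t * D 1 1 1 Y ≤ D 1 1 Y Y := by
    have := D_nonneg one one hYt hY
    rw [D_add3, D_smul3] at this
    linarith
  have a4 : t * D 1 1 1 1 ≤ D 1 1 1 Y := by
    have := D_nonneg one one one hYt
    rw [D_add4, D_smul4] at this
    linarith
  have b1 := mul_le_mul_of_nonneg_left a4 (by positivity : 0 ≤ s ^ 2 * t)
  have b2 := mul_le_mul_of_nonneg_left a3 (by positivity : 0 ≤ s ^ 2)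
  have b3 := mul_le_mul_of_nonneg_left a2 hs
  nlinarith

lemma D_cont {T : Type*} [TopologicalSpace T] {X Y : T → Matrix (Fin 4) (Fin 4) ℂ}
    (hX : Continuous X) (hY : Continuous Y) : Continuous fun t => D (X t) (X t) (Y t) (Y t) := by
  unfold D md
  refine Complex.continuous_re.comp ?_
  refine continuous_finset_sum _ fun α _ => continuous_finset_sum _ fun ρ _ => ?_
  refine continuous_const.mul (continuous_finset_prod _ fun k _ => ?_)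
  fin_cases k
  · exact hX.matrix_elem _ _
  · exact hX.matrix_elem _ _
  · exact hY.matrix_elem _ _
  · exact hY.matrix_elem _ _

end Pool.Agent.H94.MD
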