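import Mathlib
import Pool.Agent.H94.MD.Bound

set_option autoImplicit false
open scoped ComplexOrder
open Matrix Equiv Finset

namespace Pool.Agent.H94.MD

lemma act_diag (g : Fin 2 → Fin 2 → ℂ) (B : Fin 2 → Fin 2 → Matrix (Fin 4) (Fin 4) ℂ)
    (i : Fin 2) : act g B i i = Hq B (g i) := rfl

lemma pl0_act (g : Fin 2 → Fin 2 → ℂ) (B : Fin 2 → Fin 2 → Matrix (Fin 4) (Fin 4) ℂ) :
    pl (act g B) 0 = (((1 / 2 : ℝ)) : ℂ) • (Hq B (g 0) + Hq B (g 1)) := by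
  have : (((1 / 2 : ℝ)) : ℂ) = 1 / 2 := by push_cast; rfl
  rw [this]
  rfl

/-- the functional to be minimised -/
noncomputable def Fn (B C : Fin 2 → Fin 2 → Matrix (Fin 4) (Fin 4) ℂ)
    (x : (Fin 2 → Fin 2 → ℂ) × (Fin 2 → Fin 2 → ℂ)) : ℝ :=
  D (pl (act x.1 B) 0) (pl (act x.1 B) 0) (pl (act x.2 C) 0) (pl (act x.2 C) 0)

lemma Hq_cont (B : Fin 2 → Fin 2 → Matrix (Fin 4) (Fin 4) ℂ) : Continuous (Hq B) := by
  unfold Hq
  refine continuous_finset_sum _ fun i _ => continuous_finset_sum _ fun j _ => ?_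
  exact Continuous.smul (f := fun ξ : Fin 2 → ℂ => ξ i * star (ξ j)) (by fun_prop)
    continuous_const

lemma Fn_cont (B C : Fin 2 → Fin 2 → Matrix (Fin 4) (Fin 4) ℂ) : Continuous (Fn B C) := by
  unfold Fn
  refine D_cont ?_ ?_
  · simp only [pl0_act]
    have h0 : Continuous fun x : (Fin 2 → Fin 2 → ℂ) × (Fin 2 → Fin 2 → ℂ) => x.1 0 := by
      fun_prop
    have h1 : Continuous fun x : (Fin 2 → Fin 2 → ℂ) × (Fin 2 → Fin 2 → ℂ) => x.1 1 := by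
      fun_prop
    exact Continuous.smul (f := fun _ => (((1 / 2 : ℝ)) : ℂ)) continuous_const
      (((Hq_cont B).comp h0).add ((Hq_cont B).comp h1))
  · simp only [pl0_act]
    have h0 : Continuous fun x : (Fin 2 → Fin 2 → ℂ) × (Fin 2 → Fin 2 → ℂ) => x.2 0 := by
      fun_prop
    have h1 : Continuous fun x : (Fin 2 → Fin 2 → ℂ) × (Fin 2 → Fin 2 → ℂ) => x.2 1 := by
      fun_prop
    exact Continuous.smul (f := fun _ => (((1 / 2 : ℝ)) : ℂ)) continuous_const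
      (((Hq_cont C).comp h0).add ((Hq_cont C).comp h1))

lemma norm_arr_sq_le (g : Fin 2 → Fin 2 → ℂ) : ‖g‖ ^ 2 ≤ ‖g 0‖ ^ 2 + ‖g 1‖ ^ 2 := by
  have h : ‖g‖ ≤ Real.sqrt (‖g 0‖ ^ 2 + ‖g 1‖ ^ 2) := by
    rw [pi_norm_le_iff_of_nonneg (Real.sqrt_nonneg _)]
    intro i
    apply Real.le_sqrt_of_sq_le
    fin_cases i
    · simp only [Fin.zero_eta]; nlinarith [sq_nonneg ‖g 1‖]
    · simp only [Fin.mk_one]; nlinarith [sq_nonneg ‖g 0‖]
  have := pow_le_pow_left₀ (norm_nonneg g) h 2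
  rwa [Real.sq_sqrt (by positivity)] at this

lemma norm_dt_le (g : Fin 2 → Fin 2 → ℂ) : ‖dt g‖ ≤ 2 * ‖g‖ ^ 2 := by
  have h : ∀ i j, ‖g i j‖ ≤ ‖g‖ := fun i j => (norm_le_pi_norm (g i) j).trans (norm_le_pi_norm g i)
  unfold dt
  calc ‖g 0 0 * g 1 1 - g 0 1 * g 1 0‖ ≤ ‖g 0 0 * g 1 1‖ + ‖g 0 1 * g 1 0‖ := norm_sub_le _ _
    _ = ‖g 0 0‖ * ‖g 1 1‖ + ‖g 0 1‖ * ‖g 1 0‖ := by rw [norm_mul, norm_mul]
    _ ≤ ‖g‖ * ‖g‖ + ‖g‖ * ‖g‖ := by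
        gcongr <;> exact h _ _
    _ = 2 * ‖g‖ ^ 2 := by ring

lemma pl0_low {B : Fin 2 → Fin 2 → Matrix (Fin 4) (Fin 4) ℂ} (hB : Pos2 B) {ε : ℝ}
    (hε : 0 < ε) (h : ∀ ξ : Fin 2 → ℂ,
      (Hq B ξ + ((-(ε * ‖ξ‖ ^ 2) : ℝ) : ℂ) • (1 : Matrix (Fin 4) (Fin 4) ℂ)).PosSemidef)
    (g : Fin 2 → Fin 2 → ℂ) :
    (pl (act g B) 0).PosSemidef ∧
      (pl (act g B) 0 + ((-(ε / 2 * ‖g‖ ^ 2) : ℝ) : ℂ) •
        (1 : Matrix (Fin 4) (Fin 4) ℂ)).PosSemidef := by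
  have one := (PosSemidef.one : (1 : Matrix (Fin 4) (Fin 4) ℂ).PosSemidef)
  have hps : ∀ ξ : Fin 2 → ℂ, (Hq B ξ).PosSemidef := by
    intro ξ
    by_cases h : ξ = 0
    · rw [h, Hq_zero]; exact PosSemidef.zero
    · exact (hB ξ h).posSemidef
  have hhalf : (0 : ℂ) ≤ (((1 / 2 : ℝ)) : ℂ) := by exact_mod_cast (by norm_num : (0 : ℝ) ≤ 1 / 2)
  refine ⟨?_, ?_⟩
  · rw [pl0_act]
    exact ((hps _).add (hps _)).smul hhalf
  · have h1 := ((h (g 0)).add (h (g 1))).smul hhalf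
    have h2 : (0 : ℂ) ≤ ((ε / 2 * (‖g 0‖ ^ 2 + ‖g 1‖ ^ 2 - ‖g‖ ^ 2) : ℝ) : ℂ) := by
      have := norm_arr_sq_le g
      exact_mod_cast mul_nonneg (by positivity) (by linarith)
    have h3 := h1.add (one.smul h2)
    convert h3 using 1
    rw [pl0_act]
    ext p q
    simp only [Matrix.add_apply, Matrix.smul_apply, smul_eq_mul]
    push_cast
    ring

lemma Fn_low {B C : Fin 2 → Fin 2 → Matrix (Fin 4) (Fin 4) ℂ} (hB : Pos2 B) (hC : Pos2 C) :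
    ∃ c : ℝ, 0 < c ∧ ∀ x : (Fin 2 → Fin 2 → ℂ) × (Fin 2 → Fin 2 → ℂ),
      c * (‖x.1‖ ^ 2) ^ 2 * (‖x.2‖ ^ 2) ^ 2 ≤ Fn B C x := by
  obtain ⟨ε, hε, h1⟩ := exists_low hB
  obtain ⟨δ, hδ, h2⟩ := exists_low hC
  have hD : 0 < D 1 1 1 1 := D_pos PosDef.one PosDef.one PosDef.one PosDef.one
  refine ⟨(ε / 2) ^ 2 * (δ / 2) ^ 2 * D 1 1 1 1, by positivity, fun x => ?_⟩
  have k1 := pl0_low hB hε h1 x.1
  have k2 := pl0_low hC hδ h2 x.2
  have := D_ge k1.1 k2.1 (by positivity : 0 ≤ ε / 2 * ‖x.1‖ ^ 2)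
    (by positivity : 0 ≤ δ / 2 * ‖x.2‖ ^ 2) k1.2 k2.2
  unfold Fn
  calc (ε / 2) ^ 2 * (δ / 2) ^ 2 * D 1 1 1 1 * (‖x.1‖ ^ 2) ^ 2 * (‖x.2‖ ^ 2) ^ 2
      = (ε / 2 * ‖x.1‖ ^ 2) ^ 2 * (δ / 2 * ‖x.2‖ ^ 2) ^ 2 * D 1 1 1 1 := by ring
    _ ≤ _ := this

lemma dt_cont : Continuous dt := by
  unfold dt
  fun_prop

/-- identity array -/
def id2 : Fin 2 → Fin 2 → ℂ := ![![1, 0], ![0, 1]]

lemma act_id2 (B : Fin 2 → Fin 2 → Matrix (Fin 4) (Fin 4) ℂ) : act id2 B = B := by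
  funext i j
  fin_cases i <;> fin_cases j <;> simp [act, id2, Fin.sum_univ_two]

lemma dt_id2 : dt id2 = 1 := by simp [dt, id2]

lemma real_aux1 {p q : ℝ} (hp : 1 / 2 ≤ p) (hq : 1 / 2 ≤ q) :
    (max p q) ^ 2 * (1 / 4) ≤ p ^ 2 * q ^ 2 := by
  have hp2 : 1 / 4 ≤ p ^ 2 := by nlinarith
  have hq2 : 1 / 4 ≤ q ^ 2 := by nlinarith
  rcases le_total p q with h | h
  · rw [max_eq_right h]
    have := mul_le_mul_of_nonneg_right hp2 (sq_nonneg q)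
    linarith
  · rw [max_eq_left h]
    have := mul_le_mul_of_nonneg_right hq2 (sq_nonneg p)
    linarith

lemma real_aux2 {a b : ℝ} (ha : 0 ≤ a) (h : a + 1 < b) : a ≤ b ^ 2 := by nlinarith

lemma max_sq_norm (a b : ℝ) (ha : 0 ≤ a) (hb : 0 ≤ b) : (max a b) ^ 2 = max (a ^ 2) (b ^ 2) := by
  rcases le_total a b with h | h
  · rw [max_eq_right h, max_eq_right (pow_le_pow_left₀ ha h 2)]
  · rw [max_eq_left h, max_eq_left (pow_le_pow_left₀ hb h 2)]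

lemma exists_min {B C : Fin 2 → Fin 2 → Matrix (Fin 4) (Fin 4) ℂ} (hB : Pos2 B) (hC : Pos2 C) :
    ∃ g h : Fin 2 → Fin 2 → ℂ, dt g = 1 ∧ dt h = 1 ∧
      ∀ g' h' : Fin 2 → Fin 2 → ℂ, dt g' = 1 → dt h' = 1 → Fn B C (g, h) ≤ Fn B C (g', h') := by
  obtain ⟨c, hc, hlow⟩ := Fn_low hB hC
  set s : Set ((Fin 2 → Fin 2 → ℂ) × (Fin 2 → Fin 2 → ℂ)) :=
    {x | dt x.1 = 1 ∧ dt x.2 = 1} with hs
  have hsc : IsClosed s := by
    rw [hs, Set.setOf_and]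
    exact (isClosed_eq (dt_cont.comp continuous_fst) continuous_const).inter
      (isClosed_eq (dt_cont.comp continuous_snd) continuous_const)
  have hx0 : (id2, id2) ∈ s := ⟨dt_id2, dt_id2⟩
  obtain ⟨V, hV⟩ : ∃ V : ℝ, Fn B C (id2, id2) = V := ⟨_, rfl⟩
  have hhalf : ∀ g : Fin 2 → Fin 2 → ℂ, dt g = 1 → 1 / 2 ≤ ‖g‖ ^ 2 := by
    intro g hg
    have := norm_dt_le g
    rw [hg, norm_one] at this
    linarith
  obtain ⟨x, hx, hxm⟩ := (Fn_cont B C).continuousOn.exists_isMinOn' hsc hx0 (by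
    have hR : ∀ x ∈ s, Real.sqrt (4 * |V| / c + 1) < ‖x‖ → V ≤ Fn B C x := by
      intro x hx hbig
      have h1 := hhalf x.1 hx.1
      have h2 := hhalf x.2 hx.2
      have hlx := hlow x
      have hbig2 : 4 * |V| / c + 1 < ‖x‖ ^ 2 := by
        have := pow_lt_pow_left₀ hbig (Real.sqrt_nonneg _) two_ne_zero
        rwa [Real.sq_sqrt (by positivity)] at this
      have hnn : 0 ≤ 4 * |V| / c := by positivity
      have hx4 : 4 * |V| / c ≤ (‖x‖ ^ 2) ^ 2 := real_aux2 hnn hbig2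
      have hprod : (‖x‖ ^ 2) ^ 2 * (1 / 4) ≤ (‖x.1‖ ^ 2) ^ 2 * (‖x.2‖ ^ 2) ^ 2 := by
        rw [Prod.norm_def, max_sq_norm _ _ (norm_nonneg _) (norm_nonneg _)]
        exact real_aux1 h1 h2
      have h5 : |V| ≤ c * ((‖x‖ ^ 2) ^ 2 * (1 / 4)) := by
        rw [div_le_iff₀ hc] at hx4
        linarith
      calc V ≤ |V| := le_abs_self V
        _ ≤ c * ((‖x‖ ^ 2) ^ 2 * (1 / 4)) := h5
        _ ≤ c * ((‖x.1‖ ^ 2) ^ 2 * (‖x.2‖ ^ 2) ^ 2) := mul_le_mul_of_nonneg_left hprod hc.le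
        _ = c * (‖x.1‖ ^ 2) ^ 2 * (‖x.2‖ ^ 2) ^ 2 := by ring
        _ ≤ Fn B C x := hlx
    rw [Filter.eventually_inf_principal]
    have hcomp : (Metric.closedBall (0 : (Fin 2 → Fin 2 → ℂ) × (Fin 2 → Fin 2 → ℂ))
        (Real.sqrt (4 * |V| / c + 1)))ᶜ ∈ Filter.cocompact _ :=
      (isCompact_closedBall _ _).compl_mem_cocompact
    filter_upwards [hcomp] with x hx hxs
    rw [hV]
    apply hR x hxs
    rw [Set.mem_compl_iff, mem_closedBall_zero_iff, not_le] at hx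
    exact hx)
  exact ⟨x.1, x.2, hx.1, hx.2, fun g' h' hg' hh' => hxm (show (g', h') ∈ s from ⟨hg', hh'⟩)⟩

/-! ### boosts -/

/-- boosts in the three Pauli directions -/
noncomputable def bst (i : Fin 3) (t : ℝ) : Fin 2 → Fin 2 → ℂ :=
  if i = 0 then ![![(Real.cosh t : ℂ), (Real.sinh t : ℂ)], ![(Real.sinh t : ℂ), (Real.cosh t : ℂ)]]
  else if i = 1 then ![![(Real.cosh t : ℂ), Complex.I * (Real.sinh t : ℂ)],
    ![-Complex.I * (Real.sinh t : ℂ), (Real.cosh t : ℂ)]]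
  else ![![(Real.cosh t : ℂ) + (Real.sinh t : ℂ), 0],
    ![0, (Real.cosh t : ℂ) - (Real.sinh t : ℂ)]]

lemma cs_id (t : ℝ) : ((Real.cosh t : ℝ) : ℂ) * Real.cosh t - (Real.sinh t : ℂ) * Real.sinh t = 1 := by
  have := Real.cosh_sq t
  have h2 : Real.cosh t * Real.cosh t - Real.sinh t * Real.sinh t = 1 := by nlinarith
  exact_mod_cast h2

lemma dt_bst (i : Fin 3) (t : ℝ) : dt (bst i t) = 1 := by
  have h := cs_id t
  fin_cases i
  · simp only [bst, dt, Fin.zero_eta, if_true, Matrix.cons_val_zero, Matrix.cons_val_one]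
    linear_combination h
  · simp only [bst, dt, Fin.mk_one, Fin.isValue, one_ne_zero, if_false, if_true,
      Matrix.cons_val_zero, Matrix.cons_val_one]
    linear_combination h + (Real.sinh t : ℂ) * (Real.sinh t : ℂ) * Complex.I_mul_I
  · simp only [bst, dt, Fin.reduceFinMk, Fin.isValue, Fin.reduceEq, if_false,
      Matrix.cons_val_zero, Matrix.cons_val_one]
    linear_combination h

lemma pl0_bst (i : Fin 3) (t : ℝ) (B : Fin 2 → Fin 2 → Matrix (Fin 4) (Fin 4) ℂ) :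
    pl (act (bst i t) B) 0 =
      ((Real.cosh t ^ 2 + Real.sinh t ^ 2 : ℝ) : ℂ) • pl B 0 +
        ((2 * Real.cosh t * Real.sinh t : ℝ) : ℂ) • pl B i.succ := by
  fin_cases i
  · ext p q
    simp [bst, act, pl, Fin.sum_univ_two, -Complex.ofReal_cosh, -Complex.ofReal_sinh,
      Complex.conj_ofReal]
    ring
  · ext p q
    simp [bst, act, pl, Fin.sum_univ_two, -Complex.ofReal_cosh, -Complex.ofReal_sinh,
      Complex.conj_ofReal]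
    linear_combination (-(((Real.sinh t : ℝ) : ℂ) ^ 2) * (B 0 0 p q + B 1 1 p q) / 2) *
      Complex.I_mul_I
  · ext p q
    simp [bst, act, pl, Fin.sum_univ_two, -Complex.ofReal_cosh, -Complex.ofReal_sinh,
      Complex.conj_ofReal]
    ring

end Pool.Agent.H94.MD
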