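import Mathlib
import Pool.Agent.H94.MD.Core

set_option autoImplicit false
open scoped ComplexOrder
open Matrix Equiv Finset

namespace Pool.Agent.H94.MD

lemma pl0_posDef_aux {X : Matrix (Fin 4) (Fin 4) ℂ} (hX : X.PosDef) :
    ((((1 / 2 : ℝ)) : ℂ) • X).PosDef :=
  hX.smul (by exact_mod_cast (by norm_num : (0 : ℝ) < 1 / 2))

lemma pl_add_posDef {B : Fin 2 → Fin 2 → Matrix (Fin 4) (Fin 4) ℂ} (hB : Pos2 B) (i : Fin 3) :
    (pl B 0 + pl B i.succ).PosDef := by
  fin_cases i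
  · have h := pl0_posDef_aux (hB ![1, 1] (by intro h; simpa using congrFun h 0))
    convert h using 1
    ext p q
    simp [pl, Fin.sum_univ_two]
    ring
  · have h := pl0_posDef_aux (hB ![1, Complex.I] (by intro h; simpa using congrFun h 0))
    convert h using 1
    ext p q
    simp [pl, Fin.sum_univ_two]
    ring
  · have h := hB ![1, 0] (by intro h; simpa using congrFun h 0)
    convert h using 1
    ext p q
    simp [pl, Fin.sum_univ_two]
    ring

lemma pl_sub_posDef {B : Fin 2 → Fin 2 → Matrix (Fin 4) (Fin 4) ℂ} (hB : Pos2 B) (i : Fin 3) :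
    (pl B 0 + ((-1 : ℝ) : ℂ) • pl B i.succ).PosDef := by
  fin_cases i
  · have h := pl0_posDef_aux (hB ![1, -1] (by intro h; simpa using congrFun h 0))
    convert h using 1
    ext p q
    simp [pl, Fin.sum_univ_two]
    ring
  · have h := pl0_posDef_aux (hB ![1, -Complex.I] (by intro h; simpa using congrFun h 0))
    convert h using 1
    ext p q
    simp [pl, Fin.sum_univ_two]
    ring
  · have h := hB ![0, 1] (by intro h; simpa using congrFun h 1)
    convert h using 1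
    ext p q
    simp [pl, Fin.sum_univ_two]
    ring

lemma pl_herm {B : Fin 2 → Fin 2 → Matrix (Fin 4) (Fin 4) ℂ} (hB : Pos2 B) (μ : Fin 4) :
    (pl B μ).IsHermitian := by
  have key : ∀ i : Fin 3, (pl B 0).IsHermitian ∧ (pl B i.succ).IsHermitian := by
    intro i
    have h1 := (pl_add_posDef hB i).1
    have h2 := (pl_sub_posDef hB i).1
    constructor
    · have : pl B 0 = (((1 / 2 : ℝ)) : ℂ) • ((pl B 0 + pl B i.succ) +
          (pl B 0 + ((-1 : ℝ) : ℂ) • pl B i.succ)) := by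
        ext p q
        simp only [Matrix.add_apply, Matrix.smul_apply, smul_eq_mul]
        push_cast
        ring
      rw [this]
      exact isHermitian_smul_real (h1.add h2) _
    · have : pl B i.succ = (((1 / 2 : ℝ)) : ℂ) • ((pl B 0 + pl B i.succ) +
          ((-1 : ℝ) : ℂ) • (pl B 0 + ((-1 : ℝ) : ℂ) • pl B i.succ)) := by
        ext p q
        simp only [Matrix.add_apply, Matrix.smul_apply, smul_eq_mul]
        push_cast
        ring
      rw [this]
      exact isHermitian_smul_real (h1.add (isHermitian_smul_real h2 _)) _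
  refine Fin.cases ?_ (fun i => ?_) μ
  · exact (key 0).1
  · exact (key i).2

/-- a function of a boost parameter minimised at zero has vanishing mixed term -/
lemma mixed_zero {p q r : ℝ} (h : ∀ t : ℝ, p ≤ (Real.cosh t ^ 2 + Real.sinh t ^ 2) ^ 2 * p +
      2 * (Real.cosh t ^ 2 + Real.sinh t ^ 2) * (2 * Real.cosh t * Real.sinh t) * q +
      (2 * Real.cosh t * Real.sinh t) ^ 2 * r) : q = 0 := by
  have hmin : IsLocalMin (fun t : ℝ => (Real.cosh t ^ 2 + Real.sinh t ^ 2) ^ 2 * p +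
      2 * (Real.cosh t ^ 2 + Real.sinh t ^ 2) * (2 * Real.cosh t * Real.sinh t) * q +
      (2 * Real.cosh t * Real.sinh t) ^ 2 * r) 0 := by
    refine Filter.Eventually.of_forall fun t => ?_
    have := h t
    simpa using this
  have hc : HasDerivAt Real.cosh (Real.sinh 0) 0 := Real.hasDerivAt_cosh 0
  have hs : HasDerivAt Real.sinh (Real.cosh 0) 0 := Real.hasDerivAt_sinh 0
  have hA : HasDerivAt (fun t : ℝ => Real.cosh t ^ 2 + Real.sinh t ^ 2) 0 0 := by
    exact ((hc.pow 2).add (hs.pow 2)).congr_deriv (by simp)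
  have hB : HasDerivAt (fun t : ℝ => 2 * Real.cosh t * Real.sinh t) 2 0 := by
    exact ((hc.const_mul 2).mul hs).congr_deriv (by simp)
  have hD : HasDerivAt (fun t : ℝ => (Real.cosh t ^ 2 + Real.sinh t ^ 2) ^ 2 * p +
      2 * (Real.cosh t ^ 2 + Real.sinh t ^ 2) * (2 * Real.cosh t * Real.sinh t) * q +
      (2 * Real.cosh t * Real.sinh t) ^ 2 * r) (4 * q) 0 := by
    have h1 := (hA.pow 2).mul_const p
    have h2 := ((hA.const_mul 2).mul hB).mul_const q
    have h3 := (hB.pow 2).mul_const r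
    have h4 := (h1.add h2).add h3
    exact h4.congr_deriv (by rw [Real.cosh_zero, Real.sinh_zero]; norm_num)
  have := hmin.hasDerivAt_eq_zero hD
  linarith

lemma md_eq_D {X Y Z W : Matrix (Fin 4) (Fin 4) ℂ} (hX : X.IsHermitian) (hY : Y.IsHermitian)
    (hZ : Z.IsHermitian) (hW : W.IsHermitian) : md ![X, Y, Z, W] = ((D X Y Z W : ℝ) : ℂ) := by
  have h := md_star ![X, Y, Z, W] (by intro k; fin_cases k <;> assumption)
  unfold D
  rw [Complex.star_def] at h
  exact (Complex.conj_eq_iff_re.mp h).symm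

lemma D_balanced_first {a0 a1 b0 : Matrix (Fin 4) (Fin 4) ℂ} (s t : ℝ) :
    D ((s : ℂ) • a0 + (t : ℂ) • a1) ((s : ℂ) • a0 + (t : ℂ) • a1) b0 b0 =
      s ^ 2 * D a0 a0 b0 b0 + 2 * s * t * D a0 a1 b0 b0 + t ^ 2 * D a1 a1 b0 b0 := by
  simp only [D_add1, D_add2, D_smul1, D_smul2]
  rw [D_swap12 a1 a0]
  ring

/-- **Positivity of `c_2 · c_2` in dimension four.** -/
theorem Psi_pos {B C : Fin 2 → Fin 2 → Matrix (Fin 4) (Fin 4) ℂ} (hB : Pos2 B) (hC : Pos2 C) :
    0 < Psi B C := by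
  obtain ⟨g, h, hg, hh, hmin⟩ := exists_min hB hC
  have hP : Psi (act g B) (act h C) = Psi B C := by
    rw [Psi_act_left, Psi_act_right, hg, hh]
    simp
  rw [← hP]
  have hB' : Pos2 (act g B) := act_pos2 (by rw [hg]; exact one_ne_zero) hB
  have hC' : Pos2 (act h C) := act_pos2 (by rw [hh]; exact one_ne_zero) hC
  have hmin1 : ∀ k : Fin 2 → Fin 2 → ℂ, dt k = 1 →
      D (pl (act g B) 0) (pl (act g B) 0) (pl (act h C) 0) (pl (act h C) 0) ≤
      D (pl (act k (act g B)) 0) (pl (act k (act g B)) 0) (pl (act h C) 0) (pl (act h C) 0) := by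
    intro k hk
    rw [act_act]
    exact hmin (ml k g) h (by rw [dt_ml, hk, hg, one_mul]) hh
  have hmin2 : ∀ k : Fin 2 → Fin 2 → ℂ, dt k = 1 →
      D (pl (act g B) 0) (pl (act g B) 0) (pl (act h C) 0) (pl (act h C) 0) ≤
      D (pl (act g B) 0) (pl (act g B) 0) (pl (act k (act h C)) 0) (pl (act k (act h C)) 0) := by
    intro k hk
    rw [act_act]
    exact hmin g (ml k h) hg (by rw [dt_ml, hk, hh, one_mul])
  set B' := act g B with hB'def
  set C' := act h C with hC'def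
  have f1 : ∀ i : Fin 3, D (pl B' 0) (pl B' i.succ) (pl C' 0) (pl C' 0) = 0 := by
    intro i
    apply mixed_zero (p := D (pl B' 0) (pl B' 0) (pl C' 0) (pl C' 0))
      (r := D (pl B' i.succ) (pl B' i.succ) (pl C' 0) (pl C' 0))
    intro t
    have := hmin1 (bst i t) (dt_bst i t)
    rw [pl0_bst, D_balanced_first] at this
    exact this
  have f2 : ∀ i : Fin 3, D (pl B' 0) (pl B' 0) (pl C' 0) (pl C' i.succ) = 0 := by
    intro i
    rw [D_swap_pairs]
    apply mixed_zero (p := D (pl C' 0) (pl C' 0) (pl B' 0) (pl B' 0))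
      (r := D (pl C' i.succ) (pl C' i.succ) (pl B' 0) (pl B' 0))
    intro t
    have := hmin2 (bst i t) (dt_bst i t)
    rw [pl0_bst, D_swap_pairs _ _ (pl C' 0), D_swap_pairs (pl B' 0), D_balanced_first] at this
    exact this
  have hp : ∀ i j : Fin 3, 0 < D (pl B' 0) (pl B' 0) (pl C' 0) (pl C' 0) -
      3 * D (pl B' i.succ) (pl B' i.succ) (pl C' 0) (pl C' 0) -
      3 * D (pl B' 0) (pl B' 0) (pl C' j.succ) (pl C' j.succ) +
      9 * D (pl B' i.succ) (pl B' i.succ) (pl C' j.succ) (pl C' j.succ) := fun i j =>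
    pair_pos (pl_herm hB' _) (pl_herm hB' _) (pl_herm hC' _) (pl_herm hC' _)
      (pl_add_posDef hB' i) (pl_sub_posDef hB' i) (pl_add_posDef hC' j) (pl_sub_posDef hC' j)
      (f1 i) (f2 j)
  have hPsi : Psi B' C' = (((D (pl B' 0) (pl B' 0) (pl C' 0) (pl C' 0)
      - D (pl B' 0) (pl B' 0) (pl C' 1) (pl C' 1) - D (pl B' 0) (pl B' 0) (pl C' 2) (pl C' 2)
      - D (pl B' 0) (pl B' 0) (pl C' 3) (pl C' 3))
      - (D (pl B' 1) (pl B' 1) (pl C' 0) (pl C' 0)
      - D (pl B' 1) (pl B' 1) (pl C' 1) (pl C' 1) - D (pl B' 1) (pl B' 1) (pl C' 2) (pl C' 2)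
      - D (pl B' 1) (pl B' 1) (pl C' 3) (pl C' 3))
      - (D (pl B' 2) (pl B' 2) (pl C' 0) (pl C' 0)
      - D (pl B' 2) (pl B' 2) (pl C' 1) (pl C' 1) - D (pl B' 2) (pl B' 2) (pl C' 2) (pl C' 2)
      - D (pl B' 2) (pl B' 2) (pl C' 3) (pl C' 3))
      - (D (pl B' 3) (pl B' 3) (pl C' 0) (pl C' 0)
      - D (pl B' 3) (pl B' 3) (pl C' 1) (pl C' 1) - D (pl B' 3) (pl B' 3) (pl C' 2) (pl C' 2)
      - D (pl B' 3) (pl B' 3) (pl C' 3) (pl C' 3)) : ℝ) : ℂ) := by
    have e1 := pair_pl B' (C' 0 0) (C' 1 1)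
    have e2 := pair_pl B' (C' 0 1) (C' 1 0)
    have e3 : ∀ μ : Fin 4, md ![pl B' μ, pl B' μ, C' 0 0, C' 1 1] -
        md ![pl B' μ, pl B' μ, C' 0 1, C' 1 0] =
        ((D (pl B' μ) (pl B' μ) (pl C' 0) (pl C' 0) : ℝ) : ℂ)
        - ((D (pl B' μ) (pl B' μ) (pl C' 1) (pl C' 1) : ℝ) : ℂ)
        - ((D (pl B' μ) (pl B' μ) (pl C' 2) (pl C' 2) : ℝ) : ℂ)
        - ((D (pl B' μ) (pl B' μ) (pl C' 3) (pl C' 3) : ℝ) : ℂ) := by
      intro μ
      have := pair_pl C' (pl B' μ) (pl B' μ)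
      rw [mdc_swap_pairs (pl B' μ) (pl B' μ) (C' 0 0), mdc_swap_pairs (pl B' μ) (pl B' μ) (C' 0 1),
        this, mdc_swap_pairs (pl C' 0), mdc_swap_pairs (pl C' 1), mdc_swap_pairs (pl C' 2),
        mdc_swap_pairs (pl C' 3), md_eq_D (pl_herm hB' _) (pl_herm hB' _) (pl_herm hC' _)
        (pl_herm hC' _), md_eq_D (pl_herm hB' _) (pl_herm hB' _) (pl_herm hC' _)
        (pl_herm hC' _), md_eq_D (pl_herm hB' _) (pl_herm hB' _) (pl_herm hC' _)
        (pl_herm hC' _), md_eq_D (pl_herm hB' _) (pl_herm hB' _) (pl_herm hC' _)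
        (pl_herm hC' _)]
    have r0 := e3 0
    have r1 := e3 1
    have r2 := e3 2
    have r3 := e3 3
    unfold Psi
    push_cast
    linear_combination e1 - e2 + r0 - r1 - r2 - r3
  rw [hPsi]
  have q00 := hp 0 0; have q01 := hp 0 1; have q02 := hp 0 2
  have q10 := hp 1 0; have q11 := hp 1 1; have q12 := hp 1 2
  have q20 := hp 2 0; have q21 := hp 2 1; have q22 := hp 2 2
  have t0 : (0 : Fin 3).succ = (1 : Fin 4) := rfl
  have t1 : (1 : Fin 3).succ = (2 : Fin 4) := rfl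
  have t2 : (2 : Fin 3).succ = (3 : Fin 4) := rfl
  rw [t0] at q00 q01 q02 q10 q20
  rw [t1] at q01 q10 q11 q12 q21
  rw [t2] at q02 q12 q20 q21 q22
  have hfin : (0 : ℝ) < ((D (pl B' 0) (pl B' 0) (pl C' 0) (pl C' 0)
      - D (pl B' 0) (pl B' 0) (pl C' 1) (pl C' 1) - D (pl B' 0) (pl B' 0) (pl C' 2) (pl C' 2)
      - D (pl B' 0) (pl B' 0) (pl C' 3) (pl C' 3))
      - (D (pl B' 1) (pl B' 1) (pl C' 0) (pl C' 0)
      - D (pl B' 1) (pl B' 1) (pl C' 1) (pl C' 1) - D (pl B' 1) (pl B' 1) (pl C' 2) (pl C' 2)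
      - D (pl B' 1) (pl B' 1) (pl C' 3) (pl C' 3))
      - (D (pl B' 2) (pl B' 2) (pl C' 0) (pl C' 0)
      - D (pl B' 2) (pl B' 2) (pl C' 1) (pl C' 1) - D (pl B' 2) (pl B' 2) (pl C' 2) (pl C' 2)
      - D (pl B' 2) (pl B' 2) (pl C' 3) (pl C' 3))
      - (D (pl B' 3) (pl B' 3) (pl C' 0) (pl C' 0)
      - D (pl B' 3) (pl B' 3) (pl C' 1) (pl C' 1) - D (pl B' 3) (pl B' 3) (pl C' 2) (pl C' 2)
      - D (pl B' 3) (pl B' 3) (pl C' 3) (pl C' 3))) := by linarith
  exact_mod_cast hfin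

end Pool.Agent.H94.MD
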