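import Mathlib
import Pool.Agent.H94.MD.Scale
import Pool.Agent.H94.MD.Four
import Pool.Agent.Results.MP_c9aa11_ag.RankThree

set_option autoImplicit false
open scoped ComplexOrder
open Matrix Equiv Finset

namespace Pool.Agent.H94.MD

/-! ### families of size at most three -/

lemma normSq_pos' {z : ℂ} (hz : z ≠ 0) : (0 : ℂ) < z * star z := by
  have h4 : z * star z = ((Complex.normSq z : ℝ) : ℂ) := by
    rw [Complex.star_def, Complex.mul_conj]
  rw [h4]
  exact_mod_cast Complex.normSq_pos.mpr hz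

/-- reduction of positivity to scaled families -/
lemma Phi_pos_of_scaled {n : ℕ} (hn : 0 < n)
    (hgood : ∀ B : Fin n → Fin n → Matrix (Fin n) (Fin n) ℂ, PosF B →
      (∑ i, B i i) = (n : ℂ) • (1 : Matrix (Fin n) (Fin n) ℂ) →
      (∀ i j, (B i j).trace = if i = j then (n : ℂ) else 0) → 0 < Phi B)
    (B : Fin n → Fin n → Matrix (Fin n) (Fin n) ℂ) (hB : PosF B) : 0 < Phi B := by
  obtain ⟨g, h, hg, hh, h1, h2⟩ := exists_scaling hn hB
  have h3 := hgood (fun i j => h * acg g B i j * hᴴ) (conj_posF hh (acg_posF hg hB)) h1 h2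
  rw [Phi_conj, Phi_acg, ← mul_assoc] at h3
  exact (mul_pos_iff_of_pos_left (mul_pos (normSq_pos' hh) (normSq_pos' hg))).mp h3

lemma posF_herm {n : ℕ} {κ : Type} {B : Fin n → Fin n → Matrix κ κ ℂ} [Fintype κ]
    [DecidableEq κ] (hB : PosF B) (k l : Fin n) (a b : κ) : star (B l k b a) = B k l a b := by
  have h := polarize (Matrix.of fun k l => (star (B l k b a) - B k l a b) +
    (1 : Matrix (Fin n) (Fin n) ℂ) k l) (by
    intro v
    have h1 : ∑ k, ∑ l, (v k * star (v l)) * (star (B l k b a) - B k l a b) = 0 := by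
      by_cases hv : v = 0
      · subst hv; simp
      · have h2 := congrFun (congrFun (hB v hv).isHermitian a) b
        simp only [Matrix.conjTranspose_apply, Matrix.sum_apply, Matrix.smul_apply, smul_eq_mul,
          star_sum, star_mul', star_star] at h2
        rw [Finset.sum_comm] at h2
        simp only [mul_sub, Finset.sum_sub_distrib]
        rw [← h2, sub_eq_zero]
        exact Finset.sum_congr rfl fun i _ => Finset.sum_congr rfl fun j _ => by ring
    simp only [Matrix.of_apply]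
    have h3 : ∑ k, ∑ l, (v k * star (v l)) * ((star (B l k b a) - B k l a b) +
        (1 : Matrix (Fin n) (Fin n) ℂ) k l) = ∑ k, ∑ l, (v k * star (v l)) *
        (1 : Matrix (Fin n) (Fin n) ℂ) k l := by
      simp only [mul_add, Finset.sum_add_distrib]
      rw [h1, zero_add]
    rw [h3]
    refine Finset.sum_congr rfl fun k _ => ?_
    rw [Finset.sum_eq_single k]
    · simp
    · intro l _ hl
      rw [Matrix.one_apply_ne (Ne.symm hl), mul_zero]
    · simp)
  have h1 := congrFun (congrFun h k) l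
  rw [Matrix.of_apply] at h1
  linear_combination h1

lemma sum_perm_two (f : Perm (Fin 2) → ℂ) : ∑ α, f α = f 1 + f (Equiv.swap 0 1) := by
  have h : (Finset.univ : Finset (Perm (Fin 2))) = {1, Equiv.swap 0 1} := by decide
  rw [h, Finset.sum_pair (by decide)]

lemma Phi_two (B : Fin 2 → Fin 2 → Matrix (Fin 2) (Fin 2) ℂ) :
    Phi B = (B 0 0 0 0 * B 1 1 1 1 + B 0 0 1 1 * B 1 1 0 0 - B 0 0 0 1 * B 1 1 1 0 -
        B 0 0 1 0 * B 1 1 0 1) -
      (B 0 1 0 0 * B 1 0 1 1 + B 0 1 1 1 * B 1 0 0 0 - B 0 1 0 1 * B 1 0 1 0 -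
        B 0 1 1 0 * B 1 0 0 1) := by
  unfold Phi
  rw [sum_perm_two, sum_perm_two, sum_perm_two]
  simp only [Matrix.det_fin_two, Matrix.of_apply, sg, Perm.sign_one, Perm.one_apply,
    Perm.sign_swap (show (0 : Fin 2) ≠ 1 by decide), Equiv.swap_apply_left, Equiv.swap_apply_right]
  push_cast
  ring

lemma Phi_pos_two (B : Fin 2 → Fin 2 → Matrix (Fin 2) (Fin 2) ℂ) (hB : PosF B) : 0 < Phi B := by
  refine Phi_pos_of_scaled (by norm_num) ?_ B hB
  intro B hB h1 h2
  have hherm : (B 0 0).PosDef := by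
    have h := hB ![1, 0] (by intro h; have := congrFun h 0; simp at this)
    convert h using 1
    simp [Fin.sum_univ_two]
  -- hermitian symmetry
  have hs : ∀ a b, B 1 0 a b = star (B 0 1 b a) := fun a b => (posF_herm hB 1 0 a b).symm
  have t00 := h2 0 0
  have t01 := h2 0 1
  rw [Matrix.trace_fin_two, if_pos rfl] at t00
  rw [Matrix.trace_fin_two, if_neg (by decide)] at t01
  have hsum : ∀ a b, B 0 0 a b + B 1 1 a b = if a = b then 2 else 0 := by
    intro a b
    have := congrFun (congrFun h1 a) b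
    simp only [Fin.sum_univ_two, Matrix.add_apply, Matrix.smul_apply, Matrix.one_apply,
      smul_eq_mul] at this
    rw [this]
    split_ifs <;> simp
  have s00 := hsum 0 0
  have s01 := hsum 0 1
  have s10 := hsum 1 0
  have s11 := hsum 1 1
  rw [if_pos rfl] at s00 s11
  rw [if_neg (by decide)] at s01 s10
  have hh : B 0 0 1 0 = star (B 0 0 0 1) := by
    have := congrFun (congrFun hherm.isHermitian 1) 0
    simpa [Matrix.conjTranspose_apply] using this.symm
  have hp0 := hherm.diag_pos (i := 0)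
  have hp1 := hherm.diag_pos (i := 1)
  push_cast at t00
  have e : Phi B = B 0 0 0 0 * B 0 0 0 0 + B 0 0 1 1 * B 0 0 1 1 +
      2 * (B 0 0 0 1 * star (B 0 0 0 1)) + 2 * (B 0 1 0 0 * star (B 0 1 0 0)) +
      (B 0 1 0 1 * star (B 0 1 0 1) + B 0 1 1 0 * star (B 0 1 1 0)) := by
    rw [Phi_two, hs, hs, hs, hs, hh]
    have u11 : B 0 1 1 1 = - B 0 1 0 0 := by linear_combination t01
    have v11 : B 1 1 1 1 = B 0 0 0 0 := by linear_combination s11 - t00
    have v00 : B 1 1 0 0 = B 0 0 1 1 := by linear_combination s00 - t00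
    have v01 : B 1 1 0 1 = - B 0 0 0 1 := by linear_combination s01
    have v10 : B 1 1 1 0 = - star (B 0 0 0 1) := by
      rw [hh] at s10
      linear_combination s10
    rw [u11, v11, v00, v01, v10, star_neg]
    ring
  rw [e]
  have k1 : 0 < B 0 0 0 0 * B 0 0 0 0 := mul_pos hp0 hp0
  have k2 : 0 < B 0 0 1 1 * B 0 0 1 1 := mul_pos hp1 hp1
  have k3 : 0 ≤ 2 * (B 0 0 0 1 * star (B 0 0 0 1)) :=
    mul_nonneg zero_le_two (mul_star_self_nonneg _)
  have k4 : 0 ≤ 2 * (B 0 1 0 0 * star (B 0 1 0 0)) :=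
    mul_nonneg zero_le_two (mul_star_self_nonneg _)
  have k5 : 0 ≤ B 0 1 0 1 * star (B 0 1 0 1) := mul_star_self_nonneg _
  have k6 : 0 ≤ B 0 1 1 0 * star (B 0 1 1 0) := mul_star_self_nonneg _
  exact add_pos_of_pos_of_nonneg (add_pos_of_pos_of_nonneg (add_pos_of_pos_of_nonneg
    (add_pos k1 k2) k3) k4) (add_nonneg k5 k6)

lemma frozen_eq {n : ℕ} (B : Fin n → Fin n → Matrix (Fin n) (Fin n) ℂ) :
    ∑ σ : Equiv.Perm (Fin n), ((Equiv.Perm.sign σ : ℤ) : ℂ) *
      ((1 / (Nat.factorial n : ℂ)) *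
        ∑ α : Equiv.Perm (Fin n), ∑ ρ : Equiv.Perm (Fin n),
          ((Equiv.Perm.sign α : ℤ) : ℂ) * ((Equiv.Perm.sign ρ : ℤ) : ℂ) *
            ∏ k : Fin n, B k (σ k) (α k) (ρ k)) = (1 / (Nat.factorial n : ℂ)) * Phi B := by
  rw [Phi_eq, Finset.mul_sum]
  refine Finset.sum_congr rfl fun σ _ => ?_
  simp only [mdg, sg]
  ring

lemma fact_pos (n : ℕ) : (0 : ℂ) < 1 / (Nat.factorial n : ℂ) := by
  have h0 : (0 : ℝ) < 1 / (Nat.factorial n : ℝ) := by positivity
  have h1 : (0 : ℂ) < ((1 / (Nat.factorial n : ℝ) : ℝ) : ℂ) := by exact_mod_cast h0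
  have h2 : ((1 / (Nat.factorial n : ℝ) : ℝ) : ℂ) = 1 / (Nat.factorial n : ℂ) := by push_cast; rfl
  rwa [h2] at h1

lemma Phi_pos_three (B : Fin 3 → Fin 3 → Matrix (Fin 3) (Fin 3) ℂ) (hB : PosF B) : 0 < Phi B := by
  refine Phi_pos_of_scaled (by norm_num) ?_ B hB
  intro B hB h1 h2
  have h3 := Pool.Agent.Results.MP_c9aa11_ag.RankThree.result B hB h1 h2
  rw [frozen_eq] at h3
  exact (mul_pos_iff_of_pos_left (fact_pos 3)).mp h3

lemma Phi_pos_fin (n : ℕ) (hn : n ≤ 3) (B : Fin n → Fin n → Matrix (Fin n) (Fin n) ℂ)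
    (hB : PosF B) : 0 < Phi B := by
  interval_cases n
  · have : Phi B = 1 := by
      unfold Phi
      simp [sg]
    rw [this]
    exact one_pos
  · have h := hB ![1] (by intro h; have := congrFun h 0; simp at this)
    have h1 : (B 0 0).PosDef := by
      convert h using 1
      simp
    have h2 : Phi B = B 0 0 0 0 := by
      unfold Phi
      simp [sg, Matrix.det_fin_one]
    rw [h2]
    exact h1.diag_pos
  · exact Phi_pos_two B hB
  · exact Phi_pos_three B hB

lemma posF_reindex {ι κ κ' : Type} [Fintype ι] [DecidableEq ι] [Fintype κ] [DecidableEq κ]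
    {ι' : Type} [Fintype ι'] [DecidableEq ι'] [Fintype κ'] [DecidableEq κ'] (e : ι' ≃ ι)
    (f : κ' ≃ κ) {B : ι → ι → Matrix κ κ ℂ} (hB : PosF B) :
    PosF (fun i j : ι' => (B (e i) (e j)).submatrix f f) := by
  intro ξ hξ
  have h := hB (ξ ∘ e.symm) (by
    intro h0
    apply hξ
    funext i
    have := congrFun h0 (e i)
    simpa using this)
  have h2 := h.submatrix f.injective
  convert h2 using 1
  ext a b
  simp only [Matrix.sum_apply, Matrix.smul_apply, Matrix.submatrix_apply, Function.comp]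
  rw [← Equiv.sum_comp e]
  refine Finset.sum_congr rfl fun i _ => ?_
  rw [← Equiv.sum_comp e]
  simp

theorem Phi_pos_le3 {U : Type} [Fintype U] [DecidableEq U] (hU : Fintype.card U ≤ 3)
    (B : U → U → Matrix U U ℂ) (hB : PosF B) : 0 < Phi B := by
  let e : Fin (Fintype.card U) ≃ U := (Fintype.equivFin U).symm
  rw [← Phi_reindex e]
  exact Phi_pos_fin _ hU _ (posF_reindex e e hB)

end Pool.Agent.H94.MD
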