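import Mathlib
import Pool.Agent.H21.Wick
import Pool.Agent.H94.MD.Phi

set_option autoImplicit false
open scoped ComplexOrder
open Matrix Equiv Finset MeasureTheory

namespace Pool.Agent.H94.MD

open Pool.Agent.H21.Wick

variable {U V T : Type} [Fintype U] [DecidableEq U] [Fintype V] [DecidableEq V]
  [Fintype T] [DecidableEq T]

/-! ### permutations fixing the second summand -/

lemma sum_fix (f : Perm (U ⊕ V) → ℂ) (hf : ∀ α, (∃ v : V, α (Sum.inr v) ≠ Sum.inr v) → f α = 0) :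
    ∑ α, f α = ∑ α₀ : Perm U, f (Perm.sumCongr α₀ 1) := by
  symm
  refine Finset.sum_of_injOn (fun α₀ => Perm.sumCongr α₀ 1) ?_ ?_ ?_ ?_
  · intro σ₁ _ σ₂ _ h
    have h2 : ∀ x, Equiv.Perm.sumCongr σ₁ (1 : Perm V) x = Equiv.Perm.sumCongr σ₂ 1 x :=
      fun x => DFunLike.congr_fun h x
    ext x
    have := h2 (Sum.inl x)
    simpa using this
  · intro x _
    simp
  · intro τ _ hτ
    apply hf
    by_contra hcon
    push Not at hcon
    apply hτ
    have hm : τ ∈ (Equiv.Perm.sumCongrHom U V).range := by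
      apply Equiv.Perm.mem_sumCongrHom_range_of_perm_mapsTo_inl
      rintro _ ⟨a, rfl⟩
      rcases hx : τ (Sum.inl a) with a2 | b
      · exact ⟨a2, rfl⟩
      · exfalso
        have h3 := hcon b
        have h4 : τ (Sum.inl a) = τ (Sum.inr b) := by rw [hx, h3]
        exact absurd (τ.injective h4) (by simp)
    obtain ⟨p, hp⟩ := hm
    refine ⟨p.1, by simp, ?_⟩
    have h5 : p.2 = 1 := by
      ext v
      have h6 := hcon v
      rw [← hp] at h6
      simpa using h6
    rw [← hp]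
    show Perm.sumCongr p.1 1 = Equiv.Perm.sumCongrHom U V p
    rw [Equiv.Perm.sumCongrHom_apply, h5]
  · intro σ _
    rfl

lemma Phi_e (B : U → U → Matrix (U ⊕ V) (U ⊕ V) ℂ) :
    Phi (bsum B (rk1 (fun v : V => Pi.single (Sum.inr v) (1 : ℂ)))) =
      Phi (fun i j => (B i j).submatrix Sum.inl Sum.inl) := by
  have hz : ∀ α : Perm (U ⊕ V), (∃ v : V, α (Sum.inr v) ≠ Sum.inr v) →
      ∏ k : V, (Pi.single (Sum.inr k) (1 : ℂ) : (U ⊕ V) → ℂ) (α (Sum.inr k)) = 0 := by
    rintro α ⟨v, hv⟩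
    refine Finset.prod_eq_zero (Finset.mem_univ v) ?_
    rw [Pi.single_apply, if_neg hv]
  rw [Phi_rk1, sum_fix]
  · unfold Phi
    refine Finset.sum_congr rfl fun α _ => ?_
    rw [sum_fix]
    · refine Finset.sum_congr rfl fun ρ _ => ?_
      simp only [sg_sumCongr, sg_one, mul_one, dU, Perm.sumCongr_apply, Sum.map_inl, Sum.map_inr,
        Perm.one_apply, Pi.single_eq_same, star_one, Finset.prod_const_one, Matrix.submatrix_apply]
    · rintro ρ ⟨v, hv⟩
      have : ∏ k : V, star ((Pi.single (Sum.inr k) (1 : ℂ) : (U ⊕ V) → ℂ) (ρ (Sum.inr k))) = 0 := by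
        refine Finset.prod_eq_zero (Finset.mem_univ v) ?_
        rw [Pi.single_apply, if_neg hv, star_zero]
      rw [this]
      ring
  · intro α hα
    refine Finset.sum_eq_zero fun ρ _ => ?_
    rw [hz α hα]
    ring

/-! ### dependent vectors -/

lemma Phi_dep (B : U → U → Matrix (U ⊕ V) (U ⊕ V) ℂ) (x : V → (U ⊕ V) → ℂ) (w : V → ℂ)
    (hw : w ≠ 0) (hx : ∀ a, ∑ v, x v a * w v = 0) : Phi (bsum B (rk1 x)) = 0 := by
  rw [Phi_rk1, Finset.sum_comm]
  refine Finset.sum_eq_zero fun ρ _ => ?_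
  have h1 : ∀ σ : Perm U, ∑ α : Perm (U ⊕ V), sg α *
      ((∏ k, B k (σ k) (α (Sum.inl k)) (ρ (Sum.inl k))) * ∏ k, x k (α (Sum.inr k))) = 0 := by
    intro σ
    let M : Matrix (U ⊕ V) (U ⊕ V) ℂ := Matrix.of fun a i =>
      Sum.elim (fun k => B k (σ k) a (ρ (Sum.inl k))) (fun v => x v a) i
    have hM : M.det = 0 := by
      rw [← Matrix.exists_mulVec_eq_zero_iff]
      refine ⟨Sum.elim (fun _ => 0) w, ?_, ?_⟩
      · intro h0
        apply hw
        funext v
        exact congrFun h0 (Sum.inr v)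
      · funext a
        simp only [M, Matrix.mulVec, dotProduct, Matrix.of_apply, Fintype.sum_sum_type,
          Sum.elim_inl, Sum.elim_inr, mul_zero, Finset.sum_const_zero, zero_add, hx, Pi.zero_apply]
    rw [← hM, Matrix.det_apply']
    refine Finset.sum_congr rfl fun α _ => ?_
    rw [Fintype.prod_sum_type]
    simp only [M, Matrix.of_apply, Sum.elim_inl, Sum.elim_inr, sg]
  have h2 : ∀ α : Perm (U ⊕ V), sg α * sg ρ *
      (dU B α ρ * ((∏ k, x k (α (Sum.inr k))) * ∏ k, star (x k (ρ (Sum.inr k))))) =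
      ∑ σ : Perm U, (sg ρ * sg σ * ∏ k, star (x k (ρ (Sum.inr k)))) * (sg α *
      ((∏ k, B k (σ k) (α (Sum.inl k)) (ρ (Sum.inl k))) * ∏ k, x k (α (Sum.inr k)))) := by
    intro α
    rw [dU, det_eq_sg, Finset.sum_mul, Finset.mul_sum]
    refine Finset.sum_congr rfl fun σ _ => ?_
    simp only [Matrix.of_apply]
    ring
  rw [Finset.sum_congr rfl fun α _ => h2 α, Finset.sum_comm]
  refine Finset.sum_eq_zero fun σ _ => ?_
  rw [← Finset.mul_sum, h1, mul_zero]

/-! ### independent vectors -/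

lemma exists_G (x : V → (U ⊕ V) → ℂ) (hx : LinearIndependent ℂ x) :
    ∃ G : Matrix (U ⊕ V) (U ⊕ V) ℂ, G.det ≠ 0 ∧ ∀ v, G *ᵥ x v = Pi.single (Sum.inr v) 1 := by
  classical
  set R := Submodule.span ℂ (Set.range x) with hR
  obtain ⟨C, hC⟩ := Submodule.exists_isCompl R
  have hfR : Module.finrank ℂ R = Fintype.card V := finrank_span_eq_card hx
  have hsum := Submodule.finrank_add_eq_of_isCompl hC
  rw [hfR, Module.finrank_fintype_fun_eq_card, Fintype.card_sum] at hsum
  have hfC : Module.finrank ℂ C = Fintype.card U := by omega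
  let b : Module.Basis U ℂ C := (Module.finBasis ℂ C).reindex
    (Fintype.equivOfCardEq (by rw [Fintype.card_fin, hfC]))
  have hb : LinearIndependent ℂ (fun u => (b u : (U ⊕ V) → ℂ)) :=
    b.linearIndependent.map' C.subtype (Submodule.ker_subtype C)
  have hle : Submodule.span ℂ (Set.range fun u => (b u : (U ⊕ V) → ℂ)) ≤ C := by
    rw [Submodule.span_le]
    rintro _ ⟨i, rfl⟩
    exact (b i).2
  have hy : LinearIndependent ℂ (Sum.elim (fun u => (b u : (U ⊕ V) → ℂ)) x) := by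
    refine LinearIndependent.sum_type hb hx ?_
    exact (hC.disjoint.symm).mono_left hle
  let M : Matrix (U ⊕ V) (U ⊕ V) ℂ := Matrix.of fun a i => Sum.elim
    (fun u => (b u : (U ⊕ V) → ℂ)) x i a
  have hM : IsUnit M := by
    rw [← Matrix.linearIndependent_cols_iff_isUnit]
    exact hy
  have hMd : IsUnit M.det := (Matrix.isUnit_iff_isUnit_det _).mp hM
  refine ⟨M⁻¹, ?_, ?_⟩
  · rw [Matrix.det_nonsing_inv]
    simpa using hMd.ne_zero
  · intro v
    have h1 : x v = M *ᵥ (Pi.single (Sum.inr v) 1) := by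
      funext a
      rw [Matrix.mulVec_single_one]
      rfl
    rw [h1, Matrix.mulVec_mulVec, Matrix.nonsing_inv_mul _ hMd, Matrix.one_mulVec]

lemma bsum_conj (G : Matrix (U ⊕ V) (U ⊕ V) ℂ) (B : U → U → Matrix (U ⊕ V) (U ⊕ V) ℂ)
    (x : V → (U ⊕ V) → ℂ) :
    (fun i j => G * (bsum B (rk1 x)) i j * Gᴴ) =
      bsum (fun i j => G * B i j * Gᴴ) (rk1 (fun v => G *ᵥ x v)) := by
  funext i j
  rcases i with u | v <;> rcases j with u' | v'
  · rfl
  · simp [bsum]
  · simp [bsum]
  · simp only [bsum, Sum.elim_inr, rk1]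
    by_cases h : v = v'
    · subst h
      simp only [if_true]
      ext a b
      simp only [Matrix.mul_apply, Matrix.of_apply, Matrix.conjTranspose_apply, Matrix.mulVec,
        dotProduct, star_sum, star_mul', Finset.sum_mul, Finset.mul_sum]
      refine Finset.sum_congr rfl fun c _ => Finset.sum_congr rfl fun d _ => ?_
      ring
    · simp [h]

lemma compress_posDef (G M : Matrix (U ⊕ V) (U ⊕ V) ℂ) (hG : G.det ≠ 0) (hM : M.PosDef) :
    ((G * M * Gᴴ).submatrix Sum.inl Sum.inl : Matrix U U ℂ).PosDef := by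
  have h1 : (G * M * Gᴴ).PosDef := by
    refine hM.mul_mul_conjTranspose_same ?_
    exact Matrix.vecMul_injective_iff_isUnit.mpr
      ((Matrix.isUnit_iff_isUnit_det _).mpr (isUnit_iff_ne_zero.mpr hG))
  exact h1.submatrix Sum.inl_injective

/-- Positivity of `Phi` for rank one second part, from positivity of all compressions. -/
lemma Phi_rk1_pos (B : U → U → Matrix (U ⊕ V) (U ⊕ V) ℂ)
    (good : ∀ G : Matrix (U ⊕ V) (U ⊕ V) ℂ, G.det ≠ 0 →
      0 < Phi (fun i j => (G * B i j * Gᴴ).submatrix Sum.inl Sum.inl : U → U → Matrix U U ℂ))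
    (x : V → (U ⊕ V) → ℂ) (hx : LinearIndependent ℂ x) : 0 < Phi (bsum B (rk1 x)) := by
  obtain ⟨G, hG, hGx⟩ := exists_G x hx
  have h1 := Phi_conj G (bsum B (rk1 x))
  rw [bsum_conj] at h1
  simp only [hGx] at h1
  rw [Phi_e] at h1
  have h2 := good G hG
  rw [h1] at h2
  have h3 : (0 : ℂ) < G.det * star G.det := by
    have h4 : G.det * star G.det = ((Complex.normSq G.det : ℝ) : ℂ) := by
      rw [Complex.star_def, Complex.mul_conj]
    rw [h4]
    exact_mod_cast Complex.normSq_pos.mpr hG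
  exact (mul_pos_iff_of_pos_left h3).mp h2

lemma Phi_rk1_nonneg (B : U → U → Matrix (U ⊕ V) (U ⊕ V) ℂ)
    (good : ∀ G : Matrix (U ⊕ V) (U ⊕ V) ℂ, G.det ≠ 0 →
      0 < Phi (fun i j => (G * B i j * Gᴴ).submatrix Sum.inl Sum.inl : U → U → Matrix U U ℂ))
    (x : V → (U ⊕ V) → ℂ) : 0 ≤ Phi (bsum B (rk1 x)) := by
  by_cases hx : LinearIndependent ℂ x
  · exact (Phi_rk1_pos B good x hx).le
  · rw [Fintype.not_linearIndependent_iff] at hx
    obtain ⟨w, hw1, i, hi⟩ := hx
    rw [Phi_dep B x w (by intro h; exact hi (congrFun h i))]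
    intro a
    have := congrFun hw1 a
    simpa [Finset.sum_apply, mul_comm] using this

/-! ### the Gaussian average -/

/-- the vectors `∑ z_t m_t` -/
noncomputable def xz (m : T → V → (U ⊕ V) → ℂ) (z : T → ℂ) : V → (U ⊕ V) → ℂ :=
  fun v a => ∑ t, m t v a * z t

lemma Sm_wick (B : U → U → Matrix (U ⊕ V) (U ⊕ V) ℂ) (m : T → V → (U ⊕ V) → ℂ) :
    Integrable (fun z : T → ℂ => Phi (bsum B (rk1 (xz m z))) * wt z) ∧
    ∫ z : T → ℂ, Phi (bsum B (rk1 (xz m z))) * wt z =
      (Real.pi : ℂ) ^ (Fintype.card T) * Sm B m := by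
  have hw := fun α ρ : Perm (U ⊕ V) =>
    wick (fun (k : V) (t : T) => m t k (α (Sum.inr k)))
      (fun (k : V) (t : T) => star (m t k (ρ (Sum.inr k))))
  have hexp : ∀ z : T → ℂ, Phi (bsum B (rk1 (xz m z))) * wt z =
      ∑ α : Perm (U ⊕ V), ∑ ρ : Perm (U ⊕ V), (sg α * sg ρ * dU B α ρ) *
        ((∏ k, ∑ t, m t k (α (Sum.inr k)) * z t) *
          (∏ k, ∑ t, star (m t k (ρ (Sum.inr k))) * star (z t)) * wt z) := by
    intro z
    rw [Phi_rk1, Finset.sum_mul]
    refine Finset.sum_congr rfl fun α _ => ?_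
    rw [Finset.sum_mul]
    refine Finset.sum_congr rfl fun ρ _ => ?_
    simp only [xz, star_sum, star_mul']
    ring
  constructor
  · simp only [hexp]
    refine integrable_finsetSum _ fun α _ => integrable_finsetSum _ fun ρ _ => ?_
    exact ((hw α ρ).1).const_mul _
  · simp only [hexp]
    rw [integral_finsetSum _ (fun α _ => integrable_finsetSum _ fun ρ _ =>
      ((hw α ρ).1).const_mul _), Sm, Finset.mul_sum]
    refine Finset.sum_congr rfl fun α _ => ?_
    rw [integral_finsetSum _ (fun ρ _ => ((hw α ρ).1).const_mul _), Finset.mul_sum]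
    refine Finset.sum_congr rfl fun ρ _ => ?_
    rw [integral_const_mul, (hw α ρ).2, PV]
    ring

end Pool.Agent.H94.MD
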