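import Mathlib
import Pool.Agent.H21.Wick
import Pool.Agent.H94.MD.Red

set_option autoImplicit false
open scoped ComplexOrder
open Matrix Equiv Finset MeasureTheory

namespace Pool.Agent.H94.MD

open Pool.Agent.H21.Wick

/-- A perturbation lemma at a point of maximal rank (as in helper21's `Decomposable`). -/
lemma rank_lemma {n K : Type} [Fintype n] [DecidableEq n] (N : (K → ℂ) → Matrix n n ℂ)
    (hlin : ∀ (z z' : K → ℂ) (ε : ℝ), N (z + (ε : ℂ) • z') = N z + (ε : ℂ) • N z') (z₀ : K → ℂ)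
    (hmax : ∀ z, (N z).rank ≤ (N z₀).rank) (k u : n → ℂ) (hk : N z₀ *ᵥ k = 0)
    (hu : u ᵥ* N z₀ = 0) (z' : K → ℂ) : u ⬝ᵥ (N z' *ᵥ k) = 0 := by
  by_contra hne
  set R := LinearMap.range (N z₀).mulVecLin with hR
  let b := Module.finBasis ℂ R
  have hx : ∀ i, ∃ x : n → ℂ, N z₀ *ᵥ x = (b i : n → ℂ) := fun i => (b i).2
  choose x hx using hx
  let F : ℝ → (Option (Fin (Module.finrank ℂ R)) → n → ℂ) := fun ε o =>
    o.elim (N z' *ᵥ k) (fun i => N z₀ *ᵥ x i + (ε : ℂ) • (N z' *ᵥ x i))
  have hF0 : LinearIndependent ℂ (F 0) := by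
    have h1 : F 0 = fun o => Option.casesOn' o (N z' *ᵥ k) (fun i => (b i : n → ℂ)) := by
      funext o
      cases o with
      | none => rfl
      | some i => simp [F, hx]
    rw [h1, linearIndependent_option']
    constructor
    · exact b.linearIndependent.map' R.subtype (Submodule.ker_subtype R)
    · intro hmem
      have h2 : Submodule.span ℂ (Set.range fun i => (b i : n → ℂ)) ≤ R := by
        rw [Submodule.span_le]
        rintro _ ⟨i, rfl⟩
        exact (b i).2
      obtain ⟨y, hy⟩ := h2 hmem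
      apply hne
      rw [← hy, mulVecLin_apply, dotProduct_mulVec, hu, zero_dotProduct]
  have hFc : Continuous F := by
    refine continuous_pi fun o => ?_
    cases o with
    | none => exact continuous_const
    | some i =>
      exact continuous_const.add (Complex.continuous_ofReal.smul continuous_const)
  have hev : ∀ᶠ ε in nhds (0 : ℝ), LinearIndependent ℂ (F ε) :=
    hFc.continuousAt.eventually (isOpen_setOfPred_linearIndependent.mem_nhds hF0)
  obtain ⟨δ, hδ, hball⟩ := Metric.eventually_nhds_iff.mp hev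
  have hli : LinearIndependent ℂ (F (δ / 2)) := by
    apply hball
    rw [Real.dist_eq, sub_zero, abs_of_pos (by positivity)]
    linarith
  have hε : ((δ / 2 : ℝ) : ℂ) ≠ 0 := by
    exact_mod_cast (by positivity : (δ / 2 : ℝ) ≠ 0)
  have hrank := hmax (z₀ + ((δ / 2 : ℝ) : ℂ) • z')
  have hspan : Submodule.span ℂ (Set.range (F (δ / 2))) ≤
      LinearMap.range (N (z₀ + ((δ / 2 : ℝ) : ℂ) • z')).mulVecLin := by
    rw [Submodule.span_le]
    rintro _ ⟨o, rfl⟩
    cases o with
    | none =>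
      refine ⟨(((δ / 2 : ℝ) : ℂ))⁻¹ • k, ?_⟩
      rw [mulVecLin_apply, mulVec_smul, hlin, add_mulVec, hk, zero_add, smul_mulVec, smul_smul,
        inv_mul_cancel₀ hε, one_smul]
      rfl
    | some i =>
      refine ⟨x i, ?_⟩
      rw [mulVecLin_apply, hlin, add_mulVec, smul_mulVec]
      rfl
  have h3 := Submodule.finrank_mono hspan
  rw [finrank_span_eq_card hli, Fintype.card_option, Fintype.card_fin] at h3
  rw [Matrix.rank, Matrix.rank] at hrank
  rw [← hR] at hrank
  omega

variable {U V T : Type} [Fintype U] [DecidableEq U] [Fintype V] [DecidableEq V]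
  [Fintype T] [DecidableEq T]

lemma exists_indep (m : T → V → (U ⊕ V) → ℂ)
    (hyp : ∀ (w : V → ℂ) (u : U ⊕ V → ℂ), w ≠ 0 → u ≠ 0 →
      (∀ t, ∑ a, ∑ v, u a * (m t v a * w v) = 0) → False) :
    ∃ z, LinearIndependent ℂ (xz m z) := by
  by_contra hcon
  push Not at hcon
  let N : (T → ℂ) → Matrix (U ⊕ V) (U ⊕ V) ℂ := fun z =>
    Matrix.of fun a y => Sum.elim (fun _ => 0) (fun v => xz m z v a) y
  have hlin : ∀ (z z' : T → ℂ) (ε : ℝ), N (z + (ε : ℂ) • z') = N z + (ε : ℂ) • N z' := by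
    intro z z' ε
    ext a y
    rcases y with u | v
    · simp [N]
    · simp only [N, xz, Matrix.of_apply, Sum.elim_inr, Matrix.add_apply, Matrix.smul_apply,
        Pi.add_apply, Pi.smul_apply, smul_eq_mul, Finset.mul_sum, ← Finset.sum_add_distrib]
      exact Finset.sum_congr rfl fun t _ => by ring
  obtain ⟨z₀, hz₀⟩ : ∃ z₀, ∀ z, (N z).rank ≤ (N z₀).rank := by
    let g : (T → ℂ) → ℕ := fun z => Fintype.card (U ⊕ V) - (N z).rank
    obtain ⟨z₀, hz₀⟩ : ∃ z₀, ∀ z, g z₀ ≤ g z :=
      ⟨Function.argmin g, fun z => Function.argmin_le g z⟩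
    refine ⟨z₀, fun z => ?_⟩
    have h1 := hz₀ z
    have h2 := (N z).rank_le_card_height
    have h3 := (N z₀).rank_le_card_height
    simp only [g] at h1
    omega
  have hd := hcon z₀
  rw [Fintype.not_linearIndependent_iff] at hd
  obtain ⟨w, hw1, i, hi⟩ := hd
  have hw : w ≠ 0 := fun h => hi (congrFun h i)
  have hk : N z₀ *ᵥ (Sum.elim (fun _ => 0) w) = 0 := by
    funext a
    have := congrFun hw1 a
    simp only [N, Matrix.mulVec, dotProduct, Matrix.of_apply, Fintype.sum_sum_type,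
      Sum.elim_inl, Sum.elim_inr, mul_zero, Finset.sum_const_zero, zero_add, Pi.zero_apply]
    simpa [Finset.sum_apply, mul_comm] using this
  have hdet : (N z₀).det = 0 := by
    rw [← Matrix.exists_mulVec_eq_zero_iff]
    refine ⟨_, ?_, hk⟩
    intro h0
    apply hw
    funext v
    exact congrFun h0 (Sum.inr v)
  obtain ⟨u, hu0, hu⟩ := Matrix.exists_vecMul_eq_zero_iff.mpr hdet
  refine hyp w u hw hu0 fun t => ?_
  have h1 := rank_lemma N hlin z₀ hz₀ _ u hk hu (Pi.single t 1)
  rw [← h1]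
  simp only [dotProduct, Matrix.mulVec, N, xz, Matrix.of_apply]
  refine Finset.sum_congr rfl fun a _ => ?_
  rw [Fintype.sum_sum_type]
  simp only [Sum.elim_inl, Sum.elim_inr, mul_zero, Finset.sum_const_zero, zero_add,
    Finset.mul_sum]
  refine Finset.sum_congr rfl fun v _ => ?_
  congr 1
  rw [Finset.sum_eq_single t]
  · simp
  · intro s _ hs
    simp [hs]
  · simp

lemma cont_Phi (B : U → U → Matrix (U ⊕ V) (U ⊕ V) ℂ) (m : T → V → (U ⊕ V) → ℂ) :
    Continuous fun z : T → ℂ => Phi (bsum B (rk1 (xz m z))) := by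
  simp only [Phi_rk1, xz]
  refine continuous_finsetSum _ fun α _ => continuous_finsetSum _ fun ρ _ => ?_
  refine continuous_const.mul (continuous_const.mul ?_)
  refine (continuous_finsetProd _ fun k _ => ?_).mul (continuous_finsetProd _ fun k _ => ?_)
  · fun_prop
  · fun_prop

lemma Sm_pos (B : U → U → Matrix (U ⊕ V) (U ⊕ V) ℂ)
    (good : ∀ G : Matrix (U ⊕ V) (U ⊕ V) ℂ, G.det ≠ 0 →
      0 < Phi (fun i j => (G * B i j * Gᴴ).submatrix Sum.inl Sum.inl : U → U → Matrix U U ℂ))
    (m : T → V → (U ⊕ V) → ℂ)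
    (hyp : ∀ (w : V → ℂ) (u : U ⊕ V → ℂ), w ≠ 0 → u ≠ 0 →
      (∀ t, ∑ a, ∑ v, u a * (m t v a * w v) = 0) → False) : 0 < Sm B m := by
  obtain ⟨z₀, hz₀⟩ := exists_indep m hyp
  have hnn : ∀ z, 0 ≤ Phi (bsum B (rk1 (xz m z))) := fun z => Phi_rk1_nonneg B good _
  have hz₀p : 0 < Phi (bsum B (rk1 (xz m z₀))) := Phi_rk1_pos B good _ hz₀
  let f : (T → ℂ) → ℝ := fun z => (Phi (bsum B (rk1 (xz m z)))).re * ∏ v, Real.exp (-‖z v‖ ^ 2)
  have hre : ∀ z, Phi (bsum B (rk1 (xz m z))) = ((Phi (bsum B (rk1 (xz m z)))).re : ℂ) := by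
    intro z
    have := Complex.le_def.mp (hnn z)
    apply Complex.ext
    · simp
    · simpa using this.2.symm
  have hf : ∀ z, Phi (bsum B (rk1 (xz m z))) * wt z = ((f z : ℝ) : ℂ) := by
    intro z
    simp only [f, wt]
    push_cast
    rw [← hre z]
  have hf0 : ∀ z, 0 ≤ f z := by
    intro z
    have := (Complex.le_def.mp (hnn z)).1
    exact mul_nonneg this (Finset.prod_nonneg fun v _ => (Real.exp_pos _).le)
  have hfc : Continuous f := by
    have h2 : Continuous fun z => (Phi (bsum B (rk1 (xz m z)))).re :=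
      Complex.continuous_re.comp (cont_Phi B m)
    refine h2.mul ?_
    fun_prop
  have hfi : Integrable f := by
    have h1 := (Sm_wick B m).1
    simp only [hf] at h1
    simpa using h1.re
  have hint := (Sm_wick B m).2
  simp only [hf] at hint
  rw [integral_complex_ofReal] at hint
  have h3 : 0 < ∫ z, f z := by
    rw [integral_pos_iff_support_of_nonneg hf0 hfi]
    have hopen : IsOpen (Function.support f) := hfc.isOpen_support
    refine hopen.measure_pos _ ⟨z₀, ?_⟩
    rw [Function.mem_support]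
    have h4 := (Complex.lt_def.mp hz₀p).1
    have h5 : 0 < f z₀ := mul_pos h4 (Finset.prod_pos fun v _ => Real.exp_pos _)
    exact h5.ne'
  have h6 : (0 : ℂ) < ((∫ z, f z : ℝ) : ℂ) := by exact_mod_cast h3
  rw [hint] at h6
  have hpi : (0 : ℂ) < (Real.pi : ℂ) ^ Fintype.card T := by
    have : (0 : ℝ) < Real.pi ^ Fintype.card T := pow_pos Real.pi_pos _
    exact_mod_cast this
  exact (mul_pos_iff_of_pos_left hpi).mp h6

/-! ### the reduction step -/

/-- `C` is completely positive (Kraus form) -/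
def IsCP {κ : Type} (C : V → V → Matrix κ κ ℂ) : Prop :=
  ∃ (n : ℕ) (m : Fin n → V → κ → ℂ), ∀ k j a b, C k j a b = ∑ t, m t k a * star (m t j b)

/-- `C` is completely copositive -/
def IsCoCP {κ : Type} (C : V → V → Matrix κ κ ℂ) : Prop :=
  ∃ (n : ℕ) (m : Fin n → V → κ → ℂ), ∀ k j a b, C k j a b = ∑ t, m t j a * star (m t k b)

lemma posF_left {B : U → U → Matrix (U ⊕ V) (U ⊕ V) ℂ} {C : V → V → Matrix (U ⊕ V) (U ⊕ V) ℂ}
    (h : PosF (bsum B C)) : PosF B := by
  intro ξ hξ
  have h1 := h (Sum.elim ξ (fun _ => 0)) (by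
    intro h0
    apply hξ
    funext u
    exact congrFun h0 (Sum.inl u))
  convert h1 using 1
  rw [Fintype.sum_sum_type]
  simp [Fintype.sum_sum_type, bsum]

lemma posF_right {B : U → U → Matrix (U ⊕ V) (U ⊕ V) ℂ} {C : V → V → Matrix (U ⊕ V) (U ⊕ V) ℂ}
    (h : PosF (bsum B C)) : PosF C := by
  intro ξ hξ
  have h1 := h (Sum.elim (fun _ => 0) ξ) (by
    intro h0
    apply hξ
    funext u
    exact congrFun h0 (Sum.inr u))
  convert h1 using 1
  rw [Fintype.sum_sum_type]
  simp [Fintype.sum_sum_type, bsum]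

lemma not_of_vecMul {κ : Type} [Fintype κ] [DecidableEq κ] {M : Matrix κ κ ℂ} (hM : M.PosDef)
    {u : κ → ℂ} (hu : u ≠ 0) (h : u ᵥ* M = 0) : False := by
  have hsu : star u ≠ 0 := by
    intro h
    exact hu (by simpa using congrArg star h)
  have h2 := hM.dotProduct_mulVec_pos hsu
  rw [star_star, dotProduct_mulVec, h, zero_dotProduct] at h2
  exact lt_irrefl _ h2

lemma nondeg_aux (C : V → V → Matrix (U ⊕ V) (U ⊕ V) ℂ) (m : T → V → (U ⊕ V) → ℂ)
    (w : V → ℂ) (M : Matrix (U ⊕ V) (U ⊕ V) ℂ) (hM : M.PosDef)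
    (hMe : ∀ a b, M a b = ∑ t, (∑ v, m t v a * w v) * star (∑ v, m t v b * w v))
    (u : U ⊕ V → ℂ) (hu : u ≠ 0) (h : ∀ t, ∑ a, ∑ v, u a * (m t v a * w v) = 0) : False := by
  refine not_of_vecMul hM hu ?_
  have h0 : ∀ t, ∑ a, u a * (∑ v, m t v a * w v) = 0 := by
    intro t
    rw [← h t]
    exact Finset.sum_congr rfl fun a _ => Finset.mul_sum _ _ _
  funext b
  simp only [vecMul, dotProduct, hMe, Pi.zero_apply]
  have h1 : ∀ a, u a * (∑ t, (∑ v, m t v a * w v) * star (∑ v, m t v b * w v)) =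
      ∑ t, (u a * (∑ v, m t v a * w v)) * star (∑ v, m t v b * w v) := by
    intro a
    rw [Finset.mul_sum]
    exact Finset.sum_congr rfl fun t _ => by ring
  rw [Finset.sum_congr rfl fun a _ => h1 a, Finset.sum_comm]
  refine Finset.sum_eq_zero fun t _ => ?_
  rw [← Finset.sum_mul, h0 t, zero_mul]

/-- **Reduction step.**  If positivity of `Phi` is known for families indexed by `U` satisfying a
property stable under compressions, it holds after adding a completely positive or a completely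
copositive block. -/
theorem step (Q : ∀ (κ : Type) [Fintype κ] [DecidableEq κ], (U → U → Matrix κ κ ℂ) → Prop)
    (hQ : ∀ (κ κ' : Type) [Fintype κ] [DecidableEq κ] [Fintype κ'] [DecidableEq κ']
      (K : Matrix κ' κ ℂ) (_ : Function.Injective K.vecMul) (B : U → U → Matrix κ κ ℂ), Q κ B →
      Q κ' (fun i j => K * B i j * Kᴴ))
    (good : ∀ B : U → U → Matrix U U ℂ, Q U B → PosF B → 0 < Phi B)
    (B : U → U → Matrix (U ⊕ V) (U ⊕ V) ℂ) (C : V → V → Matrix (U ⊕ V) (U ⊕ V) ℂ)
    (hB : Q (U ⊕ V) B) (hC : IsCP C ∨ IsCoCP C) (hpos : PosF (bsum B C)) :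
    0 < Phi (bsum B C) := by
  have hposB := posF_left hpos
  have hposC := posF_right hpos
  have good' : ∀ G : Matrix (U ⊕ V) (U ⊕ V) ℂ, G.det ≠ 0 →
      0 < Phi (fun i j => (G * B i j * Gᴴ).submatrix Sum.inl Sum.inl : U → U → Matrix U U ℂ) := by
    intro G hG
    apply good
    · have hinj : Function.Injective (G.submatrix Sum.inl id : Matrix U (U ⊕ V) ℂ).vecMul := by
        intro u u' huu
        have hG' : Function.Injective G.vecMul := Matrix.vecMul_injective_iff_isUnit.mpr
          ((Matrix.isUnit_iff_isUnit_det _).mpr (isUnit_iff_ne_zero.mpr hG))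
        have e1 : ∀ w : U → ℂ, w ᵥ* (G.submatrix Sum.inl id : Matrix U (U ⊕ V) ℂ) =
            (Sum.elim w (fun _ => 0) : U ⊕ V → ℂ) ᵥ* G := by
          intro w
          funext a
          simp [Matrix.vecMul, dotProduct, Fintype.sum_sum_type]
        have h2 : (Sum.elim u (fun _ => 0) : U ⊕ V → ℂ) ᵥ* G =
            (Sum.elim u' (fun _ => 0) : U ⊕ V → ℂ) ᵥ* G := by
          rw [← e1, ← e1]
          exact huu
        have h3 := hG' h2
        funext a
        exact congrFun h3 (Sum.inl a)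
      have h1 := hQ (U ⊕ V) U (G.submatrix Sum.inl id) hinj B hB
      convert h1 using 3
      ext a b
      simp [Matrix.mul_apply]
    · intro ξ hξ
      have h1 := compress_posDef G _ hG (hposB ξ hξ)
      convert h1 using 1
      ext a b
      simp only [Matrix.sum_apply, Matrix.smul_apply, Matrix.submatrix_apply, Matrix.mul_sum,
        Matrix.sum_mul, Matrix.mul_smul, Matrix.smul_mul]
  rcases hC with ⟨n, m, hm⟩ | ⟨n, m, hm⟩
  · rw [Phi_cp B C m hm]
    refine Sm_pos B good' m fun w u hw hu h => ?_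
    refine nondeg_aux C m w _ (hposC w hw) ?_ u hu h
    intro a b
    simp only [Matrix.sum_apply, Matrix.smul_apply, smul_eq_mul, hm, Finset.mul_sum, star_sum,
      star_mul', Finset.sum_mul]
    rw [Finset.sum_comm]
    rw [Finset.sum_congr rfl fun j _ => Finset.sum_comm]
    rw [Finset.sum_comm]
    refine Finset.sum_congr rfl fun t _ => Finset.sum_congr rfl fun j _ =>
      Finset.sum_congr rfl fun i _ => ?_
    ring
  · rw [Phi_cocp B C m hm]
    refine Sm_pos B good' m fun w u hw hu h => ?_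
    have hsw : star w ≠ 0 := by
      intro h0
      exact hw (by simpa using congrArg star h0)
    refine nondeg_aux C m w _ (hposC (star w) hsw) ?_ u hu h
    intro a b
    simp only [Matrix.sum_apply, Matrix.smul_apply, smul_eq_mul, hm, Finset.mul_sum, star_sum,
      star_mul', Finset.sum_mul, Pi.star_apply, star_star]
    rw [Finset.sum_congr rfl fun j _ => Finset.sum_comm]
    rw [Finset.sum_comm]
    refine Finset.sum_congr rfl fun t _ => Finset.sum_congr rfl fun j _ =>
      Finset.sum_congr rfl fun i _ => ?_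
    ring

end Pool.Agent.H94.MD
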