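import Mathlib
import Pool.Agent.H94.MD.Small
import Pool.Agent.H94.MD.Step

set_option autoImplicit false
open scoped ComplexOrder
open Matrix Equiv Finset

namespace Pool.Agent.H94.MD

/-! ### the case of two blocks of size two -/

lemma mdg_reindex {ι κ : Type} [Fintype ι] [DecidableEq ι] [Fintype κ] [DecidableEq κ]
    (e : ι ≃ κ) (A : κ → Matrix κ κ ℂ) :
    mdg (fun i : ι => (A (e i)).submatrix e e) = mdg A := by
  unfold mdg
  rw [← Equiv.sum_comp (Equiv.permCongr e) (fun α : Perm κ => ∑ ρ : Perm κ,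
    sg α * sg ρ * ∏ k, A k (α k) (ρ k))]
  refine Finset.sum_congr rfl fun α _ => ?_
  rw [← Equiv.sum_comp (Equiv.permCongr e) (fun ρ : Perm κ =>
    sg (e.permCongr α) * sg ρ * ∏ k, A k ((e.permCongr α) k) (ρ k))]
  refine Finset.sum_congr rfl fun ρ _ => ?_
  have hs : ∀ τ : Perm ι, sg (e.permCongr τ) = sg τ := by
    intro τ; simp [sg, Perm.sign_permCongr]
  rw [hs, hs]
  congr 1
  rw [← Equiv.prod_comp e]
  simp [Equiv.permCongr_apply]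

/-- `Fin 4` and two copies of `Fin 2` -/
def e4 : Fin 4 ≃ Fin 2 ⊕ Fin 2 := (finSumFinEquiv (m := 2) (n := 2)).symm

lemma mdg_22 (X Y Z W : Matrix (Fin 2 ⊕ Fin 2) (Fin 2 ⊕ Fin 2) ℂ) :
    mdg (Sum.elim ![X, Y] ![Z, W]) =
      md ![X.submatrix e4 e4, Y.submatrix e4 e4, Z.submatrix e4 e4, W.submatrix e4 e4] := by
  rw [← mdg_reindex e4]
  have : (fun i : Fin 4 => ((Sum.elim ![X, Y] ![Z, W] :
      Fin 2 ⊕ Fin 2 → Matrix (Fin 2 ⊕ Fin 2) (Fin 2 ⊕ Fin 2) ℂ) (e4 i)).submatrix e4 e4) =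
      ![X.submatrix e4 e4, Y.submatrix e4 e4, Z.submatrix e4 e4, W.submatrix e4 e4] := by
    funext i
    fin_cases i <;> rfl
  rw [this]
  rfl

lemma mdg_22_expand (X Y Z W : Matrix (Fin 2 ⊕ Fin 2) (Fin 2 ⊕ Fin 2) ℂ) :
    mdg (Sum.elim ![X, Y] ![Z, W]) =
      ∑ α : Perm (Fin 2 ⊕ Fin 2), ∑ ρ : Perm (Fin 2 ⊕ Fin 2), sg α * sg ρ *
        ((X (α (Sum.inl 0)) (ρ (Sum.inl 0)) * Y (α (Sum.inl 1)) (ρ (Sum.inl 1))) *
        (Z (α (Sum.inr 0)) (ρ (Sum.inr 0)) * W (α (Sum.inr 1)) (ρ (Sum.inr 1)))) := by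
  unfold mdg
  refine Finset.sum_congr rfl fun α _ => Finset.sum_congr rfl fun ρ _ => ?_
  rw [Fintype.prod_sum_type, Fin.prod_univ_two, Fin.prod_univ_two]
  rfl

lemma Phi_22 (B C : Fin 2 → Fin 2 → Matrix (Fin 2 ⊕ Fin 2) (Fin 2 ⊕ Fin 2) ℂ) :
    Phi (bsum B C) = Psi (fun i j => (B i j).submatrix e4 e4) (fun i j => (C i j).submatrix e4 e4) := by
  rw [Phi_bsum, Psi, ← mdg_22, ← mdg_22, ← mdg_22, ← mdg_22, mdg_22_expand, mdg_22_expand,
    mdg_22_expand, mdg_22_expand]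
  simp only [← Finset.sum_sub_distrib, ← Finset.sum_add_distrib]
  refine Finset.sum_congr rfl fun α _ => Finset.sum_congr rfl fun ρ _ => ?_
  rw [dU, Matrix.det_fin_two, Matrix.det_fin_two]
  simp only [Matrix.of_apply]
  ring

lemma Phi_pos_22 (B : Fin 2 ⊕ Fin 2 → Fin 2 ⊕ Fin 2 → Matrix (Fin 2 ⊕ Fin 2) (Fin 2 ⊕ Fin 2) ℂ)
    (h12 : ∀ i j, B (Sum.inl i) (Sum.inr j) = 0) (h21 : ∀ i j, B (Sum.inr i) (Sum.inl j) = 0)
    (hB : PosF B) : 0 < Phi B := by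
  have hdec : B = bsum (fun i j => B (Sum.inl i) (Sum.inl j)) (fun i j => B (Sum.inr i) (Sum.inr j)) := by
    funext x y
    rcases x with u | v <;> rcases y with u' | v'
    · rfl
    · simp [bsum, h12]
    · simp [bsum, h21]
    · rfl
  rw [hdec] at hB ⊢
  rw [Phi_22]
  have h1 := posF_reindex (Equiv.refl (Fin 2)) e4 (posF_left hB)
  have h2 := posF_reindex (Equiv.refl (Fin 2)) e4 (posF_right hB)
  exact Psi_pos h1 h2

end Pool.Agent.H94.MD
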