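import Mathlib
import Pool.Agent.H94.MD.Final

set_option autoImplicit false
open scoped ComplexOrder
open Matrix Equiv Finset

namespace Pool.Agent.H94.MD

/-- rank one separable family -/
def sepF {U κ : Type} (x : U → ℂ) (y : κ → ℂ) : U → U → Matrix κ κ ℂ :=
  fun i j => (x i * star (x j)) • Matrix.vecMulVec y (star y)

section

variable {Z : Type} [Fintype Z] [DecidableEq Z]

lemma det_add_single (N : Matrix (Z ⊕ Unit) (Z ⊕ Unit) ℂ) (c : ℂ) :
    (N + Matrix.of fun k j => if k = Sum.inr () ∧ j = Sum.inr () then c else 0).det =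
      N.det + c * (N.submatrix Sum.inl Sum.inl).det := by
  have h1 : (N + Matrix.of fun k j => if k = Sum.inr () ∧ j = Sum.inr () then c else 0) =
      N.updateRow (Sum.inr ()) (N (Sum.inr ()) + c • Pi.single (Sum.inr ()) 1) := by
    ext k j
    by_cases hk : k = Sum.inr ()
    · subst hk
      rw [Matrix.updateRow_self]
      simp only [Matrix.add_apply, Matrix.of_apply, true_and, Pi.add_apply, Pi.smul_apply,
        Pi.single_apply, smul_eq_mul]
      split_ifs <;> simp
    · rw [Matrix.updateRow_ne hk]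
      simp [hk]
  rw [h1, Matrix.det_updateRow_add, Matrix.det_updateRow_smul, Matrix.updateRow_eq_self]
  congr 2
  have h2 : N.updateRow (Sum.inr ()) (Pi.single (Sum.inr ()) 1) =
      Matrix.fromBlocks (N.submatrix Sum.inl Sum.inl) (N.submatrix Sum.inl Sum.inr) 0 1 := by
    ext k j
    rcases k with k | k
    · rw [Matrix.updateRow_ne (by simp)]
      rcases j with j | j <;> simp
    · rw [show (Sum.inr k : Z ⊕ Unit) = Sum.inr () from rfl, Matrix.updateRow_self]
      rcases j with j | j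
      · simp
      · simp [Subsingleton.elim k j]
  rw [h2, Matrix.det_fromBlocks_zero₂₁, Matrix.det_one, mul_one]

lemma Phi_add_E (B : (Z ⊕ Unit) → (Z ⊕ Unit) → Matrix (Z ⊕ Unit) (Z ⊕ Unit) ℂ) :
    Phi (fun i j => B i j + sepF (Pi.single (Sum.inr ()) 1) (Pi.single (Sum.inr ()) 1) i j) =
      Phi B + Phi (fun i j : Z => (B (Sum.inl i) (Sum.inl j)).submatrix Sum.inl Sum.inl) := by
  rw [← Phi_e (V := Unit) (fun i j => B (Sum.inl i) (Sum.inl j)), Phi_rk1]
  unfold Phi
  rw [← Finset.sum_add_distrib]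
  refine Finset.sum_congr rfl fun α _ => ?_
  rw [← Finset.sum_add_distrib]
  refine Finset.sum_congr rfl fun ρ _ => ?_
  have h1 : (Matrix.of fun (k j : Z ⊕ Unit) => ((B k j + sepF (Pi.single (Sum.inr ()) 1)
      (Pi.single (Sum.inr ()) 1) k j : Matrix (Z ⊕ Unit) (Z ⊕ Unit) ℂ)) (α k) (ρ k)) =
      (Matrix.of fun k j => B k j (α k) (ρ k)) + Matrix.of fun (k j : Z ⊕ Unit) =>
        if k = Sum.inr () ∧ j = Sum.inr () then
        ((Pi.single (Sum.inr ()) (1 : ℂ) : (Z ⊕ Unit) → ℂ) (α (Sum.inr ())) *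
          star ((Pi.single (Sum.inr ()) (1 : ℂ) : (Z ⊕ Unit) → ℂ) (ρ (Sum.inr ())))) else 0 := by
    ext k j
    simp only [Matrix.of_apply, Matrix.add_apply, sepF, Matrix.smul_apply, Matrix.vecMulVec_apply,
      smul_eq_mul, Pi.star_apply]
    congr 1
    by_cases hk : k = Sum.inr ()
    · by_cases hj : j = Sum.inr ()
      · subst hk; subst hj
        simp
      · simp [hj]
    · simp [hk]
  rw [h1, det_add_single, mul_add]
  congr 2
  rw [mul_comm]
  congr 1
  simp

lemma acg_sepF {U : Type} [Fintype U] [DecidableEq U] (g : Matrix U U ℂ) (x y : U → ℂ) :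
    acg g (sepF x y) = sepF (g *ᵥ x) y := by
  funext i j
  simp only [acg, sepF, smul_smul, ← Finset.sum_smul]
  congr 1
  simp only [Matrix.mulVec, dotProduct, star_sum, star_mul', Finset.sum_mul, Finset.mul_sum]
  rw [Finset.sum_comm]
  refine Finset.sum_congr rfl fun k _ => Finset.sum_congr rfl fun l _ => ?_
  ring

lemma conj_sepF {U κ κ' : Type} [Fintype κ] (h : Matrix κ' κ ℂ) (x : U → ℂ) (y : κ → ℂ) (i j : U) :
    h * sepF x y i j * hᴴ = sepF x (h *ᵥ y) i j := by
  simp only [sepF, Matrix.mul_smul, Matrix.smul_mul]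
  congr 1
  ext a b
  simp only [Matrix.mul_apply, Matrix.vecMulVec_apply, Pi.star_apply, Matrix.conjTranspose_apply,
    Matrix.mulVec, dotProduct, star_sum, star_mul', Finset.sum_mul, Finset.mul_sum]
  refine Finset.sum_congr rfl fun k _ => Finset.sum_congr rfl fun l _ => ?_
  ring

lemma acg_add {U : Type} [Fintype U] [DecidableEq U] (g : Matrix U U ℂ)
    (B C : U → U → Matrix U U ℂ) (i j : U) :
    acg g (fun i j => B i j + C i j) i j = acg g B i j + acg g C i j := by
  simp only [acg, smul_add, Finset.sum_add_distrib]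

lemma posF_compress {B : (Z ⊕ Unit) → (Z ⊕ Unit) → Matrix (Z ⊕ Unit) (Z ⊕ Unit) ℂ}
    (hB : PosF B) : PosF (fun i j : Z => (B (Sum.inl i) (Sum.inl j)).submatrix Sum.inl Sum.inl :
      Z → Z → Matrix Z Z ℂ) := by
  intro ξ hξ
  have h1 := hB (Sum.elim ξ (fun _ => 0)) (by
    intro h0
    apply hξ
    funext u
    exact congrFun h0 (Sum.inl u))
  have h2 := h1.submatrix (Sum.inl_injective (α := Z) (β := Unit))
  convert h2 using 1
  ext a b
  simp [Fintype.sum_sum_type, Matrix.sum_apply]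

lemma exists_G1 (x : Z ⊕ Unit → ℂ) (hx : x ≠ 0) :
    ∃ G : Matrix (Z ⊕ Unit) (Z ⊕ Unit) ℂ, G.det ≠ 0 ∧ G *ᵥ x = Pi.single (Sum.inr ()) 1 := by
  obtain ⟨G, hG, h⟩ := exists_G (U := Z) (V := Unit) (fun _ => x)
    (LinearIndependent.of_subsingleton () hx)
  exact ⟨G, hG, h ()⟩

lemma Phi_T (g h : Matrix (Z ⊕ Unit) (Z ⊕ Unit) ℂ)
    (C : (Z ⊕ Unit) → (Z ⊕ Unit) → Matrix (Z ⊕ Unit) (Z ⊕ Unit) ℂ) :
    Phi (fun i j => h * acg g C i j * hᴴ) =
      (h.det * star h.det) * (g.det * star g.det) * Phi C := by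
  rw [Phi_conj, Phi_acg, ← mul_assoc]

lemma lt_of_eqs {c a b d : ℂ} (hc : 0 < c) (hd : 0 < d) (h : c * b + d = c * a) : b < a := by
  have h4 : c * (a - b) = d := by linear_combination -h
  rw [← h4] at hd
  exact sub_pos.mp ((mul_pos_iff_of_pos_left hc).mp hd)

theorem Phi_add_sep_lt (hZ : Fintype.card Z ≤ 3)
    {B : (Z ⊕ Unit) → (Z ⊕ Unit) → Matrix (Z ⊕ Unit) (Z ⊕ Unit) ℂ} (hB : PosF B)
    {x y : Z ⊕ Unit → ℂ} (hx : x ≠ 0) (hy : y ≠ 0) :
    Phi B < Phi (fun i j => B i j + sepF x y i j) := by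
  obtain ⟨g, hg, hgx⟩ := exists_G1 x hx
  obtain ⟨h, hh, hhy⟩ := exists_G1 y hy
  have hc : (0 : ℂ) < (h.det * star h.det) * (g.det * star g.det) :=
    mul_pos (normSq_pos' hh) (normSq_pos' hg)
  have h1 : (fun i j => h * acg g (fun i j => B i j + sepF x y i j) i j * hᴴ) =
      fun i j => (h * acg g B i j * hᴴ) +
        sepF (Pi.single (Sum.inr ()) 1) (Pi.single (Sum.inr ()) 1) i j := by
    funext i j
    rw [acg_add, Matrix.mul_add, Matrix.add_mul, acg_sepF, conj_sepF, hgx, hhy]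
  have hT : PosF (fun i j => h * acg g B i j * hᴴ) := conj_posF hh (acg_posF hg hB)
  have hT' := posF_compress (B := fun i j => h * acg g B i j * hᴴ) hT
  have h3 := Phi_pos_le3 hZ _ hT'
  refine lt_of_eqs hc h3 ?_
  rw [← Phi_T g h B, ← Phi_T g h (fun i j => B i j + sepF x y i j), h1]
  exact (Phi_add_E (fun i j => h * acg g B i j * hᴴ)).symm

lemma Phi_add_sep_le (hZ : Fintype.card Z ≤ 3)
    {B : (Z ⊕ Unit) → (Z ⊕ Unit) → Matrix (Z ⊕ Unit) (Z ⊕ Unit) ℂ} (hB : PosF B)
    (x y : Z ⊕ Unit → ℂ) : Phi B ≤ Phi (fun i j => B i j + sepF x y i j) := by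
  by_cases hx : x = 0
  · subst hx
    simp [sepF]
  · by_cases hy : y = 0
    · subst hy
      have : (fun i j => B i j + sepF x (0 : Z ⊕ Unit → ℂ) i j) = B := by
        funext i j
        ext a b
        simp [sepF, Matrix.vecMulVec_apply]
      rw [this]
    · exact (Phi_add_sep_lt hZ hB hx hy).le

end

section

variable {U : Type} [Fintype U] [DecidableEq U]

lemma posF_add_sep {κ : Type} [Fintype κ] [DecidableEq κ] {B : U → U → Matrix κ κ ℂ} (hB : PosF B)
    (x : U → ℂ) (y : κ → ℂ) : PosF (fun i j => B i j + sepF x y i j) := by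
  intro ξ hξ
  have h1 := hB ξ hξ
  have h2 : (∑ i, ∑ j, (ξ i * star (ξ j)) • sepF x y i j).PosSemidef := by
    have h3 : (∑ i, ∑ j, (ξ i * star (ξ j)) • sepF x y i j) =
        ((∑ i, ξ i * x i) * star (∑ i, ξ i * x i)) • Matrix.vecMulVec y (star y) := by
      simp only [sepF, smul_smul, ← Finset.sum_smul]
      congr 1
      simp only [star_sum, star_mul', Finset.sum_mul, Finset.mul_sum]
      rw [Finset.sum_comm]
      refine Finset.sum_congr rfl fun k _ => Finset.sum_congr rfl fun l _ => ?_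
      ring
    rw [h3]
    exact (Matrix.posSemidef_vecMulVec_self_star y).smul (mul_star_self_nonneg _)
  convert h1.add_posSemidef h2 using 1
  simp only [smul_add, Finset.sum_add_distrib]

lemma mono4 (hU : Fintype.card U = 4) {B : U → U → Matrix U U ℂ} (hB : PosF B) (x y : U → ℂ) :
    Phi B ≤ Phi (fun i j => B i j + sepF x y i j) := by
  let e : Fin 3 ⊕ Unit ≃ U := (Fintype.equivOfCardEq (by simp [hU]))
  rw [← Phi_reindex e, ← Phi_reindex e (fun i j => B i j + sepF x y i j)]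
  have h := Phi_add_sep_le (Z := Fin 3) (by simp) (posF_reindex e e hB) (x ∘ e) (y ∘ e)
  have h2 : (fun i j : Fin 3 ⊕ Unit => ((fun i j => B i j + sepF x y i j) (e i) (e j)).submatrix
      e e) = fun i j => (B (e i) (e j)).submatrix e e + sepF (x ∘ e) (y ∘ e) i j := by
    funext i j
    ext a b
    simp [sepF, Matrix.vecMulVec_apply]
  rw [h2]
  exact h

lemma mono4_sum (hU : Fintype.card U = 4) {B : U → U → Matrix U U ℂ} (hB : PosF B) {n : ℕ}
    (x y : Fin n → U → ℂ) (F : Finset (Fin n)) :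
    PosF (fun i j => B i j + ∑ s ∈ F, sepF (x s) (y s) i j) ∧
    Phi B ≤ Phi (fun i j => B i j + ∑ s ∈ F, sepF (x s) (y s) i j) := by
  induction F using Finset.induction_on with
  | empty => simpa using hB
  | insert s F hs ih =>
    have h1 : (fun i j => B i j + ∑ s ∈ insert s F, sepF (x s) (y s) i j) =
        fun i j => (B i j + ∑ s ∈ F, sepF (x s) (y s) i j) + sepF (x s) (y s) i j := by
      funext i j
      rw [Finset.sum_insert hs]
      abel
    rw [h1]
    exact ⟨posF_add_sep ih.1 _ _, ih.2.trans (mono4 hU ih.1 _ _)⟩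

end

end Pool.Agent.H94.MD
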