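import Mathlib
import Pool.Agent.H94.MD.Mono

set_option autoImplicit false
open scoped ComplexOrder
open Matrix Equiv Finset

namespace Pool.Agent.H94.MD

section

variable {U V : Type} [Fintype U] [DecidableEq U] [Fintype V] [DecidableEq V]

lemma eq_bsum (B : (U ⊕ V) → (U ⊕ V) → Matrix (U ⊕ V) (U ⊕ V) ℂ)
    (h12 : ∀ i j, B (Sum.inl i) (Sum.inr j) = 0) (h21 : ∀ i j, B (Sum.inr i) (Sum.inl j) = 0) :
    B = bsum (fun i j => B (Sum.inl i) (Sum.inl j)) (fun i j => B (Sum.inr i) (Sum.inr j)) := by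
  funext x y
  rcases x with u | v <;> rcases y with u' | v'
  · rfl
  · simp [bsum, h12]
  · simp [bsum, h21]
  · rfl

lemma isCP_conj {κ κ' : Type} [Fintype κ] (K : Matrix κ' κ ℂ) {C : V → V → Matrix κ κ ℂ}
    (h : IsCP C) : IsCP (fun i j => K * C i j * Kᴴ) := by
  obtain ⟨n, m, hm⟩ := h
  refine ⟨n, fun t k => K *ᵥ m t k, ?_⟩
  intro k j a b
  simp only [Matrix.mul_apply, hm, Matrix.conjTranspose_apply, Matrix.mulVec, dotProduct,
    Finset.sum_mul, Finset.mul_sum, star_sum, star_mul']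
  rw [Finset.sum_congr rfl fun x _ => Finset.sum_comm]
  rw [Finset.sum_comm]
  refine Finset.sum_congr rfl fun t _ => Finset.sum_congr rfl fun x _ =>
    Finset.sum_congr rfl fun y _ => ?_
  ring

lemma isCP_of_subsingleton {κ : Type} [Fintype κ] [DecidableEq κ] [Subsingleton V]
    {C : V → V → Matrix κ κ ℂ} (h : PosF C) : IsCP C := by
  rcases isEmpty_or_nonempty V with he | ⟨⟨v⟩⟩
  · exact ⟨0, fun t => Fin.elim0 t, fun k => (he.false k).elim⟩
  · have h1 := h (fun _ => 1) (by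
      intro h0
      have := congrFun h0 v
      simp at this)
    have h2 : (C v v).PosDef := by
      convert h1 using 1
      rw [Fintype.sum_subsingleton _ v, Fintype.sum_subsingleton _ v]
      simp
    obtain ⟨n, m, hm⟩ := Matrix.posSemidef_iff_eq_sum_vecMulVec.mp h2.posSemidef
    refine ⟨n, fun t _ => m t, ?_⟩
    intro k j a b
    rw [Subsingleton.elim k v, Subsingleton.elim j v, hm]
    simp [Matrix.sum_apply, Matrix.vecMulVec_apply]

lemma posF_comp {ι κ : Type} [Fintype ι] [DecidableEq ι] [Fintype κ] [DecidableEq κ]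
    {B : ι → ι → Matrix κ κ ℂ} (hB : PosF B) (f : U → ι) (hf : Function.Injective f) :
    PosF (fun i j => B (f i) (f j)) := by
  intro ξ hξ
  have h1 := hB (Function.extend f ξ 0) (by
    intro h0
    apply hξ
    funext u
    have := congrFun h0 (f u)
    rwa [hf.extend_apply] at this)
  convert h1 using 1
  refine Fintype.sum_of_injective f hf _ _ ?_ ?_
  · intro i hi
    refine Finset.sum_eq_zero fun j _ => ?_
    rw [Function.extend_apply' _ _ _ (fun ⟨a, ha⟩ => hi ⟨a, ha⟩)]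
    simp
  · intro i
    refine Fintype.sum_of_injective f hf _ _ ?_ ?_
    · intro j hj
      rw [Function.extend_apply' _ _ j (fun ⟨a, ha⟩ => hj ⟨a, ha⟩)]
      simp
    · intro j
      rw [hf.extend_apply, hf.extend_apply]

end

section

variable {A A' V W : Type} [Fintype A] [DecidableEq A] [Fintype A'] [DecidableEq A']
  [Fintype V] [DecidableEq V] [Fintype W] [DecidableEq W]

/-- no coupling between the two exceptional parts -/
def QZ (A A' : Type) (κ : Type) (B : (A ⊕ A') → (A ⊕ A') → Matrix κ κ ℂ) : Prop :=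
  (∀ i j, B (Sum.inl i) (Sum.inr j) = 0) ∧ (∀ i j, B (Sum.inr i) (Sum.inl j) = 0)

/-- positive with no coupling, plus separable -/
def QS (A A' : Type) [Fintype A] [DecidableEq A] [Fintype A'] [DecidableEq A']
    (κ : Type) [Fintype κ] [DecidableEq κ] (B : (A ⊕ A') → (A ⊕ A') → Matrix κ κ ℂ) : Prop :=
  ∃ (B₀ : (A ⊕ A') → (A ⊕ A') → Matrix κ κ ℂ) (n : ℕ) (x : Fin n → (A ⊕ A') → ℂ)
    (y : Fin n → κ → ℂ), QZ A A' κ B₀ ∧ PosF B₀ ∧
      B = fun i j => B₀ i j + ∑ s, sepF (x s) (y s) i j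

lemma QS_conj (κ κ' : Type) [Fintype κ] [DecidableEq κ] [Fintype κ'] [DecidableEq κ']
    (K : Matrix κ' κ ℂ) (hK : Function.Injective K.vecMul)
    (B : (A ⊕ A') → (A ⊕ A') → Matrix κ κ ℂ) (h : QS A A' κ B) :
    QS A A' κ' (fun i j => K * B i j * Kᴴ) := by
  obtain ⟨B₀, n, x, y, ⟨h1, h2⟩, hp, hB⟩ := h
  refine ⟨fun i j => K * B₀ i j * Kᴴ, n, x, fun s => K *ᵥ y s, ⟨fun i j => ?_, fun i j => ?_⟩,
    ?_, ?_⟩
  · show K * B₀ _ _ * Kᴴ = 0
    rw [h1]; simp
  · show K * B₀ _ _ * Kᴴ = 0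
    rw [h2]; simp
  · intro ξ hξ
    have h3 := (hp ξ hξ).mul_mul_conjTranspose_same (B := K) hK
    convert h3 using 1
    simp only [Matrix.mul_sum, Matrix.sum_mul, Matrix.mul_smul, Matrix.smul_mul]
  · funext i j
    rw [hB]
    simp only [Matrix.mul_add, Matrix.add_mul, Matrix.mul_sum, Matrix.sum_mul, conj_sepF]

lemma pos31 (hA : Fintype.card A ≤ 3) (hA' : Fintype.card A' ≤ 1)
    (B : (A ⊕ A') → (A ⊕ A') → Matrix (A ⊕ A') (A ⊕ A') ℂ) (hQ : QZ A A' (A ⊕ A') B)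
    (hB : PosF B) : 0 < Phi B := by
  rw [eq_bsum B hQ.1 hQ.2] at hB ⊢
  haveI : Subsingleton A' := Fintype.card_le_one_iff_subsingleton.mp hA'
  refine step (fun _ _ _ _ => True) (fun _ _ _ _ _ _ _ _ _ _ => trivial)
    (fun B _ hB => Phi_pos_le3 hA B hB) _ _ trivial
    (Or.inl (isCP_of_subsingleton (posF_right hB))) hB

lemma pos_QZ (hA : Fintype.card A ≤ 3) (hA' : Fintype.card A' ≤ 3)
    (h4 : Fintype.card A + Fintype.card A' ≤ 4)
    (B : (A ⊕ A') → (A ⊕ A') → Matrix (A ⊕ A') (A ⊕ A') ℂ) (hQ : QZ A A' (A ⊕ A') B)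
    (hB : PosF B) : 0 < Phi B := by
  by_cases h3 : Fintype.card (A ⊕ A') ≤ 3
  · exact Phi_pos_le3 h3 B hB
  · rw [Fintype.card_sum] at h3
    by_cases h1 : Fintype.card A' ≤ 1
    · exact pos31 hA h1 B hQ hB
    · by_cases h1' : Fintype.card A ≤ 1
      · rw [← Phi_reindex (Equiv.sumComm A' A)]
        refine pos31 hA' h1' _ ⟨?_, ?_⟩ (posF_reindex _ _ hB)
        · intro i j
          simp only [Equiv.sumComm_apply, Sum.swap_inl, Sum.swap_inr]
          rw [hQ.2]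
          rfl
        · intro i j
          simp only [Equiv.sumComm_apply, Sum.swap_inl, Sum.swap_inr]
          rw [hQ.1]
          rfl
      · have hA2 : Fintype.card A = 2 := by omega
        have hA'2 : Fintype.card A' = 2 := by omega
        let e1 : Fin 2 ≃ A := (Fintype.equivFinOfCardEq hA2).symm
        let e2 : Fin 2 ≃ A' := (Fintype.equivFinOfCardEq hA'2).symm
        rw [← Phi_reindex (Equiv.sumCongr e1 e2)]
        refine Phi_pos_22 _ ?_ ?_ (posF_reindex _ _ hB)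
        · intro i j
          simp only [Equiv.sumCongr_apply, Sum.map_inl, Sum.map_inr]
          rw [hQ.1]
          rfl
        · intro i j
          simp only [Equiv.sumCongr_apply, Sum.map_inl, Sum.map_inr]
          rw [hQ.2]
          rfl

lemma core_pos (hA : Fintype.card A ≤ 3) (hA' : Fintype.card A' ≤ 3)
    (h4 : Fintype.card A + Fintype.card A' ≤ 4)
    (B : (A ⊕ A') → (A ⊕ A') → Matrix (A ⊕ A') (A ⊕ A') ℂ) (hQ : QS A A' (A ⊕ A') B)
    (hB : PosF B) : 0 < Phi B := by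
  by_cases h3 : Fintype.card (A ⊕ A') ≤ 3
  · exact Phi_pos_le3 h3 B hB
  · obtain ⟨B₀, n, x, y, hZ, hp, hBe⟩ := hQ
    have hc : Fintype.card (A ⊕ A') = 4 := by
      rw [Fintype.card_sum] at h3 ⊢
      omega
    have h0 := pos_QZ hA hA' h4 B₀ hZ hp
    have h1 := (mono4_sum hc hp x y Finset.univ).2
    rw [hBe]
    exact h0.trans_le h1

/-- exceptional part plus completely positive part -/
def QC (A A' V : Type) [Fintype A] [DecidableEq A] [Fintype A'] [DecidableEq A']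
    (κ : Type) [Fintype κ] [DecidableEq κ]
    (B : ((A ⊕ A') ⊕ V) → ((A ⊕ A') ⊕ V) → Matrix κ κ ℂ) : Prop :=
  (∀ i j, B (Sum.inl i) (Sum.inr j) = 0) ∧ (∀ i j, B (Sum.inr i) (Sum.inl j) = 0) ∧
    QS A A' κ (fun i j => B (Sum.inl i) (Sum.inl j)) ∧
    IsCP (fun i j => B (Sum.inr i) (Sum.inr j))

lemma mid_pos (hA : Fintype.card A ≤ 3) (hA' : Fintype.card A' ≤ 3)
    (h4 : Fintype.card A + Fintype.card A' ≤ 4)
    (B : ((A ⊕ A') ⊕ V) → ((A ⊕ A') ⊕ V) → Matrix ((A ⊕ A') ⊕ V) ((A ⊕ A') ⊕ V) ℂ)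
    (hQ : QC A A' V _ B) (hB : PosF B) : 0 < Phi B := by
  obtain ⟨h12, h21, hZ, hCP⟩ := hQ
  rw [eq_bsum B h12 h21] at hB ⊢
  exact step (QS A A') QS_conj (core_pos hA hA' h4) _ _ hZ (Or.inl hCP) hB

theorem main_blocks (hA : Fintype.card A ≤ 3) (hA' : Fintype.card A' ≤ 3)
    (h4 : Fintype.card A + Fintype.card A' ≤ 4)
    (B : (((A ⊕ A') ⊕ V) ⊕ W) → (((A ⊕ A') ⊕ V) ⊕ W) →
      Matrix (((A ⊕ A') ⊕ V) ⊕ W) (((A ⊕ A') ⊕ V) ⊕ W) ℂ)
    (h12 : ∀ i j, B (Sum.inl i) (Sum.inr j) = 0) (h21 : ∀ i j, B (Sum.inr i) (Sum.inl j) = 0)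
    (hQ : QC A A' V _ (fun i j => B (Sum.inl i) (Sum.inl j)))
    (hW : IsCoCP (fun i j => B (Sum.inr i) (Sum.inr j))) (hB : PosF B) : 0 < Phi B := by
  rw [eq_bsum B h12 h21] at hB ⊢
  refine step (QC A A' V) ?_ (mid_pos hA hA' h4) _ _ hQ (Or.inr hW) hB
  intro κ κ' _ _ _ _ K hK B' h
  obtain ⟨k12, k21, hs, hcp⟩ := h
  refine ⟨fun i j => ?_, fun i j => ?_, ?_, ?_⟩
  · show K * B' _ _ * Kᴴ = 0
    rw [k12]; simp
  · show K * B' _ _ * Kᴴ = 0
    rw [k21]; simp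
  · exact QS_conj κ κ' K hK _ hs
  · exact isCP_conj K hcp

end

end Pool.Agent.H94.MD
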